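import Pool.Agent.NPC.Defs

/-!
# Unique games on regular bipartite graphs, and their second singular value
-/

set_option autoImplicit false

namespace Pool.Agent.K6.H49.UGX

/-- A constraint `(u, v, π)` between the left vertex `u` and the right vertex `v`: the label `i` of
`u` demands the label `π[i]` of `v` (`π` is the table of a map). -/
abbrev Edge : Type := ℕ × ℕ × List ℕ

/-- An instance `(n, E)`: the left vertices and the right vertices are `0, …, n - 1`, and `E` is
the list of the constraints (the constraint graph is a bipartite multigraph). -/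
abbrev Game : Type := ℕ × List Edge

/-- `G` is a (nonempty) unique game with the labels `0, …, q - 1`: every constraint is given by a
permutation of the labels. -/
def IsUnique (q : ℕ) (G : Game) : Prop :=
  G.2 ≠ [] ∧ ∀ e ∈ G.2, e.1 < G.1 ∧ e.2.1 < G.1 ∧
    e.2.2.length = q ∧ e.2.2.Nodup ∧ ∀ b ∈ e.2.2, b < q

/-- Every left vertex and every right vertex has the degree `d`. -/
def Regular (G : Game) (d : ℕ) : Prop :=
  ∀ u < G.1, (G.2.countP fun e => decide (e.1 = u)) = d ∧
    (G.2.countP fun e => decide (e.2.1 = u)) = d

/-- The second singular value is at most `s`. For a regular constraint graph with biadjacency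
matrix `M` (whose largest singular value belongs to the constant vectors) this says
`|fᵀ M g| ≤ s ‖f‖ ‖g‖` for all vectors `f` and `g` of sum zero. -/
def SecondLE (G : Game) (s : ℝ) : Prop :=
  ∀ f g : ℕ → ℝ, ∑ u ∈ Finset.range G.1, f u = 0 → ∑ v ∈ Finset.range G.1, g v = 0 →
    |(G.2.map fun e => f e.1 * g e.2.1).sum| ≤
      s * (√(∑ u ∈ Finset.range G.1, f u ^ 2) * √(∑ v ∈ Finset.range G.1, g v ^ 2))

/-- The number of the constraints satisfied by the labelings `f` (of the left vertices) and `g`
(of the right vertices). -/
def numSat {q : ℕ} (G : Game) (f g : ℕ → Fin q) : ℕ :=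
  G.2.countP fun e => decide (e.2.2[(f e.1 : ℕ)]? = some (g e.2.1 : ℕ))

/-- Some labeling satisfies at least the fraction `c` of the constraints. -/
def ValGE (q : ℕ) (G : Game) (c : ℝ) : Prop :=
  ∃ f g : ℕ → Fin q, c * (G.2.length : ℝ) ≤ (numSat G f g : ℝ)

/-- Every labeling satisfies at most the fraction `c` of the constraints. -/
def ValLE (q : ℕ) (G : Game) (c : ℝ) : Prop :=
  ∀ f g : ℕ → Fin q, (numSat G f g : ℝ) ≤ c * (G.2.length : ℝ)

end Pool.Agent.K6.H49.UGX
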