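import Pool.Agent.K6.H49.UGX.Deg

/-!
# The second singular value
-/

set_option autoImplicit false

open Finset

namespace Pool.Agent.K6.H49.UGX

variable {m s ρ B : ℕ} {cl : ℕ → Cl}

/-- The bilinear form of the adjacency matrix. -/
def bil (f g : ℕ → ℝ) (e : SE) : ℝ := f e.1 * g e.2.1

/-- The sum of `φ` over the four vertices of a clause. -/
def U4 (t : ℕ) (c : Cl) (φ : ℕ → ℝ) : ℝ := φ c.1.1 + φ c.2.1.1 + φ c.2.2.1 + φ t

theorem sum_occ (hl : Low m cl) (φ : ℕ → ℝ) : (∑ j ∈ range m, U4 (3 * m + j) (cl j) φ) =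
    ∑ w ∈ range (4 * m), (cnt m cl w : ℝ) * φ w := by
  simp only [cnt_eq', Nat.cast_sum, sum_mul]
  rw [sum_comm]
  refine sum_congr rfl fun j hj => ?_
  rw [mem_range] at hj
  obtain ⟨g1, g2, g3⟩ := hl j hj
  have hm : ∀ w, ((mul (3 * m + j) (cl j) w : ℕ) : ℝ) * φ w =
      (if (cl j).1.1 = w then φ w else 0) + (if (cl j).2.1.1 = w then φ w else 0) +
      (if (cl j).2.2.1 = w then φ w else 0) + (if 3 * m + j = w then φ w else 0) := by
    intro w
    simp only [mul, Nat.cast_add, Nat.cast_ite, Nat.cast_one, Nat.cast_zero]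
    split_ifs <;> ring
  simp only [hm, sum_add_distrib]
  rw [sum_ite_eq, sum_ite_eq, sum_ite_eq, sum_ite_eq]
  simp only [mem_range]
  rw [if_pos (by omega), if_pos (by omega), if_pos (by omega), if_pos (by omega)]
  rfl

theorem bil_eq (hl : Low m cl) (hr : 1 ≤ s * (8 * B + 2 * ρ)) (f g : ℕ → ℝ) :
    S (bil f g) (edges m s ρ B cl) =
      ((s : ℝ) * (8 * B + 2 * ρ) - 1) * (∑ i ∈ range (hubs m s ρ), f (4 * m + i)) *
        (∑ i ∈ range (hubs m s ρ), g (4 * m + i)) +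
      2 * (s * ρ) * ((∑ w ∈ range (4 * m), f w) * (∑ i ∈ range (hubs m s ρ), g (4 * m + i)) +
        (∑ i ∈ range (hubs m s ρ), f (4 * m + i)) * (∑ w ∈ range (4 * m), g w)) +
      s * ((∑ w ∈ range (4 * m), (cnt m cl w : ℝ) * f w) *
          (∑ i ∈ range (hubs m s ρ), g (4 * m + i)) +
        (∑ i ∈ range (hubs m s ρ), f (4 * m + i)) *
          (∑ w ∈ range (4 * m), (cnt m cl w : ℝ) * g w)) +
      s * hubs m s ρ * ((∑ j ∈ range m, U4 (3 * m + j) (cl j) f * U4 (3 * m + j) (cl j) g) +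
        3 * ∑ w ∈ range (4 * m), (cnt m cl w : ℝ) * (f w * g w)) +
      8 * (s * hubs m s ρ) * ∑ w ∈ range (4 * m), ((B - cnt m cl w : ℕ) : ℝ) * (f w * g w) := by
  rw [S_edges]
  generalize hN : hubs m s ρ = N
  have h1 : (∑ i ∈ range N, ∑ i' ∈ range N,
      (s * (8 * B + 2 * ρ) - 1) • bil f g (4 * m + i, 4 * m + i', false)) =
      ((s : ℝ) * (8 * B + 2 * ρ) - 1) * (∑ i ∈ range N, f (4 * m + i)) *
        (∑ i ∈ range N, g (4 * m + i)) := by
    rw [mul_assoc, sum_mul_sum, mul_sum]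
    refine sum_congr rfl fun i _ => ?_
    rw [mul_sum]
    refine sum_congr rfl fun i' _ => ?_
    simp only [bil, nsmul_eq_mul]
    rw [Nat.cast_sub hr]
    push_cast
    ring
  have h2 : (∑ w ∈ range (4 * m), ∑ i ∈ range N, (s * ρ) • S (bil f g) (nu w (4 * m + i))) =
      2 * (s * ρ) * ((∑ w ∈ range (4 * m), f w) * (∑ i ∈ range N, g (4 * m + i)) +
        (∑ i ∈ range N, f (4 * m + i)) * (∑ w ∈ range (4 * m), g w)) := by
    rw [mul_comm (∑ i ∈ range N, f (4 * m + i)), sum_mul_sum, sum_mul_sum, ← sum_add_distrib,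
      mul_sum]
    refine sum_congr rfl fun w _ => ?_
    rw [← sum_add_distrib, mul_sum]
    refine sum_congr rfl fun i _ => ?_
    simp only [nu, S_cons, S_nil, bil, nsmul_eq_mul]
    push_cast
    ring
  have h3 : (∑ j ∈ range m, ∑ i ∈ range N,
      s • S (bil f g) (tg (3 * m + j) (cl j) (4 * m + i))) =
      s * ((∑ w ∈ range (4 * m), (cnt m cl w : ℝ) * f w) * (∑ i ∈ range N, g (4 * m + i)) +
        (∑ i ∈ range N, f (4 * m + i)) * (∑ w ∈ range (4 * m), (cnt m cl w : ℝ) * g w)) := by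
    rw [← sum_occ hl, ← sum_occ hl, mul_comm (∑ i ∈ range N, f (4 * m + i)), sum_mul_sum,
      sum_mul_sum, ← sum_add_distrib, mul_sum]
    refine sum_congr rfl fun j _ => ?_
    rw [← sum_add_distrib, mul_sum]
    refine sum_congr rfl fun i _ => ?_
    simp only [tg, S_cons, S_nil, bil, nsmul_eq_mul, U4]
    ring
  have h4 : (∑ j ∈ range m, (s * N) • S (bil f g) (gad (3 * m + j) (cl j))) =
      s * N * ((∑ j ∈ range m, U4 (3 * m + j) (cl j) f * U4 (3 * m + j) (cl j) g) +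
        3 * ∑ w ∈ range (4 * m), (cnt m cl w : ℝ) * (f w * g w)) := by
    rw [← sum_occ hl fun w => f w * g w, mul_sum, ← sum_add_distrib, mul_sum]
    refine sum_congr rfl fun j _ => ?_
    simp only [gad, S_cons, S_nil, bil, nsmul_eq_mul, U4]
    push_cast
    ring
  have h5 : (∑ w ∈ range (4 * m), (B - cnt m cl w) • (4 * (s * N)) • S (bil f g) (du w)) =
      8 * (s * N) * ∑ w ∈ range (4 * m), ((B - cnt m cl w : ℕ) : ℝ) * (f w * g w) := by
    rw [mul_sum]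
    refine sum_congr rfl fun w _ => ?_
    simp only [du, S_cons, S_nil, bil, nsmul_eq_mul]
    push_cast
    ring
  rw [h1, h2, h3, h4, h5]
  ring

theorem U4_sq (t : ℕ) (c : Cl) (f : ℕ → ℝ) : U4 t c f ^ 2 ≤ 4 * U4 t c fun w => f w ^ 2 := by
  unfold U4
  nlinarith [sq_nonneg (f c.1.1 - f c.2.1.1), sq_nonneg (f c.1.1 - f c.2.2.1),
    sq_nonneg (f c.1.1 - f t), sq_nonneg (f c.2.1.1 - f c.2.2.1), sq_nonneg (f c.2.1.1 - f t),
    sq_nonneg (f c.2.2.1 - f t)]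

theorem two_mul_bil_le (hl : Low m cl) (hB : ∀ w < 4 * m, cnt m cl w ≤ B) (hB1 : 1 ≤ B)
    (hρ : 1 ≤ ρ) (hs : 1 ≤ s) (f g : ℕ → ℝ)
    (hf : ∑ u ∈ range (4 * m + hubs m s ρ), f u = 0)
    (hg : ∑ u ∈ range (4 * m + hubs m s ρ), g u = 0) :
    2 * S (bil f g) (edges m s ρ B cl) ≤ 18 * B * (s * hubs m s ρ) *
      ((∑ u ∈ range (4 * m + hubs m s ρ), f u ^ 2) +
        ∑ u ∈ range (4 * m + hubs m s ρ), g u ^ 2) := by
  have hr : 1 ≤ s * (8 * B + 2 * ρ) := by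
    calc 1 = 1 * 1 := rfl
      _ ≤ s * (8 * B + 2 * ρ) := Nat.mul_le_mul hs (by omega)
  rw [bil_eq hl hr]
  rw [sum_range_add] at hf hg
  rw [sum_range_add (fun u => f u ^ 2), sum_range_add (fun u => g u ^ 2)]
  have hN' : (hubs m s ρ : ℝ) = 4 * m * s * (2 * ρ + 1) := by
    unfold hubs; push_cast; ring
  generalize hN : hubs m s ρ = N at *
  -- Cauchy-Schwarz bounds
  have cs : ∀ φ : ℕ → ℝ, (∑ w ∈ range (4 * m), φ w) ^ 2 ≤
      4 * m * ∑ w ∈ range (4 * m), φ w ^ 2 := by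
    intro φ
    have := sq_sum_le_card_mul_sum_sq (s := range (4 * m)) (f := φ)
    rw [card_range] at this
    push_cast at this
    exact this
  have cs2 : ∀ φ : ℕ → ℝ, (∑ w ∈ range (4 * m), (cnt m cl w : ℝ) * φ w) ^ 2 ≤
      4 * m * ((B : ℝ) ^ 2 * ∑ w ∈ range (4 * m), φ w ^ 2) := by
    intro φ
    refine (cs _).trans (mul_le_mul_of_nonneg_left ?_ (by positivity))
    rw [mul_sum]
    refine sum_le_sum fun w hw => ?_
    rw [mul_pow]
    refine mul_le_mul_of_nonneg_right ?_ (sq_nonneg _)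
    have : (cnt m cl w : ℝ) ≤ B := by exact_mod_cast hB w (mem_range.1 hw)
    exact pow_le_pow_left₀ (by positivity) this 2
  have hs' : (1 : ℝ) ≤ s := by exact_mod_cast hs
  have hρ' : (1 : ℝ) ≤ ρ := by exact_mod_cast hρ
  have hB' : (1 : ℝ) ≤ B := by exact_mod_cast hB1
  have hm' : (0 : ℝ) ≤ m := by positivity
  -- the clause part
  have hcl : 2 * (∑ j ∈ range m, U4 (3 * m + j) (cl j) f * U4 (3 * m + j) (cl j) g) ≤
      4 * ((∑ w ∈ range (4 * m), (cnt m cl w : ℝ) * f w ^ 2) +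
        ∑ w ∈ range (4 * m), (cnt m cl w : ℝ) * g w ^ 2) := by
    rw [← sum_occ hl fun w => f w ^ 2, ← sum_occ hl fun w => g w ^ 2, ← sum_add_distrib,
      mul_sum, mul_sum]
    refine sum_le_sum fun j _ => ?_
    have k1 := U4_sq (3 * m + j) (cl j) f
    have k2 := U4_sq (3 * m + j) (cl j) g
    nlinarith [sq_nonneg (U4 (3 * m + j) (cl j) f - U4 (3 * m + j) (cl j) g)]
  have hloc : 2 * ((∑ j ∈ range m, U4 (3 * m + j) (cl j) f * U4 (3 * m + j) (cl j) g) +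
        3 * ∑ w ∈ range (4 * m), (cnt m cl w : ℝ) * (f w * g w)) +
      16 * ∑ w ∈ range (4 * m), ((B - cnt m cl w : ℕ) : ℝ) * (f w * g w) ≤
      8 * B * ((∑ w ∈ range (4 * m), f w ^ 2) + ∑ w ∈ range (4 * m), g w ^ 2) := by
    have h2 : 4 * ((∑ w ∈ range (4 * m), (cnt m cl w : ℝ) * f w ^ 2) +
        ∑ w ∈ range (4 * m), (cnt m cl w : ℝ) * g w ^ 2) +
        6 * (∑ w ∈ range (4 * m), (cnt m cl w : ℝ) * (f w * g w)) +
      16 * (∑ w ∈ range (4 * m), ((B - cnt m cl w : ℕ) : ℝ) * (f w * g w)) ≤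
      8 * B * ((∑ w ∈ range (4 * m), f w ^ 2) + ∑ w ∈ range (4 * m), g w ^ 2) := by
      rw [← sum_add_distrib, ← sum_add_distrib, mul_sum, mul_sum, mul_sum, mul_sum,
        ← sum_add_distrib, ← sum_add_distrib]
      refine sum_le_sum fun w hw => ?_
      have hc := hB w (mem_range.1 hw)
      have hc' : (cnt m cl w : ℝ) ≤ B := by exact_mod_cast hc
      have hc0 : (0 : ℝ) ≤ cnt m cl w := by positivity
      rw [Nat.cast_sub hc]
      generalize (cnt m cl w : ℝ) = c at hc' hc0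
      have h3 : (0 : ℝ) ≤ B - c := by linarith
      have h4 : f w * g w ≤ (f w ^ 2 + g w ^ 2) / 2 := by nlinarith [sq_nonneg (f w - g w)]
      have h5 : c * (f w * g w) ≤ c * ((f w ^ 2 + g w ^ 2) / 2) :=
        mul_le_mul_of_nonneg_left h4 hc0
      have h6 : ((B : ℝ) - c) * (f w * g w) ≤ (B - c) * ((f w ^ 2 + g w ^ 2) / 2) :=
        mul_le_mul_of_nonneg_left h4 h3
      have h7 : 0 ≤ c * (f w ^ 2 + g w ^ 2) := by positivity
      nlinarith
    linarith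
  -- the hub part
  generalize (∑ j ∈ range m, U4 (3 * m + j) (cl j) f * U4 (3 * m + j) (cl j) g) +
        3 * ∑ w ∈ range (4 * m), (cnt m cl w : ℝ) * (f w * g w) = X at hloc ⊢
  generalize (∑ w ∈ range (4 * m), ((B - cnt m cl w : ℕ) : ℝ) * (f w * g w)) = Y at hloc ⊢
  have a1 := cs f
  have a2 := cs g
  have a3 := cs2 f
  have a4 := cs2 g
  have hFh : (∑ i ∈ range N, f (4 * m + i)) = - ∑ w ∈ range (4 * m), f w := by linarith
  have hGh : (∑ i ∈ range N, g (4 * m + i)) = - ∑ w ∈ range (4 * m), g w := by linarith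
  rw [hFh, hGh]
  have b1 : 0 ≤ ∑ i ∈ range N, f (4 * m + i) ^ 2 := sum_nonneg fun i _ => sq_nonneg _
  have b2 : 0 ≤ ∑ i ∈ range N, g (4 * m + i) ^ 2 := sum_nonneg fun i _ => sq_nonneg _
  have b3 : 0 ≤ ∑ w ∈ range (4 * m), f w ^ 2 := sum_nonneg fun i _ => sq_nonneg _
  have b4 : 0 ≤ ∑ w ∈ range (4 * m), g w ^ 2 := sum_nonneg fun i _ => sq_nonneg _
  generalize (∑ i ∈ range N, f (4 * m + i) ^ 2) = P2 at b1 ⊢
  generalize (∑ i ∈ range N, g (4 * m + i) ^ 2) = Q2 at b2 ⊢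
  generalize (∑ w ∈ range (4 * m), f w ^ 2) = P at *
  generalize (∑ w ∈ range (4 * m), g w ^ 2) = Q at *
  generalize (∑ w ∈ range (4 * m), (cnt m cl w : ℝ) * f w) = UF at *
  generalize (∑ w ∈ range (4 * m), (cnt m cl w : ℝ) * g w) = UG at *
  generalize (∑ w ∈ range (4 * m), f w) = FH at *
  generalize (∑ w ∈ range (4 * m), g w) = GH at *
  -- first: the products
  have c1 : 2 * ((s * (8 * B + 2 * ρ) - 1 - 4 * (s * ρ)) * (FH * GH)) ≤
      (s * (8 * B + 2 * ρ + 1)) * (4 * m * (P + Q)) := by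
    have d1 : |(s : ℝ) * (8 * B + 2 * ρ) - 1 - 4 * (s * ρ)| ≤ s * (8 * B + 2 * ρ + 1) := by
      have : (0 : ℝ) ≤ s * B := by positivity
      have : (0 : ℝ) ≤ s * ρ := by positivity
      rw [abs_le]
      constructor <;> nlinarith
    have d2 : 2 * |FH * GH| ≤ 4 * m * (P + Q) := by
      rw [abs_mul]
      nlinarith [sq_nonneg (|FH| - |GH|), sq_abs FH, sq_abs GH]
    calc 2 * ((s * (8 * B + 2 * ρ) - 1 - 4 * (s * ρ)) * (FH * GH))
        ≤ 2 * |((s : ℝ) * (8 * B + 2 * ρ) - 1 - 4 * (s * ρ)) * (FH * GH)| :=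
          mul_le_mul_of_nonneg_left (le_abs_self _) (by norm_num)
      _ = |(s : ℝ) * (8 * B + 2 * ρ) - 1 - 4 * (s * ρ)| * (2 * |FH * GH|) := by
          rw [abs_mul]; ring
      _ ≤ _ := mul_le_mul d1 d2 (by positivity) (by positivity)
  have c2 : -2 * (UF * GH) ≤ 4 * m * B * (P + Q) := by
    have d : 0 ≤ (UF + B * GH) ^ 2 := sq_nonneg _
    have d' : (B : ℝ) * (-2 * (UF * GH)) ≤ B * (4 * m * B * (P + Q)) := by
      have : (B : ℝ) ^ 2 * GH ^ 2 ≤ B ^ 2 * (4 * m * Q) :=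
        mul_le_mul_of_nonneg_left a2 (by positivity)
      nlinarith
    exact le_of_mul_le_mul_left d' (by linarith)
  have c3 : -2 * (FH * UG) ≤ 4 * m * B * (P + Q) := by
    have d : 0 ≤ (UG + B * FH) ^ 2 := sq_nonneg _
    have d' : (B : ℝ) * (-2 * (FH * UG)) ≤ B * (4 * m * B * (P + Q)) := by
      have : (B : ℝ) ^ 2 * FH ^ 2 ≤ B ^ 2 * (4 * m * P) :=
        mul_le_mul_of_nonneg_left a1 (by positivity)
      nlinarith
    exact le_of_mul_le_mul_left d' (by linarith)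
  have c2' := mul_le_mul_of_nonneg_left c2 (by positivity : (0 : ℝ) ≤ s)
  have c3' := mul_le_mul_of_nonneg_left c3 (by positivity : (0 : ℝ) ≤ s)
  have hloc' := mul_le_mul_of_nonneg_left hloc (by positivity : (0 : ℝ) ≤ s * N)
  have key : (s : ℝ) * (8 * B + 2 * ρ + 1) * (4 * m * (P + Q)) +
      2 * (s * (4 * m * B * (P + Q))) ≤ 10 * B * (s * N) * (P + Q) := by
    have e1 : (s : ℝ) * (8 * B + 2 * ρ + 1) * (4 * m * (P + Q)) +
      2 * (s * (4 * m * B * (P + Q))) = (4 * m * s * (P + Q)) * (10 * B + 2 * ρ + 1) := by ring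
    have e2 : 10 * (B : ℝ) * (s * N) * (P + Q) =
        (4 * m * s * (P + Q)) * (10 * B * s * (2 * ρ + 1)) := by rw [hN']; ring
    rw [e1, e2]
    refine mul_le_mul_of_nonneg_left ?_ (by positivity)
    have e3 : 10 * (B : ℝ) * 1 * (2 * ρ + 1) ≤ 10 * B * s * (2 * ρ + 1) := by
      refine mul_le_mul_of_nonneg_right ?_ (by positivity)
      exact mul_le_mul_of_nonneg_left hs' (by positivity)
    nlinarith [mul_nonneg (sub_nonneg.2 hB') (sub_nonneg.2 hρ')]
  have hlast : (8 : ℝ) * B * (s * N) * (P + Q) ≤ 8 * B * (s * N) * (P + P2 + (Q + Q2)) := by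
    refine mul_le_mul_of_nonneg_left ?_ (by positivity)
    linarith
  have hlast2 : (10 : ℝ) * B * (s * N) * (P + Q) ≤ 10 * B * (s * N) * (P + P2 + (Q + Q2)) := by
    refine mul_le_mul_of_nonneg_left ?_ (by positivity)
    linarith
  nlinarith [c1, c2', c3', hloc', key, hlast, hlast2]

theorem S_smul (c : ℝ) (f g : ℕ → ℝ) (l : List SE) :
    S (bil (fun u => c * f u) g) l = c * S (bil f g) l := by
  induction l with
  | nil => simp [S]
  | cons e l ih =>
    rw [S_cons, S_cons, ih]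
    simp only [bil]
    ring

/-- From the bound with the arithmetic mean to the bound with the geometric mean. -/
theorem bil_abs_le (hl : Low m cl) (hB : ∀ w < 4 * m, cnt m cl w ≤ B) (hB1 : 1 ≤ B)
    (hρ : 1 ≤ ρ) (hs : 1 ≤ s) (f g : ℕ → ℝ)
    (hf : ∑ u ∈ range (4 * m + hubs m s ρ), f u = 0)
    (hg : ∑ u ∈ range (4 * m + hubs m s ρ), g u = 0) :
    |S (bil f g) (edges m s ρ B cl)| ≤ 18 * B * (s * hubs m s ρ) *
      (√(∑ u ∈ range (4 * m + hubs m s ρ), f u ^ 2) *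
        √(∑ u ∈ range (4 * m + hubs m s ρ), g u ^ 2)) := by
  generalize hP : (∑ u ∈ range (4 * m + hubs m s ρ), f u ^ 2) = P
  generalize hQ : (∑ u ∈ range (4 * m + hubs m s ρ), g u ^ 2) = Q
  have hP0 : 0 ≤ P := by rw [← hP]; exact sum_nonneg fun i _ => sq_nonneg _
  have hQ0 : 0 ≤ Q := by rw [← hQ]; exact sum_nonneg fun i _ => sq_nonneg _
  have hq : ∀ c : ℝ, 0 ≤ (18 * B * (s * hubs m s ρ) * P) * (c * c) +
      (-2 * S (bil f g) (edges m s ρ B cl)) * c + 18 * B * (s * hubs m s ρ) * Q := by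
    intro c
    have h := two_mul_bil_le (s := s) (ρ := ρ) hl hB hB1 hρ hs (fun u => c * f u) g
      (by rw [← mul_sum, hf, mul_zero]) hg
    rw [S_smul] at h
    have : (∑ u ∈ range (4 * m + hubs m s ρ), (c * f u) ^ 2) = c ^ 2 * P := by
      rw [← hP, mul_sum]
      exact sum_congr rfl fun u _ => by ring
    rw [this, hQ] at h
    nlinarith
  have hd := discrim_le_zero hq
  unfold discrim at hd
  generalize S (bil f g) (edges m s ρ B cl) = V at hd ⊢
  have hK : (0 : ℝ) ≤ 18 * B * (s * hubs m s ρ) := by positivity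
  generalize (18 : ℝ) * B * (s * hubs m s ρ) = K at hd hK ⊢
  have h2 : V ^ 2 ≤ (K * (√P * √Q)) ^ 2 := by
    rw [mul_pow, mul_pow, Real.sq_sqrt hP0, Real.sq_sqrt hQ0]
    nlinarith
  exact abs_le_of_sq_le_sq h2 (by positivity)

end Pool.Agent.K6.H49.UGX
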