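import Pool.Agent.K6.H49.UGX.Viol
import Pool.Agent.K6.H49.UGX.Spec
import Pool.Agent.K6.H49.UGX.Defs
import Pool.Agent.H671R2.PolyAuto
import Pool.Agent.NPC.Sat2
import Pool.Agent.H243R3.PCP.Gap

/-!
# The reduction from formulas to unique games
-/

set_option autoImplicit false

open Finset

namespace Pool.Agent.K6.H49.UGX

open Pool.Agent.NPC
open Pool.Agent.H243R3.TP (Clause occ)

abbrev Fm : Type := List Clause

def dflt : Clause := ((0, false), (0, false), (0, false))

/-- The clause `j`, with the variables replaced by their positions. -/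
noncomputable def cls (φ : Fm) (j : ℕ) : Cl :=
  ((index (occ φ) (φ.getD j dflt).1.1, (φ.getD j dflt).1.2),
    (index (occ φ) (φ.getD j dflt).2.1.1, (φ.getD j dflt).2.1.2),
    (index (occ φ) (φ.getD j dflt).2.2.1, (φ.getD j dflt).2.2.2))

theorem occ_cons (c : Clause) (φ : Fm) : occ (c :: φ) = c.1.1 :: c.2.1.1 :: c.2.2.1 :: occ φ := by
  simp [occ, H243R3.TP.lits]

theorem length_occ (φ : Fm) : (occ φ).length = 3 * φ.length := by
  induction φ with
  | nil => rfl
  | cons c φ ih =>
    rw [occ_cons]
    simp only [List.length_cons, ih]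
    ring

theorem mem_occ {φ : Fm} {j : ℕ} (hj : j < φ.length) :
    (φ.getD j dflt).1.1 ∈ occ φ ∧ (φ.getD j dflt).2.1.1 ∈ occ φ ∧
      (φ.getD j dflt).2.2.1 ∈ occ φ := by
  induction φ generalizing j with
  | nil => simp at hj
  | cons c φ ih =>
    rw [occ_cons]
    cases j with
    | zero => simp
    | succ j =>
      obtain ⟨h1, h2, h3⟩ := ih (by simpa using hj)
      rw [List.getD_cons_succ]
      simp only [List.mem_cons]
      exact ⟨Or.inr (Or.inr (Or.inr h1)), Or.inr (Or.inr (Or.inr h2)), Or.inr (Or.inr (Or.inr h3))⟩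

theorem low_cls (φ : Fm) : Low φ.length (cls φ) := by
  intro j hj
  obtain ⟨h1, h2, h3⟩ := mem_occ hj
  rw [← length_occ]
  exact ⟨index_lt h1, index_lt h2, index_lt h3⟩

theorem sum_getD (φ : Fm) (a : Clause → ℕ) :
    (∑ j ∈ range φ.length, a (φ.getD j dflt)) = (φ.map a).sum := by
  induction φ with
  | nil => simp
  | cons c φ ih =>
    rw [List.length_cons, sum_range_succ']
    simp only [List.getD_cons_succ, List.getD_cons_zero, List.map_cons, List.sum_cons]
    rw [ih, add_comm]

theorem occ_count (φ : Fm) (p : ℕ → Bool) :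
    (φ.map fun c => (if p c.1.1 then 1 else 0) + (if p c.2.1.1 then 1 else 0) +
      (if p c.2.2.1 then 1 else 0)).sum = (occ φ).countP p := by
  induction φ with
  | nil => rfl
  | cons c φ ih =>
    rw [occ_cons, List.map_cons, List.sum_cons, ih]
    simp only [List.countP_cons]
    ring

theorem cnt_cls_le {φ : Fm} {b : ℕ} (hb : ∀ v, (occ φ).count v ≤ b) (hb1 : 1 ≤ b) {w : ℕ}
    (hw : w < 4 * φ.length) : cnt φ.length (cls φ) w ≤ b := by
  rw [cnt_eq, sum_add_distrib]
  have h1 : (∑ j ∈ range φ.length, ((if (cls φ j).1.1 = w then 1 else 0) +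
      (if (cls φ j).2.1.1 = w then 1 else 0) + (if (cls φ j).2.2.1 = w then 1 else 0))) =
      (occ φ).countP fun v => decide (index (occ φ) v = w) := by
    rw [← occ_count, ← sum_getD]
    refine sum_congr rfl fun j _ => ?_
    unfold cls
    congr 1
    · congr 1
      · congr 1
        simp
      · congr 1
        simp
    · congr 1
      simp
  rw [h1]
  rcases Nat.lt_or_ge w (3 * φ.length) with h | h
  · have h2 : (∑ j ∈ range φ.length, (if 3 * φ.length + j = w then 1 else 0)) = 0 :=
      sum_eq_zero fun j _ => by rw [if_neg (by omega)]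
    rw [h2, add_zero]
    refine le_trans ?_ (hb ((occ φ).getD w 0))
    rw [List.count]
    refine List.countP_mono_left fun v hv hvw => ?_
    have h3 := getElem?_index hv
    rw [of_decide_eq_true hvw] at h3
    simp only [beq_iff_eq]
    rw [List.getD_eq_getElem?_getD, h3]
    rfl
  · have h2 : (occ φ).countP (fun v => decide (index (occ φ) v = w)) = 0 := by
      rw [List.countP_eq_zero]
      intro v hv
      have := index_lt hv
      rw [length_occ] at this
      simp only [decide_eq_true_eq]
      omega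
    rw [h2, zero_add]
    calc _ = ∑ j ∈ range φ.length, (if j = w - 3 * φ.length then 1 else 0) := by
          refine sum_congr rfl fun j _ => ?_
          congr 1
          exact propext ⟨fun h => by omega, fun h => by omega⟩
      _ ≤ 1 := by
          rw [sum_ite_eq']
          split_ifs <;> omega
      _ ≤ b := hb1

/-- The number of false clauses, through the positions. -/
theorem unsat_cls (φ : Fm) (x : ℕ → Bool) (A : List ℕ)
    (hA : ∀ v ∈ occ φ, (v ∈ A ↔ x (index (occ φ) v) = true)) :
    unsat φ.length (cls φ) x + H243R3.TP.numSat φ A = φ.length := by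
  have h1 : unsat φ.length (cls φ) x =
      ∑ j ∈ range φ.length, (if H243R3.TP.ClauseSat A (φ.getD j dflt) then 0 else 1) := by
    unfold unsat
    refine sum_congr rfl fun j hj => ?_
    rw [mem_range] at hj
    obtain ⟨h1, h2, h3⟩ := mem_occ hj
    have h : Tru x (cls φ j) ↔ H243R3.TP.ClauseSat A (φ.getD j dflt) := by
      unfold Tru cls H243R3.TP.ClauseSat H243R3.TP.lits H243R3.TP.LitTrue
      simp only [List.mem_cons, List.not_mem_nil, or_false, exists_eq_or_imp, exists_eq_left]
      rw [hA _ h1, hA _ h2, hA _ h3, ← Bool.eq_iff_iff, ← Bool.eq_iff_iff, ← Bool.eq_iff_iff]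
    by_cases hc : Tru x (cls φ j)
    · rw [if_pos hc, if_pos (h.1 hc)]
    · rw [if_neg hc, if_neg fun h' => hc (h.2 h')]
  rw [h1, sum_getD φ fun c => if H243R3.TP.ClauseSat A c then 0 else 1]
  unfold H243R3.TP.numSat
  clear h1 hA
  induction φ with
  | nil => rfl
  | cons c φ ih =>
    rw [List.map_cons, List.sum_cons, List.countP_cons, List.length_cons]
    by_cases hc : H243R3.TP.ClauseSat A c
    · rw [if_pos hc, if_pos (decide_eq_true hc)]
      omega
    · rw [if_neg hc, if_neg (by simpa using hc)]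
      omega

/-! ### The game -/

/-- The table of the identity, or of the shift by `h`, modulo `h + h`. -/
def tab (h : ℕ) (z : Bool) : List ℕ :=
  if z then (List.range (h + h)).map fun i => (i + h) % (h + h) else List.range (h + h)

def toE (h : ℕ) (e : SE) : Edge := (e.1, e.2.1, tab h e.2.2)

/-- The game of a formula, with `h + h` labels. -/
noncomputable def game (h s ρ B : ℕ) (φ : Fm) : Game :=
  (4 * φ.length + hubs φ.length s ρ, (edges φ.length s ρ B (cls φ)).map (toE h))

theorem shift_eq {h i : ℕ} (hi : i < h + h) :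
    (i + h) % (h + h) = if i < h then i + h else i - h := by
  split_ifs with h1
  · exact Nat.mod_eq_of_lt (by omega)
  · have : i + h = (i - h) + (h + h) := by omega
    rw [this, Nat.add_mod_right, Nat.mod_eq_of_lt (by omega)]

theorem tab_getElem (h : ℕ) (z : Bool) {i : ℕ} (hi : i < h + h) :
    (tab h z)[i]? = some (if z then (if i < h then i + h else i - h) else i) := by
  unfold tab
  cases z
  · simp [hi]
  · simp only [if_true, List.getElem?_map, List.getElem?_range hi, Option.map_some]
    rw [shift_eq hi]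

theorem tab_ok (h : ℕ) (z : Bool) : (tab h z).length = h + h ∧ (tab h z).Nodup ∧
    ∀ b ∈ tab h z, b < h + h := by
  unfold tab
  cases z
  · simp [List.nodup_range]
  · refine ⟨by simp, ?_, ?_⟩
    · simp only [if_true]
      refine List.Nodup.map_on ?_ List.nodup_range
      intro x hx y hy hxy
      rw [List.mem_range] at hx hy
      rw [shift_eq hx, shift_eq hy] at hxy
      split_ifs at hxy <;> omega
    · simp only [if_true, List.mem_map, List.mem_range]
      rintro b ⟨i, hi, rfl⟩
      exact Nat.mod_lt _ (by omega)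

theorem countP_S (l : List SE) (u : ℕ) :
    (l.countP fun e => decide (e.1 = u)) = S (lft u) l := by
  induction l with
  | nil => rfl
  | cons e l ih =>
    rw [List.countP_cons, ih, S_cons, lft, add_comm]
    simp only [decide_eq_true_eq]

theorem countP_S' (l : List SE) (u : ℕ) :
    (l.countP fun e => decide (e.2.1 = u)) = S (fun e => lft u (e.2.1, e.1, e.2.2)) l := by
  induction l with
  | nil => rfl
  | cons e l ih =>
    rw [List.countP_cons, ih, S_cons, lft, add_comm]
    simp only [decide_eq_true_eq]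

/-- The Boolean label of a label. -/
def bl {h : ℕ} (a : Fin (h + h)) : Bool := decide (h ≤ (a : ℕ))

/-- The label of a Boolean label. -/
def lb {h : ℕ} (hh : 1 ≤ h) (b : Bool) : Fin (h + h) :=
  if b then ⟨h, by omega⟩ else ⟨0, by omega⟩

theorem sat_bl {h : ℕ} (a b : Fin (h + h)) (z : Bool)
    (hs : (tab h z)[(a : ℕ)]? = some (b : ℕ)) : (bl a != bl b) = z := by
  rw [tab_getElem h z a.2, Option.some.injEq] at hs
  have h1 := a.2
  have h2 := b.2
  unfold bl
  cases z
  · simp only [Bool.false_eq_true, if_false] at hs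
    simp [hs]
  · simp only [if_true] at hs
    split_ifs at hs with h3
    · have k1 : decide (h ≤ (a : ℕ)) = false := by simp; omega
      have k2 : decide (h ≤ (b : ℕ)) = true := by simp; omega
      rw [k1, k2]; rfl
    · have k1 : decide (h ≤ (a : ℕ)) = true := by simp; omega
      have k2 : decide (h ≤ (b : ℕ)) = false := by simp; omega
      rw [k1, k2]; rfl

theorem sat_lb {h : ℕ} (hh : 1 ≤ h) (a b : Bool) (z : Bool) (hs : (a != b) = z) :
    (tab h z)[(lb hh a : ℕ)]? = some (lb hh b : ℕ) := by
  rw [tab_getElem h z (lb hh a).2]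
  subst hs
  cases a <;> cases b <;> simp [lb] <;> omega

theorem numSat_le (l : List SE) (n h : ℕ) (f g : ℕ → Fin (h + h)) :
    numSat (n, l.map (toE h)) f g + S (vio (fun u => bl (f u)) (fun u => bl (g u))) l ≤
      l.length := by
  unfold numSat
  induction l with
  | nil => exact le_rfl
  | cons e l ih =>
    rw [S_cons, List.map_cons, List.countP_cons, List.length_cons]
    simp only at ih
    have h1 : (if decide ((toE h e).2.2[(f (toE h e).1 : ℕ)]? = some (g (toE h e).2.1 : ℕ)) = true
        then 1 else 0) + vio (fun u => bl (f u)) (fun u => bl (g u)) e ≤ 1 := by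
      unfold vio vc
      split_ifs with h1 h2 h2
      · omega
      · exact absurd (sat_bl _ _ _ (of_decide_eq_true h1)) h2
      · omega
      · omega
    omega

theorem numSat_ge (l : List SE) (n : ℕ) {h : ℕ} (hh : 1 ≤ h) (f g : ℕ → Bool) :
    l.length ≤ numSat (n, l.map (toE h)) (fun u => lb hh (f u)) (fun u => lb hh (g u)) +
      S (vio f g) l := by
  unfold numSat
  induction l with
  | nil => exact le_rfl
  | cons e l ih =>
    rw [S_cons, List.map_cons, List.countP_cons, List.length_cons]
    simp only at ih ⊢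
    have h1 : 1 ≤ (if decide ((toE h e).2.2[(lb hh (f (toE h e).1) : ℕ)]? =
        some (lb hh (g (toE h e).2.1) : ℕ)) = true then 1 else 0) + vio f g e := by
      unfold vio vc
      split_ifs with h1 h2 h2
      · omega
      · omega
      · exact absurd (decide_eq_true (sat_lb hh _ _ _ h2)) h1
      · omega
    omega

section Game

variable {h s ρ B : ℕ} {φ : Fm}

omit h in
theorem hub_pos (hφ : φ ≠ []) (hs : 1 ≤ s) : 0 < hubs φ.length s ρ := by
  have : 0 < φ.length := List.length_pos_iff.2 hφ
  unfold hubs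
  positivity

theorem game_unique (hφ : φ ≠ []) (hb : ∀ v, (occ φ).count v ≤ B) (hB : 1 ≤ B) (hs : 1 ≤ s) :
    IsUnique (h + h) (game h s ρ B φ) := by
  have hr : 1 ≤ s * (8 * B + 2 * ρ) := by
    calc 1 = 1 * 1 := rfl
      _ ≤ s * (8 * B + 2 * ρ) := Nat.mul_le_mul hs (by omega)
  refine ⟨?_, fun e he => ?_⟩
  · have hl := length_edges (s := s) (ρ := ρ) (low_cls φ) (fun w hw => cnt_cls_le hb hB hw) hr
    have h0 := hub_pos (ρ := ρ) hφ hs
    have : 0 < (edges φ.length s ρ B (cls φ)).length := by
      rw [hl]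
      positivity
    intro h'
    have h'' : (edges φ.length s ρ B (cls φ)).map (toE h) = [] := h'
    rw [List.map_eq_nil_iff] at h''
    rw [h''] at this
    simp at this
  · obtain ⟨e', he', rfl⟩ := List.mem_map.1 he
    obtain ⟨h1, h2⟩ := edges_lt (low_cls φ) he'
    exact ⟨h1, h2, tab_ok h e'.2.2⟩

theorem game_regular (hb : ∀ v, (occ φ).count v ≤ B) (hB : 1 ≤ B) (hs : 1 ≤ s) :
    Regular (game h s ρ B φ) (s * hubs φ.length s ρ * (8 * B + 2 * ρ)) := by
  have hr : 1 ≤ s * (8 * B + 2 * ρ) := by
    calc 1 = 1 * 1 := rfl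
      _ ≤ s * (8 * B + 2 * ρ) := Nat.mul_le_mul hs (by omega)
  intro u hu
  have h1 : ((game h s ρ B φ).2.countP fun e => decide (e.1 = u)) =
      (edges φ.length s ρ B (cls φ)).countP fun e => decide (e.1 = u) := by
    unfold game
    rw [List.countP_map]
    rfl
  have h2 : ((game h s ρ B φ).2.countP fun e => decide (e.2.1 = u)) =
      (edges φ.length s ρ B (cls φ)).countP fun e => decide (e.2.1 = u) := by
    unfold game
    rw [List.countP_map]
    rfl
  rw [h1, h2, countP_S, countP_S', S_swap]
  exact ⟨deg_all (low_cls φ) (fun w hw => cnt_cls_le hb hB hw) hr hu,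
    deg_all (low_cls φ) (fun w hw => cnt_cls_le hb hB hw) hr hu⟩

theorem game_second (hb : ∀ v, (occ φ).count v ≤ B) (hB : 1 ≤ B) (hs : 1 ≤ s) (hρ : 1 ≤ ρ) :
    SecondLE (game h s ρ B φ) (18 * B * (s * hubs φ.length s ρ)) := by
  intro f g hf hg
  have h0 := bil_abs_le (low_cls φ) (fun w hw => cnt_cls_le hb hB hw) hB hρ hs f g hf hg
  have h1 : ((game h s ρ B φ).2.map fun e => f e.1 * g e.2.1).sum =
      S (bil f g) (edges φ.length s ρ B (cls φ)) := by
    unfold game
    rw [List.map_map]
    rfl
  rw [h1]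
  exact h0

theorem length_game (hb : ∀ v, (occ φ).count v ≤ B) (hB : 1 ≤ B) (hs : 1 ≤ s) :
    (game h s ρ B φ).2.length = s * hubs φ.length s ρ *
      (8 * φ.length * ((1 + s * (2 * ρ + 1)) * (ρ + 4 * B))) := by
  have hr : 1 ≤ s * (8 * B + 2 * ρ) := by
    calc 1 = 1 * 1 := rfl
      _ ≤ s * (8 * B + 2 * ρ) := Nat.mul_le_mul hs (by omega)
  unfold game
  rw [List.length_map, length_edges (low_cls φ) (fun w hw => cnt_cls_le hb hB hw) hr]
  have : 4 * φ.length + hubs φ.length s ρ = 4 * φ.length * (1 + s * (2 * ρ + 1)) := by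
    unfold hubs; ring
  rw [this]
  ring

theorem game_yes (hh : 1 ≤ h) (hb : ∀ v, (occ φ).count v ≤ B) (hB : 1 ≤ B) (A : List ℕ)
    (hA : H243R3.TP.numSat φ A = φ.length) :
    ∃ f : ℕ → Fin (h + h), (game h s ρ B φ).2.length + 8 * φ.length * (s * hubs φ.length s ρ) ≤
      numSat (game h s ρ B φ) f f + s * hubs φ.length s ρ * (φ.length * (8 * ρ + 16 * B)) := by
  have hx := unsat_cls φ (fun w => decide ((occ φ).getD w 0 ∈ A)) A fun v hv => by
    rw [decide_eq_true_eq]
    have := getElem?_index hv
    rw [List.getD_eq_getElem?_getD, this]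
    rfl
  have h0 : unsat φ.length (cls φ) (fun w => decide ((occ φ).getD w 0 ∈ A)) = 0 := by omega
  obtain ⟨f, hf⟩ := viol_le (s := s) (ρ := ρ) (low_cls φ) (fun w hw => cnt_cls_le hb hB hw)
    (x := fun w => decide ((occ φ).getD w 0 ∈ A)) (fun j hj => by
      by_contra hc
      unfold unsat at h0
      rw [sum_eq_zero_iff] at h0
      have := h0 j (mem_range.2 hj)
      rw [if_neg hc] at this
      exact one_ne_zero this)
  refine ⟨fun u => lb hh (f u), ?_⟩
  have h1 := numSat_ge (edges φ.length s ρ B (cls φ)) (4 * φ.length + hubs φ.length s ρ) hh f f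
  unfold game
  rw [List.length_map]
  omega

theorem game_no (hφ : φ ≠ []) (hb : ∀ v, (occ φ).count v ≤ B) (hB : 1 ≤ B) (hs : 1 ≤ s)
    (hρ : 1 ≤ ρ) {K u : ℕ} (hK : ∀ A, φ.length ≤ K * (φ.length - H243R3.TP.numSat φ A))
    (hu : ∀ t : ℕ, φ.length ≤ K * t → u ≤ t) (f g : ℕ → Fin (h + h)) :
    numSat (game h s ρ B φ) f g + s * hubs φ.length s ρ * (φ.length * (8 * ρ + 16 * B) + 4 * u) ≤
      (game h s ρ B φ).2.length + 8 * φ.length * (s * hubs φ.length s ρ) := by
  have h0 := numSat_le (edges φ.length s ρ B (cls φ)) (4 * φ.length + hubs φ.length s ρ) h f g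
  have h2 := viol_ge (s := s) (ρ := ρ) (u := u) (low_cls φ)
    (fun w hw => cnt_cls_le hb hB hw) hρ hs (List.length_pos_iff.2 hφ) (fun x => by
      have hx := unsat_cls φ x ((occ φ).filter fun v => x (index (occ φ) v)) fun v hv => by
        rw [List.mem_filter]
        exact ⟨fun h => h.2, fun h => ⟨hv, h⟩⟩
      refine hu _ ?_
      have h3 := hK ((occ φ).filter fun v => x (index (occ φ) v))
      have h4 : φ.length - H243R3.TP.numSat φ ((occ φ).filter fun v => x (index (occ φ) v)) =
        unsat φ.length (cls φ) x := by omega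
      rwa [h4] at h3)
    (fun u => bl (f u)) (fun u => bl (g u))
  unfold game
  rw [List.length_map]
  omega

end Game

end Pool.Agent.K6.H49.UGX
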