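import Pool.Agent.K6.H49.UGX.Alg
import Pool.Agent.K6.H49.UGX.Red

/-!
# The algorithm runs in polynomial time
-/

set_option autoImplicit false

namespace Pool.Agent.K6.H49.UGX

open Pool.Agent.NPC

/-! ### Sizes -/

theorem pass_bd (n : ℕ) (l : List SE) {y : List (ℕ × ℕ)} {M : ℕ}
    (h : ∀ z ∈ y, z.1 ≤ M ∧ z.2 ≤ M) :
    (pass n l y).length = n ∧ ∀ z ∈ pass n l y, z.1 ≤ l.length * M ∧ z.2 ≤ l.length * M := by
  have hd : ∀ u, (y.getD u (0, 0)).1 ≤ M ∧ (y.getD u (0, 0)).2 ≤ M := by
    intro u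
    by_cases hu : u < y.length
    · rw [List.getD_eq_getElem _ _ hu]
      exact h _ (List.getElem_mem hu)
    · rw [List.getD_eq_default _ _ (by omega)]
      exact ⟨Nat.zero_le _, Nat.zero_le _⟩
  have hs : ∀ (u : ℕ) (F : SE → ℕ), (∀ e, F e ≤ M) →
      ((l.filter fun e => decide (e.1 = u)).map F).sum ≤ l.length * M := by
    intro u F hF
    have h1 : ((l.filter fun e => decide (e.1 = u)).map F).sum ≤
        ((l.filter fun e => decide (e.1 = u)).map F).length * M := by
      have := List.sum_le_card_nsmul ((l.filter fun e => decide (e.1 = u)).map F) M (by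
        intro x hx
        obtain ⟨e, _, rfl⟩ := List.mem_map.1 hx
        exact hF e)
      simpa using this
    refine h1.trans (Nat.mul_le_mul_right _ ?_)
    rw [List.length_map]
    exact List.length_filter_le _ _
  refine ⟨by simp [pass], fun z hz => ?_⟩
  unfold pass at hz
  obtain ⟨u, _, rfl⟩ := List.mem_map.1 hz
  refine ⟨hs u _ fun e => ?_, hs u _ fun e => ?_⟩
  · split_ifs
    · exact (hd _).2
    · exact (hd _).1
  · split_ifs
    · exact (hd _).1
    · exact (hd _).2

theorem iter_bd (n : ℕ) (l : List SE) (v k : ℕ) :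
    ((dbl n l)^[k] (unitL n v)).length = n ∧
      ∀ z ∈ (dbl n l)^[k] (unitL n v), z.1 ≤ l.length ^ (2 * k) ∧ z.2 ≤ l.length ^ (2 * k) := by
  induction k with
  | zero =>
    refine ⟨by simp [unitL], fun z hz => ?_⟩
    simp only [Function.iterate_zero, id_eq, unitL] at hz
    obtain ⟨u, _, rfl⟩ := List.mem_map.1 hz
    split_ifs <;> simp
  | succ k ih =>
    rw [Function.iterate_succ_apply']
    obtain ⟨_, h2⟩ := ih
    generalize (dbl n l)^[k] (unitL n v) = y at h2
    obtain ⟨_, h4⟩ := pass_bd n l h2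
    obtain ⟨h5, h6⟩ := pass_bd n (sw l) h4
    refine ⟨h5, fun z hz => ?_⟩
    have h7 := h6 z hz
    have h8 : (sw l).length * (l.length * l.length ^ (2 * k)) = l.length ^ (2 * (k + 1)) := by
      rw [sw, List.length_map]
      ring
    rwa [h8] at h7

theorem size_pow_le (L m : ℕ) : (L ^ m).size ≤ L * m + 1 := by
  rw [Nat.size_le]
  calc L ^ m ≤ (2 ^ L) ^ m := Nat.pow_le_pow_left Nat.lt_two_pow_self.le _
    _ = 2 ^ (L * m) := by rw [pow_mul]
    _ < 2 ^ (L * m + 1) := Nat.pow_lt_pow_right (by omega) (by omega)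

theorem iter_sz (n : ℕ) (l : List SE) (v k : ℕ) :
    sz ((dbl n l)^[k] (unitL n v)) ≤ n * (2 * (4 * (l.length * (2 * k) + 1) + 1) + 2) + 1 := by
  obtain ⟨h1, h2⟩ := iter_bd n l v k
  generalize (dbl n l)^[k] (unitL n v) = y at h1 h2
  have h3 := sz_le_length_mul y (2 * (4 * (l.length * (2 * k) + 1) + 1) + 1) fun z hz => by
    obtain ⟨a1, a2⟩ := h2 z hz
    have b := size_pow_le l.length (2 * k)
    have c1 := sz_nat_le z.1
    have c2 := sz_nat_le z.2
    have d1 := Nat.size_le_size a1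
    have d2 := Nat.size_le_size a2
    have e1 : sz z = sz z.1 + sz z.2 + 1 := sz_pair z.1 z.2
    omega
  rw [h1] at h3
  calc sz y ≤ _ := h3
    _ ≤ _ := by ring_nf; omega

theorem rdL_sz (n : ℕ) (l : List SE) {s : List Bool × List Bool} (h1 : s.1.length ≤ n)
    (h2 : s.2.length ≤ n) (k : ℕ) : sz ((rdL n l)^[k] s) ≤ 2 * (4 * n + 1) + 1 := by
  have h : ((rdL n l)^[k] s).1.length ≤ n ∧ ((rdL n l)^[k] s).2.length ≤ n := by
    cases k with
    | zero => exact ⟨h1, h2⟩
    | succ k =>
      rw [Function.iterate_succ_apply']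
      simp [rdL, brL_length]
  generalize (rdL n l)^[k] s = t at h
  have e1 : sz t = sz t.1 + sz t.2 + 1 := sz_pair t.1 t.2
  have c1 := sz_listBool_le t.1
  have c2 := sz_listBool_le t.2
  omega

/-! ### Polynomial time -/

section
variable {α β : Type} [TEnc α] [TEnc β]

theorem iterU {n : α → ℕ} {s : α → β} {F : α → β → β} (hn : UPoly n) (hs : Poly s)
    (hF : Poly (fun p : α × β => F p.1 p.2)) (q : Polynomial ℕ)
    (hq : ∀ a, ∀ k ≤ n a, sz ((F a)^[k] (s a)) ≤ q.eval (sz a)) :
    Poly (fun a => (F a)^[n a] (s a)) := by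
  refine (Poly.iterLen (l := fun a => List.replicate (n a) ()) ?_ hs hF q ?_).congr fun a => by
    simp
  · have h : Poly (fun a => (List.range (n a)).map fun _ => ()) :=
      NPC.Poly.map (F := fun _ _ => ()) hn.range (NPC.Poly.const ())
    exact h.congr fun a => by simp
  · intro a k hk
    exact hq a k (by simpa using hk)

theorem poly_sw {l : α → List SE} (hl : Poly l) : Poly (fun a => sw (l a)) := by
  unfold sw
  fun_prop

theorem poly_pass {n : α → ℕ} {l : α → List SE} {y : α → List (ℕ × ℕ)} (hn : UPoly n)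
    (hl : Poly l) (hy : Poly y) : Poly (fun a => pass (n a) (l a) (y a)) := by
  unfold pass
  refine NPC.Poly.map (F := fun a u =>
    ((((l a).filter fun e => decide (e.1 = u)).map fun e =>
        if e.2.2 = true then ((y a).getD e.2.1 (0, 0)).2 else ((y a).getD e.2.1 (0, 0)).1).sum,
      (((l a).filter fun e => decide (e.1 = u)).map fun e =>
        if e.2.2 = true then ((y a).getD e.2.1 (0, 0)).1 else ((y a).getD e.2.1 (0, 0)).2).sum))
    hn.range ?_
  have hf : Poly (fun p : α × ℕ => (l p.1).filter fun e => decide (e.1 = p.2)) := by fun_prop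
  refine Poly.pair (Poly.sum ?_) (Poly.sum ?_)
  · refine NPC.Poly.map (F := fun (p : α × ℕ) (e : SE) =>
      if e.2.2 = true then ((y p.1).getD e.2.1 (0, 0)).2 else ((y p.1).getD e.2.1 (0, 0)).1) hf ?_
    refine Poly.ite (by fun_prop) ?_ ?_ <;> fun_prop
  · refine NPC.Poly.map (F := fun (p : α × ℕ) (e : SE) =>
      if e.2.2 = true then ((y p.1).getD e.2.1 (0, 0)).1 else ((y p.1).getD e.2.1 (0, 0)).2) hf ?_
    refine Poly.ite (by fun_prop) ?_ ?_ <;> fun_prop

theorem poly_dbl {n : α → ℕ} {l : α → List SE} {y : α → List (ℕ × ℕ)} (hn : UPoly n)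
    (hl : Poly l) (hy : Poly y) : Poly (fun a => dbl (n a) (l a) (y a)) := by
  unfold dbl
  exact poly_pass hn (poly_sw hl) (poly_pass hn hl hy)

theorem poly_unitL {n v : α → ℕ} (hn : UPoly n) (hv : Poly v) :
    Poly (fun a => unitL (n a) (v a)) := by
  unfold unitL
  refine NPC.Poly.map (F := fun a u => if u = v a then ((1, 0) : ℕ × ℕ) else (0, 0)) hn.range ?_
  refine Poly.ite ?_ (NPC.Poly.const _) (NPC.Poly.const _)
  fun_prop

theorem poly_vb {f g : α → List Bool} {e : α → SE} (hf : Poly f) (hg : Poly g) (he : Poly e) :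
    Poly (fun a => vb (f a) (g a) (e a)) := by
  unfold vb
  fun_prop

attribute [local fun_prop] poly_vb

theorem poly_brL {n : α → ℕ} {l : α → List SE} {f g : α → List Bool} (hn : UPoly n)
    (hl : Poly l) (hf : Poly f) (hg : Poly g) : Poly (fun a => brL (n a) (l a) (f a) (g a)) := by
  unfold brL
  refine NPC.Poly.map (F := fun a u => (f a).getD u false ^^
    decide (((l a).filter fun e => decide (e.1 = u) && !vb (f a) (g a) e).length <
      ((l a).filter fun e => decide (e.1 = u) && vb (f a) (g a) e).length)) hn.range ?_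
  have h1 : Poly (fun p : α × ℕ =>
      (l p.1).filter fun e => decide (e.1 = p.2) && !vb (f p.1) (g p.1) e) := by fun_prop
  have h2 : Poly (fun p : α × ℕ =>
      (l p.1).filter fun e => decide (e.1 = p.2) && vb (f p.1) (g p.1) e) := by fun_prop
  exact Poly.xor (by fun_prop) (Poly.decide_lt (Poly.length h1) (Poly.length h2))

theorem poly_rdL {n : α → ℕ} {l : α → List SE} {s : α → List Bool × List Bool} (hn : UPoly n)
    (hl : Poly l) (hs : Poly s) : Poly (fun a => rdL (n a) (l a) (s a)) := by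
  unfold rdL
  exact Poly.pair (poly_brL hn hl (Poly.fst hs) (Poly.snd hs))
    (poly_brL hn (poly_sw hl) (Poly.snd hs) (poly_brL hn hl (Poly.fst hs) (Poly.snd hs)))

end

/-- The data: a bound for the number of the vertices (cut off at the number of the edges), the
edges. -/
abbrev Dt : Type := ℕ × List SE

def nn (a : Dt) : ℕ := min a.1 a.2.length

theorem uPoly_nn : UPoly nn := by
  refine UPoly.of_le (n := fun a : Dt => a.2.length) ?_ (UPoly.length (Poly.snd Poly.id))
    fun a => Nat.min_le_right _ _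
  unfold nn
  fun_prop

theorem nn_le (a : Dt) : nn a ≤ a.2.length := Nat.min_le_right _ _

theorem poly_walk : Poly (fun p : Dt × ℕ => walk (nn p.1) p.1.2 p.2) := by
  unfold walk
  refine iterU (n := fun p : Dt × ℕ => 100 * nn p.1)
    (s := fun p : Dt × ℕ => unitL (nn p.1) p.2)
    (F := fun (p : Dt × ℕ) (y : List (ℕ × ℕ)) => dbl (nn p.1) p.1.2 y)
    (UPoly.mul (UPoly.const 100) (uPoly_nn.comp (Poly.fst Poly.id)))
    (poly_unitL (uPoly_nn.comp (Poly.fst Poly.id)) (Poly.snd Poly.id))
    (poly_dbl (uPoly_nn.comp (Poly.fst (Poly.fst Poly.id))) (by fun_prop) (Poly.snd Poly.id))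
    (Polynomial.C 1600 * Polynomial.X ^ 3 + Polynomial.C 12 * Polynomial.X + Polynomial.C 1) ?_
  intro p k hk
  refine (iter_sz _ _ _ _).trans ?_
  have h1 : p.1.2.length ≤ sz p := by
    have h2 := length_lt_sz p.1.2
    have h3 : sz p.1 = sz p.1.1 + sz p.1.2 + 1 := sz_pair p.1.1 p.1.2
    have h4 : sz p = sz p.1 + sz p.2 + 1 := sz_pair p.1 p.2
    omega
  have h5 := nn_le p.1
  simp only [Polynomial.eval_add, Polynomial.eval_mul, Polynomial.eval_C, Polynomial.eval_pow,
    Polynomial.eval_X]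
  generalize sz p = x at h1 ⊢
  generalize nn p.1 = n at h5 hk ⊢
  generalize p.1.2.length = L at h1 h5 ⊢
  have hn : n ≤ x := h5.trans h1
  have hk' : k ≤ 100 * x := hk.trans (Nat.mul_le_mul_left _ hn)
  have hLk : L * (2 * k) ≤ x * (2 * (100 * x)) :=
    Nat.mul_le_mul h1 (Nat.mul_le_mul_left _ hk')
  calc n * (2 * (4 * (L * (2 * k) + 1) + 1) + 2) + 1
      ≤ x * (2 * (4 * (x * (2 * (100 * x)) + 1) + 1) + 2) + 1 := by gcongr
    _ = 1600 * x ^ 3 + 12 * x + 1 := by ring

theorem poly_startL : Poly (fun p : Dt × ℕ => startL (nn p.1) p.1.2 p.2) := by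
  unfold startL
  refine Poly.pair ?_ ?_
  · exact NPC.Poly.map (F := fun (_ : Dt × ℕ) (_ : ℕ) => false)
      (uPoly_nn.comp (Poly.fst Poly.id)).range (NPC.Poly.const false)
  · refine NPC.Poly.map (F := fun (_ : Dt × ℕ) (z : ℕ × ℕ) => decide (z.1 < z.2)) poly_walk ?_
    fun_prop

theorem startL_le (n : ℕ) (l : List SE) (v : ℕ) :
    (startL n l v).1.length ≤ n ∧ (startL n l v).2.length ≤ n := by
  unfold startL walk
  refine ⟨by simp, ?_⟩
  rw [List.length_map, (iter_bd n l v (100 * n)).1]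

theorem poly_cand : Poly (fun p : Dt × ℕ => cand (nn p.1) p.1.2 p.2) := by
  unfold cand
  refine iterU (n := fun p : Dt × ℕ => p.1.2.length)
    (s := fun p : Dt × ℕ => startL (nn p.1) p.1.2 p.2)
    (F := fun (p : Dt × ℕ) (s : List Bool × List Bool) => rdL (nn p.1) p.1.2 s)
    (UPoly.length (by fun_prop)) poly_startL
    (poly_rdL (uPoly_nn.comp (Poly.fst (Poly.fst Poly.id))) (by fun_prop) (Poly.snd Poly.id))
    (Polynomial.C 8 * Polynomial.X + Polynomial.C 3) ?_
  intro p k _
  obtain ⟨h1, h2⟩ := startL_le (nn p.1) p.1.2 p.2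
  refine (rdL_sz _ _ h1 h2 k).trans ?_
  have h1 : p.1.2.length ≤ sz p := by
    have h2 := length_lt_sz p.1.2
    have h3 : sz p.1 = sz p.1.1 + sz p.1.2 + 1 := sz_pair p.1.1 p.1.2
    have h4 : sz p = sz p.1 + sz p.2 + 1 := sz_pair p.1 p.2
    omega
  have h5 := nn_le p.1
  simp only [Polynomial.eval_add, Polynomial.eval_mul, Polynomial.eval_C, Polynomial.eval_X]
  omega

theorem poly_nvL {α : Type} [TEnc α] {l : α → List SE} {c : α → List Bool × List Bool}
    (hl : Poly l) (hc : Poly c) : Poly (fun a => nvL (l a) (c a)) := by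
  unfold nvL
  refine Poly.length (Poly.filter (p := fun a e => vb (c a).1 (c a).2 e) hl ?_)
  exact poly_vb (by fun_prop) (by fun_prop) (Poly.snd Poly.id)

theorem poly_best {α : Type} [TEnc α] {l : α → List SE} {cs : α → List (List Bool × List Bool)}
    (hl : Poly l) (hcs : Poly cs) : Poly (fun a => best (l a) (cs a)) := by
  unfold best
  refine Poly.optGetD (Poly.head? (Poly.filter (p := fun a c =>
    (cs a).all fun c' => decide (nvL (l a) c ≤ nvL (l a) c')) hcs ?_)) (NPC.Poly.const _)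
  refine Poly.all (p := fun (q : α × (List Bool × List Bool)) c' =>
    decide (nvL (l q.1) q.2 ≤ nvL (l q.1) c')) (hcs.comp (Poly.fst Poly.id)) ?_
  exact Poly.decide_le (poly_nvL (hl.comp (Poly.fst (Poly.fst Poly.id)))
    (Poly.snd (Poly.fst Poly.id))) (poly_nvL (hl.comp (Poly.fst (Poly.fst Poly.id)))
    (Poly.snd Poly.id))

theorem poly_algS : Poly (fun a : Dt => algS (nn a) a.2) := by
  unfold algS
  refine poly_best (Poly.snd Poly.id) ?_
  exact NPC.Poly.map (F := fun (a : Dt) (v : ℕ) => cand (nn a) a.2 v) uPoly_nn.range poly_cand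

/-! ### Games -/

/-- The signed edges of a game with two labels. -/
def toS (G : Game) : List SE := G.2.map fun e => (e.1, e.2.1, decide (e.2.2 = [1, 0]))

/-- The algorithm. -/
def alg (G : Game) : List Bool × List Bool := algS (nn (G.1, toS G)) (toS G)

theorem poly_alg : Poly alg := by
  have h : Poly (fun G : Game => ((G.1, toS G) : Dt)) := by
    refine Poly.pair (Poly.fst Poly.id) ?_
    unfold toS
    refine NPC.Poly.map (F := fun (_ : Game) (e : Edge) =>
      ((e.1, e.2.1, decide (e.2.2 = [1, 0])) : SE)) (Poly.snd Poly.id) ?_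
    refine Poly.pair (by fun_prop) (Poly.pair (by fun_prop) ?_)
    exact Poly.dec_eq (by fun_prop) (NPC.Poly.const _)
  exact poly_algS.comp h

end Pool.Agent.K6.H49.UGX
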