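import Pool.Agent.K6.H49.UGX.Red

/-!
# The reduction is computable in polynomial time
-/

set_option autoImplicit false

namespace Pool.Agent.K6.H49.UGX

open Pool.Agent.NPC
open Pool.Agent.H243R3.TP (Clause occ)

section
variable {α : Type} [TEnc α]

theorem poly_occ {φ : α → Fm} (hφ : Poly φ) : Poly (fun a => occ (φ a)) := by
  have h : Poly (fun φ : Fm => occ φ) := by
    refine (NPC.Poly.flatMap (F := fun (_ : Fm) (c : Clause) => [c.1.1, c.2.1.1, c.2.2.1])
      Poly.id (by fun_prop)).congr fun φ => ?_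
    unfold occ H243R3.TP.lits
    rfl
  exact h.comp hφ

attribute [local fun_prop] poly_occ Poly.index

theorem poly_cls {φ : α → Fm} {j : α → ℕ} (hφ : Poly φ) (hj : Poly j) :
    Poly (fun a => cls (φ a) (j a)) := by
  unfold cls
  fun_prop

attribute [local fun_prop] poly_cls

theorem poly_tg {t h : α → ℕ} {c : α → Cl} (ht : Poly t) (hc : Poly c) (hh : Poly h) :
    Poly (fun a => tg (t a) (c a) (h a)) := by
  unfold tg
  fun_prop

theorem poly_gad {t : α → ℕ} {c : α → Cl} (ht : Poly t) (hc : Poly c) :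
    Poly (fun a => gad (t a) (c a)) := by
  unfold gad
  fun_prop

theorem poly_nu {w h : α → ℕ} (hw : Poly w) (hh : Poly h) : Poly (fun a => nu (w a) (h a)) := by
  unfold nu
  fun_prop

theorem poly_du {w : α → ℕ} (hw : Poly w) : Poly (fun a => du (w a)) := by
  unfold du
  fun_prop

theorem uPoly_len : UPoly (fun φ : Fm => φ.length) := UPoly.length Poly.id

theorem uPoly_hubs (s ρ : ℕ) : UPoly (fun φ : Fm => hubs φ.length s ρ) := by
  unfold hubs
  exact UPoly.mul (UPoly.mul (UPoly.mul (UPoly.const 4) uPoly_len) (UPoly.const s))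
    (UPoly.const (2 * ρ + 1))

theorem poly_e1 (s ρ r : ℕ) : Poly (fun φ : Fm => e1 φ.length (hubs φ.length s ρ) r) := by
  unfold e1
  have h1 : Poly (fun p : (Fm × ℕ) × ℕ => (List.range r).flatMap fun _ =>
      [((4 * p.1.1.length + p.1.2, 4 * p.1.1.length + p.2, false) : SE)]) :=
    NPC.Poly.flatMap (F := fun (p : (Fm × ℕ) × ℕ) (_ : ℕ) =>
      [((4 * p.1.1.length + p.1.2, 4 * p.1.1.length + p.2, false) : SE)])
      (NPC.Poly.const _) (by fun_prop)
  have h2 : Poly (fun p : Fm × ℕ => (List.range (hubs p.1.length s ρ)).flatMap fun i' =>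
      (List.range r).flatMap fun _ =>
      [((4 * p.1.length + p.2, 4 * p.1.length + i', false) : SE)]) :=
    NPC.Poly.flatMap (F := fun (p : Fm × ℕ) (i' : ℕ) => (List.range r).flatMap fun _ =>
      [((4 * p.1.length + p.2, 4 * p.1.length + i', false) : SE)])
      (((uPoly_hubs s ρ).comp (Poly.fst Poly.id)).range) h1
  exact NPC.Poly.flatMap (F := fun (φ : Fm) (i : ℕ) =>
    (List.range (hubs φ.length s ρ)).flatMap fun i' => (List.range r).flatMap fun _ =>
      [((4 * φ.length + i, 4 * φ.length + i', false) : SE)]) (uPoly_hubs s ρ).range h2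

theorem poly_e2 (s ρ k : ℕ) : Poly (fun φ : Fm => e2 φ.length (hubs φ.length s ρ) k) := by
  unfold e2
  have h1 : Poly (fun p : (Fm × ℕ) × ℕ => (List.range k).flatMap fun _ =>
      nu p.1.2 (4 * p.1.1.length + p.2)) :=
    NPC.Poly.flatMap (F := fun (p : (Fm × ℕ) × ℕ) (_ : ℕ) => nu p.1.2 (4 * p.1.1.length + p.2))
      (NPC.Poly.const _) (poly_nu (by fun_prop) (by fun_prop))
  have h2 : Poly (fun p : Fm × ℕ => (List.range (hubs p.1.length s ρ)).flatMap fun i =>
      (List.range k).flatMap fun _ => nu p.2 (4 * p.1.length + i)) :=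
    NPC.Poly.flatMap (F := fun (p : Fm × ℕ) (i : ℕ) => (List.range k).flatMap fun _ =>
      nu p.2 (4 * p.1.length + i)) (((uPoly_hubs s ρ).comp (Poly.fst Poly.id)).range) h1
  exact NPC.Poly.flatMap (F := fun (φ : Fm) (w : ℕ) =>
    (List.range (hubs φ.length s ρ)).flatMap fun i => (List.range k).flatMap fun _ =>
      nu w (4 * φ.length + i)) (UPoly.mul (UPoly.const 4) uPoly_len).range h2

theorem poly_e3 (s ρ k : ℕ) :
    Poly (fun φ : Fm => e3 φ.length (hubs φ.length s ρ) k (cls φ)) := by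
  unfold e3
  have h1 : Poly (fun p : (Fm × ℕ) × ℕ => (List.range k).flatMap fun _ =>
      tg (3 * p.1.1.length + p.1.2) (cls p.1.1 p.1.2) (4 * p.1.1.length + p.2)) :=
    NPC.Poly.flatMap (F := fun (p : (Fm × ℕ) × ℕ) (_ : ℕ) =>
      tg (3 * p.1.1.length + p.1.2) (cls p.1.1 p.1.2) (4 * p.1.1.length + p.2))
      (NPC.Poly.const _) (poly_tg (by fun_prop) (by fun_prop) (by fun_prop))
  have h2 : Poly (fun p : Fm × ℕ => (List.range (hubs p.1.length s ρ)).flatMap fun i =>
      (List.range k).flatMap fun _ =>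
        tg (3 * p.1.length + p.2) (cls p.1 p.2) (4 * p.1.length + i)) :=
    NPC.Poly.flatMap (F := fun (p : Fm × ℕ) (i : ℕ) => (List.range k).flatMap fun _ =>
      tg (3 * p.1.length + p.2) (cls p.1 p.2) (4 * p.1.length + i))
      (((uPoly_hubs s ρ).comp (Poly.fst Poly.id)).range) h1
  exact NPC.Poly.flatMap (F := fun (φ : Fm) (j : ℕ) =>
    (List.range (hubs φ.length s ρ)).flatMap fun i => (List.range k).flatMap fun _ =>
      tg (3 * φ.length + j) (cls φ j) (4 * φ.length + i)) uPoly_len.range h2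

theorem poly_e4 (s ρ k : ℕ) :
    Poly (fun φ : Fm => e4 φ.length (k * hubs φ.length s ρ) (cls φ)) := by
  unfold e4
  have h1 : Poly (fun p : Fm × ℕ => (List.range (k * hubs p.1.length s ρ)).flatMap fun _ =>
      gad (3 * p.1.length + p.2) (cls p.1 p.2)) :=
    NPC.Poly.flatMap (F := fun (p : Fm × ℕ) (_ : ℕ) =>
      gad (3 * p.1.length + p.2) (cls p.1 p.2))
      ((UPoly.mul (UPoly.const k) (uPoly_hubs s ρ)).comp (Poly.fst Poly.id)).range
      (poly_gad (by fun_prop) (by fun_prop))
  exact NPC.Poly.flatMap (F := fun (φ : Fm) (j : ℕ) =>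
    (List.range (k * hubs φ.length s ρ)).flatMap fun _ =>
      gad (3 * φ.length + j) (cls φ j)) uPoly_len.range h1

theorem poly_occs {φ : α → Fm} (hφ : Poly φ) :
    Poly (fun a => occs (φ a).length (cls (φ a))) := by
  have h : Poly (fun φ : Fm => occs φ.length (cls φ)) := by
    unfold occs
    exact NPC.Poly.flatMap (F := fun (φ : Fm) (j : ℕ) =>
      [(cls φ j).1.1, (cls φ j).2.1.1, (cls φ j).2.2.1, 3 * φ.length + j]) uPoly_len.range
      (by fun_prop)
  exact h.comp hφ

attribute [local fun_prop] poly_occs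

theorem poly_cnt {φ : α → Fm} {w : α → ℕ} (hφ : Poly φ) (hw : Poly w) :
    Poly (fun a => cnt (φ a).length (cls (φ a)) (w a)) := by
  unfold cnt
  fun_prop

theorem poly_e5 (s ρ B k : ℕ) :
    Poly (fun φ : Fm => e5 φ.length B (4 * (k * hubs φ.length s ρ)) (cls φ)) := by
  unfold e5
  have h1 : Poly (fun p : (Fm × ℕ) × ℕ =>
      (List.range (4 * (k * hubs p.1.1.length s ρ))).flatMap fun _ => du p.1.2) :=
    NPC.Poly.flatMap (F := fun (p : (Fm × ℕ) × ℕ) (_ : ℕ) => du p.1.2)
      ((UPoly.mul (UPoly.const 4) (UPoly.mul (UPoly.const k) (uPoly_hubs s ρ))).comp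
        (Poly.fst (Poly.fst Poly.id))).range
      (poly_du (by fun_prop))
  have h2 : Poly (fun p : Fm × ℕ =>
      (List.range (B - cnt p.1.length (cls p.1) p.2)).flatMap fun _ =>
      (List.range (4 * (k * hubs p.1.length s ρ))).flatMap fun _ => du p.2) :=
    NPC.Poly.flatMap (F := fun (p : Fm × ℕ) (_ : ℕ) =>
      (List.range (4 * (k * hubs p.1.length s ρ))).flatMap fun _ => du p.2)
      (UPoly.of_le (Poly.sub (NPC.Poly.const B) (poly_cnt (Poly.fst Poly.id) (Poly.snd Poly.id)))
        (UPoly.const B) (fun p => Nat.sub_le _ _)).range h1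
  exact NPC.Poly.flatMap (F := fun (φ : Fm) (w : ℕ) =>
    (List.range (B - cnt φ.length (cls φ) w)).flatMap fun _ =>
      (List.range (4 * (k * hubs φ.length s ρ))).flatMap fun _ => du w)
    (UPoly.mul (UPoly.const 4) uPoly_len).range h2

theorem poly_edges (s ρ B : ℕ) : Poly (fun φ : Fm => edges φ.length s ρ B (cls φ)) := by
  unfold edges
  exact Poly.append (poly_e1 s ρ _) (Poly.append (poly_e2 s ρ _) (Poly.append (poly_e3 s ρ s)
    (Poly.append (poly_e4 s ρ s) (poly_e5 s ρ B s))))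

theorem poly_toE (h : ℕ) {e : α → SE} (he : Poly e) : Poly (fun a => toE h (e a)) := by
  have ht : Poly (fun a => tab h (e a).2.2) := by
    refine (Poly.ite (p := fun a => (e a).2.2 = true) ?_
      (NPC.Poly.const (tab h true)) (NPC.Poly.const (tab h false))).congr fun a => ?_
    · fun_prop
    · by_cases hz : (e a).2.2 = true
      · rw [if_pos hz, hz]
      · rw [if_neg hz]
        rw [Bool.not_eq_true] at hz
        rw [hz]
  unfold toE
  exact Poly.pair (Poly.fst he) (Poly.pair (Poly.fst (Poly.snd he)) ht)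

theorem poly_game (h s ρ B : ℕ) : Poly (game h s ρ B) := by
  unfold game
  refine Poly.pair ?_ ?_
  · exact (UPoly.add (UPoly.mul (UPoly.const 4) uPoly_len) (uPoly_hubs s ρ)).toPoly
  · exact NPC.Poly.map (F := fun (_ : Fm) (e : SE) => toE h e) (poly_edges s ρ B)
      (poly_toE h (Poly.snd Poly.id))

end

end Pool.Agent.K6.H49.UGX
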