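import Pool.Agent.K6.H49.UGX.Deg

/-!
# The number of violated edges
-/

set_option autoImplicit false

open Finset

namespace Pool.Agent.K6.H49.UGX

variable {m s ρ B : ℕ} {cl : ℕ → Cl}

/-- The cost of an edge with the sign `z` whose ends have the labels `x` and `y`: it is violated
unless `z` says whether `x` and `y` are different. -/
def vc (x y z : Bool) : ℕ := if (x != y) = z then 0 else 1

def vio (f g : ℕ → Bool) (e : SE) : ℕ := vc (f e.1) (g e.2.1) e.2.2

/-- The cost of the edges from a clause to a right hub with the label `T`. -/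
def cA (fa fb fc ft za zb zc T : Bool) : ℕ :=
  vc fa T (!za) + vc fb T (!zb) + vc fc T (!zc) + vc ft T true

/-- The cost of the edges from a left hub with the label `T` to a clause. -/
def cB (ga gb gc gt za zb zc T : Bool) : ℕ :=
  vc T ga (!za) + vc T gb (!zb) + vc T gc (!zc) + vc T gt true

/-- The cost of the edges of a clause. -/
def cG (fa fb fc ft ga gb gc gt za zb zc : Bool) : ℕ :=
  vc fa gb (!(za ^^ zb)) + vc fb ga (!(za ^^ zb)) +
    vc fb gc (!(zb ^^ zc)) + vc fc gb (!(zb ^^ zc)) +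
    vc fa gc (!(za ^^ zc)) + vc fc ga (!(za ^^ zc)) +
    vc fa gt (!za) + vc ft ga (!za) + vc fb gt (!zb) + vc ft gb (!zb) +
    vc fc gt (!zc) + vc ft gc (!zc) +
    4 * (vc fa ga false + vc fb gb false + vc fc gc false + vc ft gt false)

theorem gadget_lb : ∀ fa fb fc ft ga gb gc gt za zb zc T : Bool,
    8 ≤ cA fa fb fc ft za zb zc T + cB ga gb gc gt za zb zc T +
      cG fa fb fc ft ga gb gc gt za zb zc ∧
    (¬ ((fa == T) = za ∨ (fb == T) = zb ∨ (fc == T) = zc) →
      12 ≤ cA fa fb fc ft za zb zc T + cB ga gb gc gt za zb zc T +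
        cG fa fb fc ft ga gb gc gt za zb zc) := by
  decide +kernel

theorem gadget_ub : ∀ xa xb xc za zb zc : Bool, (xa = za ∨ xb = zb ∨ xc = zc) → ∃ t : Bool,
    cA (!xa) (!xb) (!xc) t za zb zc false + cB (!xa) (!xb) (!xc) t za zb zc false +
      cG (!xa) (!xb) (!xc) t (!xa) (!xb) (!xc) t za zb zc ≤ 8 := by
  decide +kernel

/-- The clause is true under `x`. -/
def Tru (x : ℕ → Bool) (c : Cl) : Prop := x c.1.1 = c.1.2 ∨ x c.2.1.1 = c.2.1.2 ∨ x c.2.2.1 = c.2.2.2

instance (x : ℕ → Bool) (c : Cl) : Decidable (Tru x c) := by unfold Tru; infer_instance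

/-- The number of the false clauses. -/
def unsat (m : ℕ) (cl : ℕ → Cl) (x : ℕ → Bool) : ℕ :=
  ∑ j ∈ range m, if Tru x (cl j) then 0 else 1

theorem unsat_le (m : ℕ) (cl : ℕ → Cl) (x : ℕ → Bool) : unsat m cl x ≤ m := by
  unfold unsat
  calc _ ≤ ∑ j ∈ range m, 1 := sum_le_sum fun j _ => by split_ifs <;> omega
    _ = m := by simp

def jA (m : ℕ) (cl : ℕ → Cl) (f : ℕ → Bool) (j : ℕ) (T : Bool) : ℕ :=
  cA (f (cl j).1.1) (f (cl j).2.1.1) (f (cl j).2.2.1) (f (3 * m + j))
    (cl j).1.2 (cl j).2.1.2 (cl j).2.2.2 T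

def jB (m : ℕ) (cl : ℕ → Cl) (f : ℕ → Bool) (j : ℕ) (T : Bool) : ℕ :=
  cB (f (cl j).1.1) (f (cl j).2.1.1) (f (cl j).2.2.1) (f (3 * m + j))
    (cl j).1.2 (cl j).2.1.2 (cl j).2.2.2 T

def jG (m : ℕ) (cl : ℕ → Cl) (f g : ℕ → Bool) (j : ℕ) : ℕ :=
  cG (f (cl j).1.1) (f (cl j).2.1.1) (f (cl j).2.2.1) (f (3 * m + j))
    (g (cl j).1.1) (g (cl j).2.1.1) (g (cl j).2.2.1) (g (3 * m + j))
    (cl j).1.2 (cl j).2.1.2 (cl j).2.2.2

theorem sum_cnt (hl : Low m cl) : (∑ w ∈ range (4 * m), cnt m cl w) = 4 * m := by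
  simp only [cnt_eq']
  rw [sum_comm]
  have : ∀ j ∈ range m, (∑ w ∈ range (4 * m), mul (3 * m + j) (cl j) w) = 4 := by
    intro j hj
    rw [mem_range] at hj
    obtain ⟨g1, g2, g3⟩ := hl j hj
    simp only [mul, sum_add_distrib]
    rw [sum_ite_eq, sum_ite_eq, sum_ite_eq, sum_ite_eq]
    simp only [mem_range]
    rw [if_pos (by omega), if_pos (by omega), if_pos (by omega), if_pos (by omega)]
  rw [sum_congr rfl this, sum_const, card_range, smul_eq_mul]
  ring

theorem sum_dummy (hl : Low m cl) (hB : ∀ w < 4 * m, cnt m cl w ≤ B) :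
    (∑ w ∈ range (4 * m), (B - cnt m cl w)) + 4 * m = 4 * m * B := by
  have h : (∑ w ∈ range (4 * m), (B - cnt m cl w)) + (∑ w ∈ range (4 * m), cnt m cl w) =
      4 * m * B := by
    rw [← sum_add_distrib]
    calc _ = ∑ w ∈ range (4 * m), B := sum_congr rfl fun w hw => by
          have := hB w (mem_range.1 hw)
          omega
      _ = _ := by simp
  rwa [sum_cnt hl] at h

theorem vc_pair (x y : Bool) : vc x y false + vc x y true = 1 := by
  revert x y; decide

/-- The number of violated edges, in parts. -/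
theorem vio_eq (hl : Low m cl) (hB : ∀ w < 4 * m, cnt m cl w ≤ B) (f g : ℕ → Bool) :
    S (vio f g) (edges m s ρ B cl) + 16 * m * (s * hubs m s ρ) =
      (s * (8 * B + 2 * ρ) - 1) * (∑ i ∈ range (hubs m s ρ), ∑ i' ∈ range (hubs m s ρ),
        vc (f (4 * m + i)) (g (4 * m + i')) false) +
      8 * m * ρ * (s * hubs m s ρ) + 16 * m * B * (s * hubs m s ρ) +
      s * ((∑ i ∈ range (hubs m s ρ), ∑ j ∈ range m, jA m cl f j (g (4 * m + i))) +
        ∑ i ∈ range (hubs m s ρ), ∑ j ∈ range m, jB m cl g j (f (4 * m + i))) +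
      s * hubs m s ρ * ∑ j ∈ range m, jG m cl f g j := by
  rw [S_edges]
  have hd := sum_dummy hl hB
  generalize hN : hubs m s ρ = N
  have h1 : (∑ i ∈ range N, ∑ i' ∈ range N,
      (s * (8 * B + 2 * ρ) - 1) • vio f g (4 * m + i, 4 * m + i', false)) =
      (s * (8 * B + 2 * ρ) - 1) * (∑ i ∈ range N, ∑ i' ∈ range N,
        vc (f (4 * m + i)) (g (4 * m + i')) false) := by
    simp only [vio, smul_eq_mul, mul_sum]
  have h2 : (∑ w ∈ range (4 * m), ∑ i ∈ range N, (s * ρ) • S (vio f g) (nu w (4 * m + i))) =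
      8 * m * ρ * (s * N) := by
    have : ∀ w ∈ range (4 * m), (∑ i ∈ range N, (s * ρ) • S (vio f g) (nu w (4 * m + i))) =
        N * (s * ρ) * 2 := by
      intro w _
      have h : ∀ i ∈ range N, (s * ρ) • S (vio f g) (nu w (4 * m + i)) = (s * ρ) * 2 := by
        intro i _
        simp only [nu, S_cons, S_nil, vio, smul_eq_mul]
        have k1 := vc_pair (f w) (g (4 * m + i))
        have k2 := vc_pair (f (4 * m + i)) (g w)
        congr 1
        omega
      rw [sum_congr rfl h, sum_const, card_range, smul_eq_mul]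
      ring
    rw [sum_congr rfl this, sum_const, card_range, smul_eq_mul]
    ring
  have h3 : (∑ j ∈ range m, ∑ i ∈ range N,
      s • S (vio f g) (tg (3 * m + j) (cl j) (4 * m + i))) =
      s * ((∑ i ∈ range N, ∑ j ∈ range m, jA m cl f j (g (4 * m + i))) +
        ∑ i ∈ range N, ∑ j ∈ range m, jB m cl g j (f (4 * m + i))) := by
    rw [sum_comm, ← sum_add_distrib, mul_sum]
    refine sum_congr rfl fun i _ => ?_
    rw [← sum_add_distrib, mul_sum]
    refine sum_congr rfl fun j _ => ?_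
    simp only [tg, S_cons, S_nil, vio, smul_eq_mul, jA, jB, cA, cB]
    ring
  have h4 : (∑ j ∈ range m, (s * N) • S (vio f g) (gad (3 * m + j) (cl j))) =
      s * N * ∑ j ∈ range m, jG m cl f g j := by
    rw [mul_sum]
    refine sum_congr rfl fun j _ => ?_
    simp only [gad, S_cons, S_nil, vio, smul_eq_mul, jG, cG]
    ring
  have h5 : (∑ w ∈ range (4 * m), (B - cnt m cl w) • (4 * (s * N)) • S (vio f g) (du w)) =
      (∑ w ∈ range (4 * m), (B - cnt m cl w)) * (4 * (s * N)) := by
    rw [sum_mul]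
    refine sum_congr rfl fun w _ => ?_
    simp only [du, S_cons, S_nil, vio, smul_eq_mul]
    have k1 := vc_pair (f w) (g w)
    have : vc (f w) (g w) false + (vc (f w) (g w) true + 0) = 1 := by omega
    rw [this]
    ring
  rw [h1, h2, h3, h4, h5]
  calc _ = (s * (8 * B + 2 * ρ) - 1) * (∑ i ∈ range N, ∑ i' ∈ range N,
        vc (f (4 * m + i)) (g (4 * m + i')) false) + (8 * m * ρ * (s * N) +
        (s * ((∑ i ∈ range N, ∑ j ∈ range m, jA m cl f j (g (4 * m + i))) +
        ∑ i ∈ range N, ∑ j ∈ range m, jB m cl g j (f (4 * m + i))) +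
        (s * N * ∑ j ∈ range m, jG m cl f g j +
        (((∑ w ∈ range (4 * m), (B - cnt m cl w)) + 4 * m) * (4 * (s * N)))))) := by ring
    _ = _ := by rw [hd]; ring

/-- The clause part with the constant label `T` at the hubs. -/
theorem clause_ge (f g : ℕ → Bool) (T : Bool) :
    8 * m + 4 * unsat m cl (fun v => f v == T) ≤
      (∑ j ∈ range m, jA m cl f j T) + (∑ j ∈ range m, jB m cl g j T) +
        ∑ j ∈ range m, jG m cl f g j := by
  rw [← sum_add_distrib, ← sum_add_distrib]
  unfold unsat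
  rw [mul_sum]
  have : 8 * m = ∑ j ∈ range m, 8 := by simp [mul_comm]
  rw [this, ← sum_add_distrib]
  refine sum_le_sum fun j _ => ?_
  have h := gadget_lb (f (cl j).1.1) (f (cl j).2.1.1) (f (cl j).2.2.1) (f (3 * m + j))
    (g (cl j).1.1) (g (cl j).2.1.1) (g (cl j).2.2.1) (g (3 * m + j))
    (cl j).1.2 (cl j).2.1.2 (cl j).2.2.2 T
  unfold jA jB jG
  split_ifs with hc
  · have := h.1
    omega
  · have := h.2 hc
    omega

theorem viol_ge (hl : Low m cl) (hB : ∀ w < 4 * m, cnt m cl w ≤ B) (hρ : 1 ≤ ρ) (hs : 1 ≤ s)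
    (hm : 1 ≤ m) {u : ℕ} (hu : ∀ x, u ≤ unsat m cl x) (f g : ℕ → Bool) :
    s * hubs m s ρ * (m * (8 * ρ + 16 * B) + 4 * u) ≤
      S (vio f g) (edges m s ρ B cl) + 8 * m * (s * hubs m s ρ) := by
  have hum : u ≤ m := (hu fun _ => true).trans (unsat_le _ _ _)
  have hv := vio_eq (s := s) (ρ := ρ) hl hB f g
  have hN' : hubs m s ρ = 4 * m * s * (2 * ρ + 1) := rfl
  generalize hN : hubs m s ρ = N at hv hN' ⊢
  generalize S (vio f g) (edges m s ρ B cl) = V at hv ⊢
  have hr : 1 ≤ s * (8 * B + 2 * ρ) - 1 := by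
    have : 1 * 2 ≤ s * (8 * B + 2 * ρ) := Nat.mul_le_mul hs (by omega)
    omega
  generalize s * (8 * B + 2 * ρ) - 1 = r at hv hr
  generalize hG : (∑ j ∈ range m, jG m cl f g j) = G at hv
  -- the averaged cost
  have hc : ∀ i ∈ range N, ∀ i' ∈ range N, s * N * (8 * m + 4 * u) ≤
      N * N * r * vc (f (4 * m + i)) (g (4 * m + i')) false +
        s * N * ((∑ j ∈ range m, jA m cl f j (g (4 * m + i'))) +
          (∑ j ∈ range m, jB m cl g j (f (4 * m + i))) + G) := by
    intro i _ i' _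
    by_cases hT : f (4 * m + i) = g (4 * m + i')
    · have h := clause_ge (m := m) (cl := cl) f g (g (4 * m + i'))
      have h' := hu (fun v => f v == g (4 * m + i'))
      rw [hT, ← hG]
      calc _ ≤ s * N * ((∑ j ∈ range m, jA m cl f j (g (4 * m + i'))) +
          (∑ j ∈ range m, jB m cl g j (g (4 * m + i'))) + ∑ j ∈ range m, jG m cl f g j) :=
            Nat.mul_le_mul_left _ (by omega)
        _ ≤ _ := Nat.le_add_left _ _
    · have h1 : vc (f (4 * m + i)) (g (4 * m + i')) false = 1 := by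
        unfold vc
        rw [if_neg]
        simpa using hT
      rw [h1]
      have h2 : s * N * (8 * m + 4 * u) ≤ N * N * r * 1 := by
        have h3 : s * (8 * m + 4 * u) ≤ N * r := by
          calc s * (8 * m + 4 * u) ≤ s * (12 * m) := Nat.mul_le_mul_left _ (by omega)
            _ = 4 * m * s * 3 * 1 := by ring
            _ ≤ 4 * m * s * (2 * ρ + 1) * r :=
              Nat.mul_le_mul (Nat.mul_le_mul_left _ (by omega)) hr
            _ = N * r := by rw [hN']
        calc s * N * (8 * m + 4 * u) = N * (s * (8 * m + 4 * u)) := by ring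
          _ ≤ N * (N * r) := Nat.mul_le_mul_left _ h3
          _ = _ := by ring
      exact h2.trans (Nat.le_add_right _ _)
  have hsum := sum_le_sum fun i hi => sum_le_sum fun i' hi' => hc i hi i' hi'
  simp only [sum_const, card_range, smul_eq_mul, sum_add_distrib, ← mul_sum] at hsum
  have hNpos : 0 < N := by
    rw [hN']; positivity
  have hfin : N * N * (s * N * (8 * m + 4 * u)) ≤ N * N * (r * (∑ i ∈ range N, ∑ i' ∈ range N,
        vc (f (4 * m + i)) (g (4 * m + i')) false) +
      s * ((∑ i ∈ range N, ∑ j ∈ range m, jA m cl f j (g (4 * m + i))) +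
        ∑ i ∈ range N, ∑ j ∈ range m, jB m cl g j (f (4 * m + i))) + s * N * G) := by
    calc _ = N * (N * (s * N * (8 * m + 4 * u))) := by ring
      _ ≤ _ := hsum
      _ = _ := by ring
  have hfin' := Nat.le_of_mul_le_mul_left hfin (by positivity)
  nlinarith [hfin', hv]

theorem viol_le (hl : Low m cl) (hB : ∀ w < 4 * m, cnt m cl w ≤ B) {x : ℕ → Bool}
    (hx : ∀ j < m, Tru x (cl j)) : ∃ f : ℕ → Bool,
    S (vio f f) (edges m s ρ B cl) + 8 * m * (s * hubs m s ρ) ≤
      s * hubs m s ρ * (m * (8 * ρ + 16 * B)) := by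
  have hτ : ∀ j : ℕ, ∃ t : Bool, j < m →
      cA (!x (cl j).1.1) (!x (cl j).2.1.1) (!x (cl j).2.2.1) t
        (cl j).1.2 (cl j).2.1.2 (cl j).2.2.2 false +
      cB (!x (cl j).1.1) (!x (cl j).2.1.1) (!x (cl j).2.2.1) t
        (cl j).1.2 (cl j).2.1.2 (cl j).2.2.2 false +
      cG (!x (cl j).1.1) (!x (cl j).2.1.1) (!x (cl j).2.2.1) t
        (!x (cl j).1.1) (!x (cl j).2.1.1) (!x (cl j).2.2.1) t
        (cl j).1.2 (cl j).2.1.2 (cl j).2.2.2 ≤ 8 := by
    intro j
    by_cases hj : j < m
    · obtain ⟨t, ht⟩ := gadget_ub _ _ _ _ _ _ (hx j hj)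
      exact ⟨t, fun _ => ht⟩
    · exact ⟨false, fun h => absurd h hj⟩
  choose τ hτ using hτ
  let f : ℕ → Bool := fun w => if w < 3 * m then !x w else if w < 4 * m then τ (w - 3 * m)
    else false
  refine ⟨f, ?_⟩
  have hv := vio_eq (s := s) (ρ := ρ) hl hB f f
  have hh : ∀ i, f (4 * m + i) = false := by
    intro i
    simp only [f]
    rw [if_neg (by omega), if_neg (by omega)]
  simp only [hh] at hv
  generalize hN : hubs m s ρ = N at hv ⊢
  generalize S (vio f f) (edges m s ρ B cl) = V at hv ⊢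
  have h0 : vc false false false = 0 := rfl
  simp only [h0, sum_const_zero, mul_zero, zero_add, sum_const, card_range, smul_eq_mul] at hv
  have hj : (∑ j ∈ range m, jA m cl f j false) + (∑ j ∈ range m, jB m cl f j false) +
        ∑ j ∈ range m, jG m cl f f j ≤ 8 * m := by
    rw [← sum_add_distrib, ← sum_add_distrib]
    calc _ ≤ ∑ j ∈ range m, 8 := sum_le_sum fun j hj => by
          rw [mem_range] at hj
          obtain ⟨g1, g2, g3⟩ := hl j hj
          have k1 : f (cl j).1.1 = !x (cl j).1.1 := if_pos g1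
          have k2 : f (cl j).2.1.1 = !x (cl j).2.1.1 := if_pos g2
          have k3 : f (cl j).2.2.1 = !x (cl j).2.2.1 := if_pos g3
          have k4 : f (3 * m + j) = τ j := by
            simp only [f]
            rw [if_neg (by omega), if_pos (by omega)]
            congr 1
            omega
          unfold jA jB jG
          rw [k1, k2, k3, k4]
          exact hτ j hj
      _ = 8 * m := by simp [mul_comm]
  have hj' := Nat.mul_le_mul_left (s * N) hj
  nlinarith [hj', hv]

end Pool.Agent.K6.H49.UGX
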