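import Pool.Agent.K6.H49.UGX.Br

/-!
# The algorithm
-/

set_option autoImplicit false

open Finset

namespace Pool.Agent.K6.H49.UGX

/-- Counting walks in the label-extended graph: the pair at `u` counts the walks which arrive at
the two labels of `u`. -/
def pass (n : ℕ) (l : List SE) (y : List (ℕ × ℕ)) : List (ℕ × ℕ) :=
  (List.range n).map fun u =>
    (((l.filter fun e => decide (e.1 = u)).map fun e =>
        if e.2.2 = true then (y.getD e.2.1 (0, 0)).2 else (y.getD e.2.1 (0, 0)).1).sum,
      ((l.filter fun e => decide (e.1 = u)).map fun e =>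
        if e.2.2 = true then (y.getD e.2.1 (0, 0)).1 else (y.getD e.2.1 (0, 0)).2).sum)

def dbl (n : ℕ) (l : List SE) (y : List (ℕ × ℕ)) : List (ℕ × ℕ) := pass n (sw l) (pass n l y)

def unitL (n v : ℕ) : List (ℕ × ℕ) :=
  (List.range n).map fun u => if u = v then (1, 0) else (0, 0)

def walk (n : ℕ) (l : List SE) (v : ℕ) : List (ℕ × ℕ) := (dbl n l)^[100 * n] (unitL n v)

/-- Whether an edge is violated. -/
def vb (f g : List Bool) (e : SE) : Bool := ((f.getD e.1 false) ^^ (g.getD e.2.1 false)) ^^ e.2.2

/-- The best response, on lists. -/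
def brL (n : ℕ) (l : List SE) (f g : List Bool) : List Bool :=
  (List.range n).map fun u => f.getD u false ^^
    decide ((l.filter fun e => decide (e.1 = u) && !vb f g e).length <
      (l.filter fun e => decide (e.1 = u) && vb f g e).length)

def rdL (n : ℕ) (l : List SE) (s : List Bool × List Bool) : List Bool × List Bool :=
  (brL n l s.1 s.2, brL n (sw l) s.2 (brL n l s.1 s.2))

def startL (n : ℕ) (l : List SE) (v : ℕ) : List Bool × List Bool :=
  ((List.range n).map fun _ => false, (walk n l v).map fun z => decide (z.1 < z.2))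

def cand (n : ℕ) (l : List SE) (v : ℕ) : List Bool × List Bool :=
  (rdL n l)^[l.length] (startL n l v)

def nvL (l : List SE) (c : List Bool × List Bool) : ℕ := (l.filter (vb c.1 c.2)).length

def best (l : List SE) (cs : List (List Bool × List Bool)) : List Bool × List Bool :=
  ((cs.filter fun c => cs.all fun c' => decide (nvL l c ≤ nvL l c')).head?).getD ([], [])

/-- The algorithm, on signed edges. -/
def algS (n : ℕ) (l : List SE) : List Bool × List Bool := best l ((List.range n).map (cand n l))

/-! ### Correctness -/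

def vl (y : List (ℕ × ℕ)) (u : ℕ) : ℝ := ((y.getD u (0, 0)).1 : ℝ) - ((y.getD u (0, 0)).2 : ℝ)

def toF (L : List Bool) (u : ℕ) : Bool := L.getD u false

theorem getD_range_map {α : Type} (n : ℕ) (F : ℕ → α) (dd : α) (u : ℕ) :
    ((List.range n).map F).getD u dd = if u < n then F u else dd := by
  split_ifs with h
  · rw [List.getD_eq_getElem?_getD, List.getElem?_map, List.getElem?_range h]
    rfl
  · rw [List.getD_eq_default]
    simpa using h

theorem filter_sum (l : List SE) (u : ℕ) (F : SE → ℕ) :
    (((l.filter fun e => decide (e.1 = u)).map F).sum : ℕ) =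
      S (fun e => if e.1 = u then F e else 0) l := by
  induction l with
  | nil => rfl
  | cons e l ih =>
    rw [S_cons, ← ih, List.filter_cons]
    by_cases h : e.1 = u
    · rw [if_pos (by simpa using h), if_pos h, List.map_cons, List.sum_cons]
    · rw [if_neg (by simpa using h), if_neg h, zero_add]

theorem vl_pass (n : ℕ) (l : List SE) (y : List (ℕ × ℕ)) {u : ℕ} (hu : u < n) :
    vl (pass n l y) u = Rf l (vl y) u := by
  unfold vl pass
  rw [getD_range_map, if_pos hu]
  simp only
  rw [filter_sum, filter_sum, toR, toR]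
  have : ∀ a b : ℝ, a - b = a + (-1) * b := fun a b => by ring
  rw [this, ← S_mul, ← S_add]
  unfold Rf
  refine S_congr fun e _ => ?_
  unfold sg
  split_ifs <;> push_cast <;> ring

theorem Lf_eq (l : List SE) (x : ℕ → ℝ) (v : ℕ) : Lf l x v = Rf (sw l) x v := by
  unfold Lf Rf S sw
  rw [List.map_map]
  rfl

theorem vl_unit (n v u : ℕ) (hu : u < n) : vl (unitL n v) u = ev v u := by
  unfold vl unitL ev
  rw [getD_range_map, if_pos hu]
  split_ifs <;> norm_num

theorem vl_iter {n : ℕ} {l : List SE} (hl : ∀ e ∈ l, e.1 < n ∧ e.2.1 < n) (v k : ℕ) :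
    ∀ u < n, vl ((dbl n l)^[k] (unitL n v)) u = zs l (ev v) (2 * k) u := by
  induction k with
  | zero => intro u hu; exact vl_unit n v u hu
  | succ k ih =>
    intro u hu
    rw [Function.iterate_succ_apply']
    have e1 : 2 * (k + 1) = 2 * k + 1 + 1 := by ring
    have e2 : zs l (ev v) (2 * (k + 1)) u = Lf l (Rf l (zs l (ev v) (2 * k))) u := by
      rw [e1, zs, if_neg (by omega)]
      congr 1
      rw [zs, if_pos (by omega)]
    rw [e2, Lf_eq]
    generalize (dbl n l)^[k] (unitL n v) = y at ih ⊢
    unfold dbl
    rw [vl_pass _ _ _ hu]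
    unfold Rf
    refine S_congr fun e he => ?_
    obtain ⟨e', he', rfl⟩ := List.mem_map.1 he
    simp only
    split_ifs with h
    · rw [vl_pass _ _ _ (hl e' he').1]
      unfold Rf
      congr 1
      refine S_congr fun e'' he'' => ?_
      split_ifs
      · rw [ih _ (hl e'' he'').2]
      · rfl
    · rfl

theorem start_eq {n : ℕ} {l : List SE} (hl : ∀ e ∈ l, e.1 < n ∧ e.2.1 < n) (hn : 0 < n) (v : ℕ) :
    toF (startL n l v).2 = fun u => decide (zs l (ev v) (200 * n) u < 0) := by
  funext u
  unfold toF startL
  simp only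
  by_cases hu : u < n
  · have h := vl_iter hl v (100 * n) u hu
    have e1 : 2 * (100 * n) = 200 * n := by ring
    rw [e1] at h
    rw [← h]
    unfold walk
    have hlen : ((dbl n l)^[100 * n] (unitL n v)).length = n := by
      have : 100 * n = (100 * n - 1) + 1 := by omega
      rw [this, Function.iterate_succ_apply']
      unfold dbl pass
      simp
    generalize (dbl n l)^[100 * n] (unitL n v) = y at hlen ⊢
    have hu' : u < y.length := by omega
    rw [List.getD_eq_getElem?_getD, List.getElem?_map, List.getElem?_eq_getElem hu']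
    simp only [Option.map_some, Option.getD_some]
    unfold vl
    rw [List.getD_eq_getElem _ _ hu']
    congr 1
    rw [sub_neg, Nat.cast_lt]
  · have h0 : zs l (ev v) (200 * n) u = 0 := by
      have : 200 * n = (200 * n - 1) + 1 := by omega
      rw [this, zs, if_neg (by omega)]
      unfold Lf S
      rw [List.sum_eq_zero]
      intro x hx
      obtain ⟨e, he, rfl⟩ := List.mem_map.1 hx
      have := (hl e he).2
      rw [if_neg (by omega)]
    rw [h0, List.getD_eq_default]
    · simp
    · unfold walk
      have : 100 * n = (100 * n - 1) + 1 := by omega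
      rw [this, Function.iterate_succ_apply']
      unfold dbl pass
      simpa using hu

theorem vb_vio (f g : List Bool) (e : SE) :
    (if vb f g e = true then 1 else 0) = vio (toF f) (toF g) e := by
  unfold vb vio toF
  generalize f.getD e.1 false = x
  generalize g.getD e.2.1 false = y
  generalize e.2.2 = z
  cases x <;> cases y <;> cases z <;> rfl

theorem nvb_vio (f g : List Bool) (e : SE) :
    (if (!vb f g e) = true then 1 else 0) = vio (fun u => !toF f u) (toF g) e := by
  unfold vb vio toF
  simp only
  generalize f.getD e.1 false = x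
  generalize g.getD e.2.1 false = y
  generalize e.2.2 = z
  cases x <;> cases y <;> cases z <;> rfl

theorem filter_len (l : List SE) (u : ℕ) (p : SE → Bool) :
    (l.filter fun e => decide (e.1 = u) && p e).length =
      S (fun e => if e.1 = u then (if p e = true then 1 else 0) else 0) l := by
  induction l with
  | nil => rfl
  | cons e l ih =>
    rw [S_cons, ← ih, List.filter_cons]
    by_cases h : e.1 = u <;> by_cases h2 : p e = true
    · rw [if_pos (by simp [h, h2]), if_pos h, if_pos h2, List.length_cons, add_comm]
    · rw [if_neg (by simp [h2]), if_pos h, if_neg h2, zero_add]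
    · rw [if_neg (by simp [h]), if_neg h, zero_add]
    · rw [if_neg (by simp [h]), if_neg h, zero_add]

theorem brL_eq {n : ℕ} {l : List SE} (hl : ∀ e ∈ l, e.1 < n) {f : List Bool} (hf : f.length = n)
    (g : List Bool) : toF (brL n l f g) = BR l (toF f) (toF g) := by
  funext u
  have h1 : (l.filter fun e => decide (e.1 = u) && !vb f g e).length =
      saL l (toF f) (toF g) u := by
    rw [filter_len]
    unfold saL
    refine Sn_congr fun e _ => ?_
    rw [nvb_vio]
  have h2 : (l.filter fun e => decide (e.1 = u) && vb f g e).length =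
      viL l (toF f) (toF g) u := by
    rw [filter_len]
    unfold viL
    refine Sn_congr fun e _ => ?_
    rw [vb_vio]
  have h0 : toF (brL n l f g) u = if u < n then f.getD u false ^^
      decide ((l.filter fun e => decide (e.1 = u) && !vb f g e).length <
      (l.filter fun e => decide (e.1 = u) && vb f g e).length) else false := by
    unfold toF brL
    rw [getD_range_map]
  rw [h0, h1, h2]
  unfold BR
  split_ifs with hu
  · rfl
  · have h3 : viL l (toF f) (toF g) u = 0 := by
      unfold viL S
      rw [List.sum_eq_zero]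
      intro x hx
      obtain ⟨e, he, rfl⟩ := List.mem_map.1 hx
      have := hl e he
      rw [if_neg (by omega)]
    have h4 : toF f u = false := by
      unfold toF
      rw [List.getD_eq_default]
      omega
    rw [h3, h4]
    simp

theorem brL_length (n : ℕ) (l : List SE) (f g : List Bool) : (brL n l f g).length = n := by
  simp [brL]

theorem rdL_iter {n : ℕ} {l : List SE} (hl : ∀ e ∈ l, e.1 < n ∧ e.2.1 < n)
    {s : List Bool × List Bool} (h1 : s.1.length = n) (h2 : s.2.length = n) (k : ℕ) :
    (toF ((rdL n l)^[k] s).1, toF ((rdL n l)^[k] s).2) = (rd l)^[k] (toF s.1, toF s.2) ∧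
      ((rdL n l)^[k] s).1.length = n ∧ ((rdL n l)^[k] s).2.length = n := by
  induction k with
  | zero => exact ⟨rfl, h1, h2⟩
  | succ k ih =>
    rw [Function.iterate_succ_apply', Function.iterate_succ_apply']
    obtain ⟨i1, i2, i3⟩ := ih
    rw [← i1]
    generalize (rdL n l)^[k] s = t at i2 i3
    refine ⟨?_, by simp [rdL, brL_length], by simp [rdL, brL_length]⟩
    unfold rdL rd
    simp only
    rw [brL_eq (fun e he => (hl e he).1) i2, brL_eq (sw_lt hl) i3,
      brL_eq (fun e he => (hl e he).1) i2]

theorem startL_length {n : ℕ} (hn : 0 < n) (l : List SE) (v : ℕ) :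
    (startL n l v).1.length = n ∧ (startL n l v).2.length = n := by
  unfold startL walk
  refine ⟨by simp, ?_⟩
  have : 100 * n = (100 * n - 1) + 1 := by omega
  rw [this, Function.iterate_succ_apply']
  unfold dbl pass
  simp

theorem nvL_eq (l : List SE) (c : List Bool × List Bool) :
    nvL l c = Vn l (toF c.1) (toF c.2) := by
  unfold nvL Vn
  induction l with
  | nil => rfl
  | cons e l ih =>
    rw [S_cons, ← ih, List.filter_cons, ← vb_vio]
    split_ifs
    · rw [List.length_cons, add_comm]
    · rw [zero_add]

theorem best_le (l : List SE) {cs : List (List Bool × List Bool)} {c : List Bool × List Bool}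
    (hc : c ∈ cs) : nvL l (best l cs) ≤ nvL l c := by
  have hex : ∃ c0 ∈ cs, ∀ c' ∈ cs, nvL l c0 ≤ nvL l c' := by
    have hne : (cs.map (nvL l)) ≠ [] := by
      intro h
      rw [List.map_eq_nil_iff] at h
      rw [h] at hc
      exact List.not_mem_nil hc
    obtain ⟨c0, h1, h2⟩ := Finset.exists_min_image cs.toFinset (nvL l) ⟨c, List.mem_toFinset.2 hc⟩
    exact ⟨c0, List.mem_toFinset.1 h1, fun c' hc' => h2 c' (List.mem_toFinset.2 hc')⟩
  obtain ⟨c0, h1, h2⟩ := hex
  have hmem : c0 ∈ cs.filter fun c => cs.all fun c' => decide (nvL l c ≤ nvL l c') := by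
    rw [List.mem_filter]
    refine ⟨h1, ?_⟩
    rw [List.all_eq_true]
    intro c' hc'
    exact decide_eq_true (h2 c' hc')
  unfold best
  generalize hL : (cs.filter fun c => cs.all fun c' => decide (nvL l c ≤ nvL l c')) = L at hmem
  cases L with
  | nil => exact absurd hmem List.not_mem_nil
  | cons b L =>
    simp only [List.head?_cons, Option.getD_some]
    have hb : b ∈ cs.filter fun c => cs.all fun c' => decide (nvL l c ≤ nvL l c') := by
      rw [hL]; exact List.mem_cons_self
    rw [List.mem_filter, List.all_eq_true] at hb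
    exact of_decide_eq_true (hb.2 c hc)

/-- **The algorithm is almost optimal on good expanders.** -/
theorem algS_le {n d : ℕ} {σ : ℝ} {l : List SE} (h : Xp n d σ l) (hσ : σ ≤ 1 / 1000)
    {f g : ℕ → Bool} (hw : V l f g ≤ 1 / 1000000000 * (d * n)) :
    V l (toF (algS n l).1) (toF (algS n l).2) ≤
      (1 + 16 * (V l f g / (d * n)) + 4 * σ) * V l f g := by
  obtain ⟨v, hv, h1⟩ := analysis h hσ hw
  have h2 := h1 (toF (startL n l v).1)
  rw [← start_eq h.lt h.npos v] at h2
  obtain ⟨s1, s2⟩ := startL_length h.npos l v
  obtain ⟨h3, _, _⟩ := rdL_iter h.lt s1 s2 l.length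
  rw [← h3] at h2
  refine le_trans ?_ h2
  rw [V_eq, V_eq]
  have h4 := best_le l (cs := (List.range n).map (cand n l)) (c := cand n l v)
    (List.mem_map.2 ⟨v, List.mem_range.2 hv, rfl⟩)
  rw [nvL_eq, nvL_eq] at h4
  exact_mod_cast h4

end Pool.Agent.K6.H49.UGX
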