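import Pool.Agent.K6.H49.UGX.Defs

/-!
# The fraction of violated constraints; labelings given by bit strings
-/

set_option autoImplicit false

namespace Pool.Agent.K6.H49.UGX

/-- The fraction of the constraints which are violated by the labelings `f` (left vertices) and
`g` (right vertices). -/
noncomputable def viol {q : ℕ} (G : Game) (f g : ℕ → Fin q) : ℝ :=
  ((G.2.length : ℝ) - (numSat G f g : ℝ)) / (G.2.length : ℝ)

/-- The labeling with two labels which is given by a bit string: the bit number `u` is the label of
the vertex `u` (and it is `0` beyond the end of the string). -/
def lab (w : List Bool) (u : ℕ) : Fin 2 := if w.getD u false then 1 else 0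

end Pool.Agent.K6.H49.UGX
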