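import Pool.Agent.K6.H49.UGX.AlgP
import Pool.Agent.K6.H49.UGX.Defs2
import Pool.Agent.NPC.Dec

/-!
# The algorithm for games with two labels
-/

set_option autoImplicit false

open Finset

namespace Pool.Agent.K6.H49.UGX

open Pool.Agent.NPC

/-- The Boolean labeling of a labeling with two labels. -/
def bf (f : ℕ → Fin 2) (u : ℕ) : Bool := decide (f u = 1)

theorem table_cases {t : List ℕ} (h1 : t.length = 2) (h2 : t.Nodup) (h3 : ∀ b ∈ t, b < 2) :
    t = [0, 1] ∨ t = [1, 0] := by
  obtain ⟨a, b, rfl⟩ := List.length_eq_two.1 h1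
  have ha := h3 a (by simp)
  have hb := h3 b (by simp)
  have hab : a ≠ b := by
    intro h
    subst h
    simp at h2
  rcases Nat.lt_or_ge a 1 with h | h
  · left
    have : a = 0 := by omega
    have : b = 1 := by omega
    subst_vars
    rfl
  · right
    have : a = 1 := by omega
    have : b = 0 := by omega
    subst_vars
    rfl

theorem sat_table (t : List ℕ) (h : t = [0, 1] ∨ t = [1, 0]) : ∀ a b : Fin 2,
    (if t[(a : ℕ)]? = some (b : ℕ) then 1 else 0) +
      vc (decide (a = 1)) (decide (b = 1)) (decide (t = [1, 0])) = 1 := by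
  rcases h with rfl | rfl <;> decide

theorem numSat_toS {G : Game} (hG : IsUnique 2 G) (f g : ℕ → Fin 2) :
    numSat G f g + Vn (toS G) (bf f) (bf g) = G.2.length := by
  obtain ⟨n, E⟩ := G
  have hE : ∀ e ∈ E, e.2.2 = [0, 1] ∨ e.2.2 = [1, 0] := fun e he => by
    obtain ⟨_, _, h1, h2, h3⟩ := hG.2 e he
    exact table_cases h1 h2 h3
  clear hG
  unfold numSat Vn toS
  simp only
  induction E with
  | nil => rfl
  | cons e E ih =>
    rw [List.map_cons, S_cons, List.countP_cons, List.length_cons,
      ← ih fun e he => hE e (List.mem_cons_of_mem _ he)]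
    have h1 := sat_table e.2.2 (hE e List.mem_cons_self) (f e.1) (g e.2.1)
    have h2 : vio (bf f) (bf g) (e.1, e.2.1, decide (e.2.2 = [1, 0])) =
      vc (decide (f e.1 = 1)) (decide (g e.2.1 = 1)) (decide (e.2.2 = [1, 0])) := rfl
    rw [h2]
    simp only [decide_eq_true_eq]
    omega

theorem toR_count (l : List SE) (u : ℕ) :
    S (fun e => if e.1 = u then (1 : ℝ) else 0) l =
      ((l.countP fun e => decide (e.1 = u) : ℕ) : ℝ) := by
  rw [countP_S, toR]
  exact S_congr fun e _ => by unfold lft; push_cast; rfl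

theorem toR_count' (l : List SE) (u : ℕ) :
    S (fun e => if e.2.1 = u then (1 : ℝ) else 0) l =
      ((l.countP fun e => decide (e.2.1 = u) : ℕ) : ℝ) := by
  rw [countP_S', toR]
  exact S_congr fun e _ => by unfold lft; push_cast; rfl

theorem xp_toS {G : Game} {d : ℕ} {σ : ℝ} (hG : IsUnique 2 G) (hR : Regular G d) (hσ : 0 ≤ σ)
    (hS : SecondLE G (σ * d)) : Xp G.1 d σ (toS G) := by
  obtain ⟨hne, hE⟩ := hG
  obtain ⟨e0, he0⟩ := List.exists_mem_of_ne_nil _ hne
  refine ⟨?_, ?_, ?_, ?_, ?_, hσ, ?_⟩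
  · exact lt_of_le_of_lt (Nat.zero_le _) (hE e0 he0).1
  · have h1 := (hR e0.1 (hE e0 he0).1).1
    rw [← h1]
    exact List.countP_pos_iff.2 ⟨e0, he0, by simp⟩
  · intro e he
    obtain ⟨e', he', rfl⟩ := List.mem_map.1 he
    exact ⟨(hE e' he').1, (hE e' he').2.1⟩
  · intro u hu
    rw [toR_count, ← (hR u hu).1]
    unfold toS
    rw [List.countP_map]
    rfl
  · intro u hu
    rw [toR_count', ← (hR u hu).2]
    unfold toS
    rw [List.countP_map]
    rfl
  · intro f g hf hg
    have h1 := hS f g hf hg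
    have h2 : S (fun e => f e.1 * g e.2.1) (toS G) =
        (G.2.map fun e => f e.1 * g e.2.1).sum := by
      unfold S toS
      rw [List.map_map]
      rfl
    rw [h2]
    exact h1

theorem length_toS {G : Game} {d : ℕ} {σ : ℝ} (h : Xp G.1 d σ (toS G)) :
    (G.2.length : ℝ) = d * G.1 := by
  rw [← h.count]
  have : (toS G).length = G.2.length := by simp [toS]
  rw [← this]
  generalize toS G = l
  induction l with
  | nil => simp [S]
  | cons e l ih => rw [S_cons, ← ih, List.length_cons]; push_cast; ring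

theorem bf_lab (w : List Bool) : bf (lab w) = toF w := by
  funext u
  unfold bf lab toF
  generalize w.getD u false = b
  cases b <;> rfl

/-- **Main theorem about the algorithm.** -/
theorem alg_main {G : Game} {d : ℕ} {σ : ℝ} (hG : IsUnique 2 G) (hR : Regular G d) (hσ : 0 ≤ σ)
    (hσ1 : σ ≤ 1 / 1000) (hS : SecondLE G (σ * d)) (f g : ℕ → Fin 2)
    (hv : viol G f g ≤ 1 / 1000000000) :
    viol G (lab (alg G).1) (lab (alg G).2) ≤ (1 + 16 * viol G f g + 4 * σ) * viol G f g := by
  have hX := xp_toS hG hR hσ hS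
  have hlen := length_toS hX
  have hn : (0 : ℝ) < G.1 := by exact_mod_cast hX.npos
  have hd : (0 : ℝ) < d := by exact_mod_cast hX.dpos
  have hL : (0 : ℝ) < G.2.length := by rw [hlen]; positivity
  have hV : ∀ p q : ℕ → Fin 2, viol G p q = V (toS G) (bf p) (bf q) / (d * G.1) := by
    intro p q
    unfold viol
    rw [V_eq, hlen]
    congr 1
    have := numSat_toS hG p q
    have h2 : (G.2.length : ℝ) = numSat G p q + Vn (toS G) (bf p) (bf q) := by
      exact_mod_cast this.symm
    rw [← hlen, h2]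
    ring
  have hnn : nn (G.1, toS G) = G.1 := by
    unfold nn
    simp only
    refine Nat.min_eq_left ?_
    have h1 : (toS G).length = G.2.length := by simp [toS]
    rw [h1]
    have h2 : (G.1 : ℝ) ≤ G.2.length := by
      rw [hlen]
      have : (1 : ℝ) ≤ d := by exact_mod_cast hX.dpos
      nlinarith
    exact_mod_cast h2
  have hdn : (0 : ℝ) < d * G.1 := by positivity
  have hw : V (toS G) (bf f) (bf g) ≤ 1 / 1000000000 * (d * G.1) := by
    rw [hV, div_le_iff₀ hdn] at hv
    exact hv
  have h := algS_le hX hσ1 hw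
  rw [hV, hV f g, bf_lab, bf_lab]
  unfold alg
  rw [hnn, div_le_iff₀ hdn]
  refine h.trans (le_of_eq ?_)
  field_simp

/-- **The algorithm.** -/
theorem algorithm : ∃ C : ℝ, 0 < C ∧ ∃ A : List Bool → List Bool, PolyTime A ∧
    ∀ (G : Game) (d : ℕ) (σ : ℝ), IsUnique 2 G → Regular G d → 0 ≤ σ → C * σ ≤ 1 →
      SecondLE G (σ * d) → ∃ w w' : List Bool, A (bits G) = bits (w, w') ∧
        ∀ f g : ℕ → Fin 2, C * viol G f g ≤ 1 →
          viol G (lab w) (lab w') ≤ (1 + C * (σ + viol G f g)) * viol G f g := by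
  obtain ⟨A, hA, hA2⟩ : ∃ A : List Bool → List Bool, PolyTime A ∧
      ∀ G : Game, A (bits G) = bits (alg G) := by
    refine ⟨_, polyTime_opt (g := fun x => (unbits Game x).map alg) ?_, fun G => ?_⟩
    · exact Poly.optMap_fp (h := fun _ G => alg G) poly_unbits (poly_alg.comp (Poly.snd Poly.id))
    · simp only [unbits_bits, Option.map_some]
  refine ⟨1000000000, by norm_num, A, hA, fun G d σ hG hR hσ hσ1 hS => ?_⟩
  refine ⟨(alg G).1, (alg G).2, hA2 G, fun f g hv => ?_⟩
  have h := alg_main hG hR hσ (by linarith) hS f g (by linarith)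
  refine h.trans (mul_le_mul_of_nonneg_right ?_ ?_)
  · have hv0 : 0 ≤ viol G f g := by
      unfold viol
      refine div_nonneg ?_ (by positivity)
      have := numSat_toS hG f g
      have h2 : (numSat G f g : ℝ) ≤ G.2.length := by exact_mod_cast (by omega)
      linarith
    linarith
  · unfold viol
    refine div_nonneg ?_ (by positivity)
    have := numSat_toS hG f g
    have h2 : (numSat G f g : ℝ) ≤ G.2.length := by exact_mod_cast (by omega)
    linarith

end Pool.Agent.K6.H49.UGX
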