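import Pool.Agent.K6.H49.UGX.Rnd

/-!
# Best responses
-/

set_option autoImplicit false

open Finset

namespace Pool.Agent.K6.H49.UGX

/-- The number of the violated edges, as a natural number. -/
def Vn (l : List SE) (f g : ℕ → Bool) : ℕ := S (vio f g) l

theorem V_eq (l : List SE) (f g : ℕ → Bool) : V l f g = (Vn l f g : ℝ) := by
  unfold V Vn
  induction l with
  | nil => simp [S]
  | cons e l ih => rw [S_cons, S_cons, ih]; push_cast; rfl

/-- The edges with the two sides exchanged. -/
def sw (l : List SE) : List SE := l.map fun e => (e.2.1, e.1, e.2.2)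

theorem vc_comm (x y z : Bool) : vc x y z = vc y x z := by
  unfold vc
  cases x <;> cases y <;> rfl

theorem Vn_sw (l : List SE) (f g : ℕ → Bool) : Vn (sw l) g f = Vn l f g := by
  unfold Vn sw
  induction l with
  | nil => rfl
  | cons e l ih =>
    rw [List.map_cons, S_cons, S_cons, ih]
    congr 1
    exact vc_comm _ _ _

/-- The violated edges at `u`. -/
def viL (l : List SE) (f g : ℕ → Bool) (u : ℕ) : ℕ :=
  S (fun e => if e.1 = u then vio f g e else 0) l

/-- The violated edges at `u` after a change of the label of `u`. -/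
def saL (l : List SE) (f g : ℕ → Bool) (u : ℕ) : ℕ :=
  S (fun e => if e.1 = u then vio (fun v => !f v) g e else 0) l

/-- The best response of the left vertices. -/
def BR (l : List SE) (f g : ℕ → Bool) (u : ℕ) : Bool :=
  f u ^^ decide (saL l f g u < viL l f g u)

section

variable {n : ℕ} {l : List SE}

theorem Sn_congr {F G : SE → ℕ} {l : List SE} (h : ∀ e ∈ l, F e = G e) : S F l = S G l := by
  unfold S
  rw [List.map_congr_left h]

theorem Vn_left (hl : ∀ e ∈ l, e.1 < n) (f g : ℕ → Bool) :
    Vn l f g = ∑ u ∈ range n, viL l f g u := by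
  unfold Vn viL
  induction l with
  | nil => simp [S]
  | cons e l ih =>
    simp only [S_cons, sum_add_distrib]
    rw [ih fun e he => hl e (List.mem_cons_of_mem _ he)]
    rw [sum_ite_eq, if_pos (mem_range.2 (hl e List.mem_cons_self))]

theorem viL_or (f g f' : ℕ → Bool) (u : ℕ) :
    viL l f' g u = if f' u = f u then viL l f g u else saL l f g u := by
  unfold viL saL
  split_ifs with h
  · refine Sn_congr fun e _ => ?_
    split_ifs with h1
    · unfold vio
      rw [h1, h]
    · rfl
  · refine Sn_congr fun e _ => ?_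
    split_ifs with h1
    · unfold vio
      rw [h1]
      have : f' u = !f u := by
        cases h2 : f' u <;> cases h3 : f u <;> simp_all
      rw [this]
    · rfl

theorem viL_BR (f g : ℕ → Bool) (u : ℕ) :
    viL l (BR l f g) g u = min (viL l f g u) (saL l f g u) := by
  rw [viL_or f]
  unfold BR
  by_cases h : saL l f g u < viL l f g u
  · rw [if_neg (by simp [h])]
    omega
  · rw [if_pos (by simp [h])]
    omega

theorem BR_best (hl : ∀ e ∈ l, e.1 < n) (f g f' : ℕ → Bool) :
    Vn l (BR l f g) g ≤ Vn l f' g := by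
  rw [Vn_left hl, Vn_left hl]
  refine sum_le_sum fun u _ => ?_
  rw [viL_BR, viL_or f g f']
  split_ifs <;> omega

theorem BR_fix (hl : ∀ e ∈ l, e.1 < n) (f g : ℕ → Bool) (h : Vn l (BR l f g) g = Vn l f g) :
    BR l f g = f ∧ ∀ u, viL l f g u ≤ saL l f g u := by
  have h1 : ∀ u ∈ range n, viL l (BR l f g) g u = viL l f g u := by
    rw [Vn_left hl, Vn_left hl] at h
    exact (sum_eq_sum_iff_of_le fun u _ => by rw [viL_BR]; omega).1 h
  have h2 : ∀ u, viL l f g u ≤ saL l f g u := by
    intro u
    by_cases hu : u < n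
    · have := h1 u (mem_range.2 hu)
      rw [viL_BR] at this
      omega
    · have : viL l f g u = 0 := by
        unfold viL S
        rw [List.sum_eq_zero]
        intro x hx
        obtain ⟨e, he, rfl⟩ := List.mem_map.1 hx
        have := hl e he
        rw [if_neg (by omega)]
      omega
  refine ⟨?_, h2⟩
  funext u
  have := h2 u
  unfold BR
  have h3 : ¬ saL l f g u < viL l f g u := by omega
  simp [h3]

theorem sa_add_vi (f g : ℕ → Bool) (u : ℕ) :
    viL l f g u + saL l f g u = S (fun e => if e.1 = u then 1 else 0) l := by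
  unfold viL saL
  induction l with
  | nil => rfl
  | cons e l ih =>
    rw [S_cons, S_cons, S_cons, ← ih]
    have : (if e.1 = u then vio f g e else 0) + (if e.1 = u then vio (fun v => !f v) g e else 0) =
        if e.1 = u then 1 else 0 := by
      split_ifs with h
      · unfold vio
        simp only
        generalize f e.1 = x
        generalize g e.2.1 = y
        generalize e.2.2 = z
        cases x <;> cases y <;> cases z <;> rfl
      · rfl
    omega

end

/-- One round: best response of the left side, then of the right side. -/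
def rd (l : List SE) (s : (ℕ → Bool) × (ℕ → Bool)) : (ℕ → Bool) × (ℕ → Bool) :=
  (BR l s.1 s.2, BR (sw l) s.2 (BR l s.1 s.2))

section

variable {n : ℕ} {l : List SE}

theorem sw_lt (hl : ∀ e ∈ l, e.1 < n ∧ e.2.1 < n) : ∀ e ∈ sw l, e.1 < n := by
  intro e he
  obtain ⟨e', he', rfl⟩ := List.mem_map.1 he
  exact (hl e' he').2

theorem rd_le (hl : ∀ e ∈ l, e.1 < n ∧ e.2.1 < n) (s : (ℕ → Bool) × (ℕ → Bool))
    (f' : ℕ → Bool) : Vn l (rd l s).1 (rd l s).2 ≤ Vn l f' s.2 := by
  unfold rd
  simp only
  rw [← Vn_sw]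
  refine (BR_best (sw_lt hl) _ _ s.2).trans ?_
  rw [Vn_sw]
  exact BR_best (fun e he => (hl e he).1) _ _ _

theorem rd_fix (hl : ∀ e ∈ l, e.1 < n ∧ e.2.1 < n) (s : (ℕ → Bool) × (ℕ → Bool))
    (h : Vn l (rd l s).1 (rd l s).2 = Vn l s.1 s.2) : rd l s = s ∧
      (∀ u, viL l s.1 s.2 u ≤ saL l s.1 s.2 u) ∧
      ∀ u, viL (sw l) s.2 s.1 u ≤ saL (sw l) s.2 s.1 u := by
  obtain ⟨f, g⟩ := s
  simp only [rd] at h ⊢
  have h1 : Vn l (BR l f g) g ≤ Vn l f g := BR_best (fun e he => (hl e he).1) _ _ _
  have h2 : Vn (sw l) (BR (sw l) g (BR l f g)) (BR l f g) ≤ Vn (sw l) g (BR l f g) :=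
    BR_best (sw_lt hl) _ _ _
  rw [Vn_sw, Vn_sw] at h2
  obtain ⟨h3, h4⟩ := BR_fix (fun e he => (hl e he).1) f g (by omega)
  rw [h3] at h h2 ⊢
  obtain ⟨h5, h6⟩ := BR_fix (sw_lt hl) g f (by rw [Vn_sw, Vn_sw]; omega)
  rw [h5]
  exact ⟨rfl, h4, h6⟩

/-- Iterating a map until it stops. -/
theorem iter_fix {τ : Type} (F : τ → τ) (μ : τ → ℕ) (h1 : ∀ s, μ (F s) ≤ μ s)
    (h2 : ∀ s, μ (F s) = μ s → F s = s) (k : ℕ) : ∀ s, μ s ≤ k →
      μ (F (F^[k] s)) = μ (F^[k] s) := by
  induction k with
  | zero =>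
    intro s hs
    have := h1 s
    simp only [Function.iterate_zero, id_eq]
    omega
  | succ k ih =>
    intro s hs
    rcases (h1 s).eq_or_lt with h | h
    · have h3 := h2 s h
      have h4 : ∀ j, F^[j] s = s := by
        intro j
        induction j with
        | zero => rfl
        | succ j ihj => rw [Function.iterate_succ_apply', ihj, h3]
      rw [h4, h3]
    · rw [Function.iterate_succ_apply]
      exact ih (F s) (by omega)

theorem Vn_le_length (l : List SE) (f g : ℕ → Bool) : Vn l f g ≤ l.length := by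
  unfold Vn
  induction l with
  | nil => exact le_rfl
  | cons e l ih =>
    rw [S_cons, List.length_cons]
    have : vio f g e ≤ 1 := vc_le _ _ _
    omega

theorem iter_le (hl : ∀ e ∈ l, e.1 < n ∧ e.2.1 < n) (s : (ℕ → Bool) × (ℕ → Bool)) (k : ℕ) :
    Vn l ((rd l)^[k] s).1 ((rd l)^[k] s).2 ≤ Vn l s.1 s.2 := by
  induction k with
  | zero => exact le_rfl
  | succ k ih =>
    rw [Function.iterate_succ_apply']
    exact (rd_le hl _ _).trans ih

end

theorem toR (l : List SE) (F : SE → ℕ) : ((S F l : ℕ) : ℝ) = S (fun e => (F e : ℝ)) l := by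
  induction l with
  | nil => simp [S]
  | cons e l ih => rw [S_cons, S_cons, ← ih]; push_cast; rfl

/-- After enough rounds the labeling is a local optimum. -/
theorem local_iter {n d : ℕ} {σ : ℝ} {l : List SE} (h : Xp n d σ l)
    (s : (ℕ → Bool) × (ℕ → Bool)) :
    Local n d l ((rd l)^[l.length] s).1 ((rd l)^[l.length] s).2 := by
  have h1 := iter_fix (rd l) (fun s => Vn l s.1 s.2) (fun s => rd_le h.lt s _)
    (fun s hs => (rd_fix h.lt s hs).1) l.length s (Vn_le_length _ _ _)
  obtain ⟨_, h2, h3⟩ := rd_fix h.lt _ h1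
  generalize (rd l)^[l.length] s = t at h2 h3
  constructor
  · intro u hu
    have h4 := h2 u
    have h5 := sa_add_vi (l := l) t.1 t.2 u
    have h6 : ((S (fun e => if e.1 = u then 1 else 0) l : ℕ) : ℝ) = d := by
      rw [toR, ← h.left u hu]
      exact S_congr fun e _ => by push_cast; rfl
    have h7 : S (fun e => if e.1 = u then (vio t.1 t.2 e : ℝ) else 0) l =
        ((viL l t.1 t.2 u : ℕ) : ℝ) := by
      unfold viL
      rw [toR]
      exact S_congr fun e _ => by push_cast; rfl
    rw [h7, ← h6, ← h5]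
    exact_mod_cast (by omega : 2 * viL l t.1 t.2 u ≤ viL l t.1 t.2 u + saL l t.1 t.2 u)
  · intro u hu
    have h4 := h3 u
    have h5 := sa_add_vi (l := sw l) t.2 t.1 u
    have hsw : ∀ F : SE → ℕ, S F (sw l) = S (fun e => F (e.2.1, e.1, e.2.2)) l := by
      intro F
      unfold S sw
      rw [List.map_map]
      rfl
    have h6 : ((S (fun e => if e.1 = u then 1 else 0) (sw l) : ℕ) : ℝ) = d := by
      rw [hsw, toR, ← h.right u hu]
      exact S_congr fun e _ => by push_cast; rfl
    have h7 : S (fun e => if e.2.1 = u then (vio t.1 t.2 e : ℝ) else 0) l =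
        ((viL (sw l) t.2 t.1 u : ℕ) : ℝ) := by
      unfold viL
      rw [hsw, toR]
      refine S_congr fun e _ => ?_
      simp only [vio]
      rw [vc_comm]
      push_cast
      rfl
    rw [h7, ← h6, ← h5]
    exact_mod_cast (by omega : 2 * viL (sw l) t.2 t.1 u ≤
      viL (sw l) t.2 t.1 u + saL (sw l) t.2 t.1 u)

/-- Changing labels of right vertices. -/
theorem V_change {n d : ℕ} {σ : ℝ} {l : List SE} (h : Xp n d σ l) (f g g' : ℕ → Bool) :
    V l f g' ≤ V l f g + d * ∑ v ∈ range n, df g' g v := by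
  rw [← h.sum_right, V, V, ← S_add]
  refine S_le fun e _ => ?_
  have h1 := vio_df f g' f g e
  have h0 : df f f e.1 = 0 := if_pos rfl
  have h2 := vio_nonneg f g e
  have h3 := vio_le_one f g e
  rw [h0] at h1
  rcases df_cases g' g e.2.1 with h4 | h4 <;> rw [h4] at h1 ⊢ <;> linarith

/-- **The analysis of the algorithm.** -/
theorem analysis {n d : ℕ} {σ : ℝ} {l : List SE} (h : Xp n d σ l) (hσ : σ ≤ 1 / 1000)
    {f g : ℕ → Bool} (hw : V l f g ≤ 1 / 1000000000 * (d * n)) :
    ∃ v < n, ∀ f₀ : ℕ → Bool,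
      V l ((rd l)^[l.length] (f₀, fun u => decide (zs l (ev v) (200 * n) u < 0))).1
        ((rd l)^[l.length] (f₀, fun u => decide (zs l (ev v) (200 * n) u < 0))).2 ≤
      (1 + 16 * (V l f g / (d * n)) + 4 * σ) * V l f g := by
  have hn : (0 : ℝ) < n := by exact_mod_cast h.npos
  have hd : (0 : ℝ) < d := by exact_mod_cast h.dpos
  have hσ0 := h.nonneg
  obtain ⟨v, hv, hpos, hpow⟩ := power (l := l) (n := n) h.lt h.npos
    (a := fun u => bs (f u)) (b := fun u => bs (g u)) (fun u => bs_sq _) (fun u => bs_sq _)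
    (γ := (1 - 2 / 1000000000) * d) (by positivity) (by
      rw [sg_sum n d h f g]
      nlinarith) (δ := 1 / 200) (N := 200) (k := 200 * n) (by norm_num) (by norm_num)
      (by omega) (by have := h.npos; omega)
  refine ⟨v, hv, fun f₀ => ?_⟩
  have hzs : zs l (ev v) (200 * n + 1) = Rf l (zs l (ev v) (200 * n)) := by
    rw [zs, if_pos (by omega)]
  have hR : ms n l (ev v) (200 * n + 1) =
      ip n (Rf l (zs l (ev v) (200 * n))) (Rf l (zs l (ev v) (200 * n))) := by
    unfold ms
    rw [hzs]
  rw [hR] at hpow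
  have hM : ms n l (ev v) (200 * n) = ip n (zs l (ev v) (200 * n)) (zs l (ev v) (200 * n)) := rfl
  rw [hM] at hpow hpos
  generalize zs l (ev v) (200 * n) = y at hpow hpos ⊢
  have hsq : √(1 / 1000000000 / (1 / 1000) : ℝ) = 1 / 1000 := by
    rw [show (1 / 1000000000 / (1 / 1000) : ℝ) = (1 / 1000) ^ 2 by norm_num]
    exact Real.sqrt_sq (by norm_num)
  obtain ⟨s, hs⟩ := rounding h hw hpos (θ₀ := 995 / 1000) (η := 1 / 1000) (θ := 98 / 100)
    (by norm_num) (by
      have : (995 / 1000 * (d : ℝ)) ^ 2 * ip n y y * (1 + 1 / 200) ≤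
          (1 + 1 / 200) * ip n (Rf l y) (Rf l y) := by
        refine le_trans ?_ hpow
        have e1 : (995 / 1000 * (d : ℝ)) ^ 2 * ip n y y * (1 + 1 / 200) =
          ((995 / 1000) ^ 2 * (1 + 1 / 200)) * (d ^ 2 * ip n y y) := by ring
        have e2 : ((1 - 2 / 1000000000) * (d : ℝ)) ^ 2 * ip n y y =
          ((1 - 2 / 1000000000) ^ 2) * (d ^ 2 * ip n y y) := by ring
        rw [e1, e2]
        exact mul_le_mul_of_nonneg_right (by norm_num) (by positivity)
      linarith) (by norm_num) (by rw [hsq]; linarith) (by norm_num)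
  set g₀ : ℕ → Bool := fun u => decide (y u < 0) with hg₀
  -- the first round
  have hlen : ∃ k, l.length = k + 1 := by
    refine ⟨l.length - 1, ?_⟩
    have : 0 < l.length := by
      rw [List.length_pos_iff]
      intro hnil
      have := h.count
      rw [hnil] at this
      simp only [S, List.map_nil, List.sum_nil] at this
      have : (0 : ℝ) < d * n := by positivity
      linarith
    omega
  have hfin : V l ((rd l)^[l.length] (f₀, g₀)).1 ((rd l)^[l.length] (f₀, g₀)).2 ≤
      V l f g + d * (1 / 24 * n) := by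
    obtain ⟨k, hk⟩ := hlen
    have h1 : Vn l ((rd l)^[l.length] (f₀, g₀)).1 ((rd l)^[l.length] (f₀, g₀)).2 ≤
        Vn l (fun u => f u ^^ s) g₀ := by
      rw [hk, Function.iterate_succ_apply]
      exact (iter_le h.lt _ _).trans (rd_le h.lt (f₀, g₀) _)
    rw [V_eq]
    refine (Nat.cast_le.2 h1).trans ?_
    rw [← V_eq]
    refine (V_change h _ (fun u => g u ^^ s) g₀).trans ?_
    rw [V_not]
    have : ((1 - (98 / 100 : ℝ) ^ 2) / (98 / 100) ^ 2) * n ≤ 1 / 24 * n :=
      mul_le_mul_of_nonneg_right (by norm_num) hn.le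
    have h2 := hs.trans this
    have h3 := mul_le_mul_of_nonneg_left h2 hd.le
    linarith
  have hloc := local_iter h (f₀, g₀)
  generalize (rd l)^[l.length] (f₀, g₀) = x at hfin hloc
  rcases close_or h (by linarith) x.1 x.2 f g (t := 1 / 10) (by nlinarith) (by norm_num) with
    ⟨c1, c2⟩ | ⟨c1, c2⟩
  · exact local_le h hloc c1 c2 (by linarith)
  · have hneg : ∀ p q : ℕ → Bool, ∑ u ∈ range n, df p (fun u => q u ^^ true) u =
        n - ∑ u ∈ range n, df p q u := by
      intro p q
      have : ∀ u, df p (fun u => q u ^^ true) u = 1 - df p q u := by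
        intro u
        show (if p u = (q u ^^ true) then (0 : ℝ) else 1) = 1 - (if p u = q u then 0 else 1)
        generalize p u = a
        generalize q u = b
        cases a <;> cases b <;> norm_num
      simp only [this]
      rw [sum_sub_distrib]
      simp
    have h1 := local_le h hloc (f' := fun u => f u ^^ true) (g' := fun u => g u ^^ true)
      (t := 1 / 10) (by rw [hneg]; exact c1) (by rw [hneg]; exact c2) (by linarith)
    rwa [V_not] at h1

end Pool.Agent.K6.H49.UGX
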