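import Pool.Agent.K6.H49.UGX.Inst

/-!
# Degrees
-/

set_option autoImplicit false

open Finset

namespace Pool.Agent.K6.H49.UGX

variable {m s ρ B : ℕ} {cl : ℕ → Cl}

/-- The indicator of the edges whose left end is `u`. -/
def lft (u : ℕ) (e : SE) : ℕ := if e.1 = u then 1 else 0

/-- The multiplicity of `w` in a clause. -/
def mul (t : ℕ) (c : Cl) (w : ℕ) : ℕ :=
  (if c.1.1 = w then 1 else 0) + (if c.2.1.1 = w then 1 else 0) +
      (if c.2.2.1 = w then 1 else 0) + (if t = w then 1 else 0)

theorem cnt_eq' (m : ℕ) (cl : ℕ → Cl) (w : ℕ) :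
    cnt m cl w = ∑ j ∈ range m, mul (3 * m + j) (cl j) w := cnt_eq m cl w

theorem sum_ind {n u : ℕ} (hu : u < n) (a : ℕ → ℕ) :
    (∑ w ∈ range n, (if w = u then a w else 0)) = a u := by
  rw [sum_ite_eq' (range n) u a, if_pos (mem_range.2 hu)]

/-- The vertices of the clauses are not hubs. -/
def Low (m : ℕ) (cl : ℕ → Cl) : Prop :=
  ∀ j < m, (cl j).1.1 < 3 * m ∧ (cl j).2.1.1 < 3 * m ∧ (cl j).2.2.1 < 3 * m

theorem deg_low (hB : ∀ w < 4 * m, cnt m cl w ≤ B) {u : ℕ} (hu : u < 4 * m) :
    S (lft u) (edges m s ρ B cl) = s * hubs m s ρ * (8 * B + 2 * ρ) := by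
  rw [S_edges]
  generalize hN : hubs m s ρ = N
  have h1 : (∑ i ∈ range N, ∑ i' ∈ range N,
      (s * (8 * B + 2 * ρ) - 1) • lft u (4 * m + i, 4 * m + i', false)) = 0 := by
    refine sum_eq_zero fun i _ => sum_eq_zero fun i' _ => ?_
    unfold lft
    rw [if_neg (by simp only; omega), smul_zero]
  have h2 : (∑ w ∈ range (4 * m), ∑ i ∈ range N, (s * ρ) • S (lft u) (nu w (4 * m + i))) =
      N * (s * ρ) * 2 := by
    have : ∀ w ∈ range (4 * m), (∑ i ∈ range N, (s * ρ) • S (lft u) (nu w (4 * m + i))) =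
        if w = u then N * (s * ρ) * 2 else 0 := by
      intro w _
      have h : ∀ i ∈ range N, (s * ρ) • S (lft u) (nu w (4 * m + i)) =
          if w = u then (s * ρ) * 2 else 0 := by
        intro i _
        simp only [nu, S_cons, S_nil, lft, smul_eq_mul]
        have : ¬ (4 * m + i = u) := by omega
        simp only [this, if_false]
        split_ifs <;> ring
      rw [sum_congr rfl h, sum_const, card_range, smul_eq_mul]
      split_ifs <;> ring
    rw [sum_congr rfl this, sum_ind hu (fun _ => N * (s * ρ) * 2)]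
  have h3 : (∑ j ∈ range m, ∑ i ∈ range N, s • S (lft u) (tg (3 * m + j) (cl j) (4 * m + i))) =
      N * s * cnt m cl u := by
    rw [cnt_eq', mul_sum]
    refine sum_congr rfl fun j _ => ?_
    have h : ∀ i ∈ range N, s • S (lft u) (tg (3 * m + j) (cl j) (4 * m + i)) =
        s * mul (3 * m + j) (cl j) u := by
      intro i _
      simp only [tg, S_cons, S_nil, lft, smul_eq_mul, mul]
      have : ¬ (4 * m + i = u) := by omega
      simp only [this, if_false]
      ring
    rw [sum_congr rfl h, sum_const, card_range, smul_eq_mul]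
    ring
  have h4 : (∑ j ∈ range m, (s * N) • S (lft u) (gad (3 * m + j) (cl j))) =
      7 * (s * N) * cnt m cl u := by
    rw [cnt_eq', mul_sum]
    refine sum_congr rfl fun j _ => ?_
    simp only [gad, S_cons, S_nil, lft, smul_eq_mul, mul]
    ring
  have h5 : (∑ w ∈ range (4 * m), (B - cnt m cl w) • (4 * (s * N)) • S (lft u) (du w)) =
      (B - cnt m cl u) * (8 * (s * N)) := by
    have : ∀ w ∈ range (4 * m), (B - cnt m cl w) • (4 * (s * N)) • S (lft u) (du w) =
        if w = u then (B - cnt m cl w) * (8 * (s * N)) else 0 := by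
      intro w _
      simp only [du, S_cons, S_nil, lft, smul_eq_mul]
      split_ifs <;> ring
    rw [sum_congr rfl this, sum_ind hu (fun w => (B - cnt m cl w) * (8 * (s * N)))]
  rw [h1, h2, h3, h4, h5]
  obtain ⟨d, hd⟩ := Nat.exists_eq_add_of_le (hB u hu)
  have hd' : B - cnt m cl u = d := by omega
  rw [hd', hd]
  ring

theorem deg_hub (hl : Low m cl) (hs : 1 ≤ s * (8 * B + 2 * ρ)) {h : ℕ}
    (hh : h < hubs m s ρ) :
    S (lft (4 * m + h)) (edges m s ρ B cl) = s * hubs m s ρ * (8 * B + 2 * ρ) := by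
  rw [S_edges]
  have hN' : hubs m s ρ = 4 * m * s * (2 * ρ + 1) := rfl
  generalize hN : hubs m s ρ = N at hh hN'
  have h1 : (∑ i ∈ range N, ∑ i' ∈ range N,
      (s * (8 * B + 2 * ρ) - 1) • lft (4 * m + h) (4 * m + i, 4 * m + i', false)) =
      N * (s * (8 * B + 2 * ρ) - 1) := by
    have : ∀ i ∈ range N, (∑ i' ∈ range N,
      (s * (8 * B + 2 * ρ) - 1) • lft (4 * m + h) (4 * m + i, 4 * m + i', false)) =
        if i = h then N * (s * (8 * B + 2 * ρ) - 1) else 0 := by
      intro i _
      have hi' : 4 * m + i = 4 * m + h ↔ i = h := by omega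
      simp only [lft, hi', sum_const, card_range, smul_eq_mul]
      split_ifs <;> ring
    rw [sum_congr rfl this, sum_ind hh (fun _ => N * (s * (8 * B + 2 * ρ) - 1))]
  have h2 : (∑ w ∈ range (4 * m), ∑ i ∈ range N,
      (s * ρ) • S (lft (4 * m + h)) (nu w (4 * m + i))) = 4 * m * (s * ρ * 2) := by
    have : ∀ w ∈ range (4 * m), (∑ i ∈ range N,
        (s * ρ) • S (lft (4 * m + h)) (nu w (4 * m + i))) = s * ρ * 2 := by
      intro w hw
      rw [mem_range] at hw
      have h' : ∀ i ∈ range N, (s * ρ) • S (lft (4 * m + h)) (nu w (4 * m + i)) =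
          if i = h then s * ρ * 2 else 0 := by
        intro i _
        simp only [nu, S_cons, S_nil, lft, smul_eq_mul]
        have h0 : ¬ (w = 4 * m + h) := by omega
        have h0' : 4 * m + i = 4 * m + h ↔ i = h := by omega
        simp only [h0, h0', if_false]
        split_ifs <;> ring
      rw [sum_congr rfl h', sum_ind hh (fun _ => s * ρ * 2)]
    rw [sum_congr rfl this, sum_const, card_range, smul_eq_mul]
  have h3 : (∑ j ∈ range m, ∑ i ∈ range N,
      s • S (lft (4 * m + h)) (tg (3 * m + j) (cl j) (4 * m + i))) = m * (4 * s) := by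
    have : ∀ j ∈ range m, (∑ i ∈ range N,
        s • S (lft (4 * m + h)) (tg (3 * m + j) (cl j) (4 * m + i))) = 4 * s := by
      intro j hj
      rw [mem_range] at hj
      obtain ⟨g1, g2, g3⟩ := hl j hj
      have h' : ∀ i ∈ range N, s • S (lft (4 * m + h)) (tg (3 * m + j) (cl j) (4 * m + i)) =
          if i = h then 4 * s else 0 := by
        intro i _
        simp only [tg, S_cons, S_nil, lft, smul_eq_mul]
        have k1 : ¬ ((cl j).1.1 = 4 * m + h) := by omega
        have k2 : ¬ ((cl j).2.1.1 = 4 * m + h) := by omega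
        have k3 : ¬ ((cl j).2.2.1 = 4 * m + h) := by omega
        have k4 : ¬ (3 * m + j = 4 * m + h) := by omega
        have h0' : 4 * m + i = 4 * m + h ↔ i = h := by omega
        simp only [k1, k2, k3, k4, h0', if_false]
        split_ifs <;> ring
      rw [sum_congr rfl h', sum_ind hh (fun _ => 4 * s)]
    rw [sum_congr rfl this, sum_const, card_range, smul_eq_mul]
  have h4 : (∑ j ∈ range m, (s * N) • S (lft (4 * m + h)) (gad (3 * m + j) (cl j))) = 0 := by
    refine sum_eq_zero fun j hj => ?_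
    rw [mem_range] at hj
    obtain ⟨g1, g2, g3⟩ := hl j hj
    have k1 : ¬ ((cl j).1.1 = 4 * m + h) := by omega
    have k2 : ¬ ((cl j).2.1.1 = 4 * m + h) := by omega
    have k3 : ¬ ((cl j).2.2.1 = 4 * m + h) := by omega
    have k4 : ¬ (3 * m + j = 4 * m + h) := by omega
    simp only [gad, S_cons, S_nil, lft, smul_eq_mul, k1, k2, k3, k4, if_false]
    ring
  have h5 : (∑ w ∈ range (4 * m),
      (B - cnt m cl w) • (4 * (s * N)) • S (lft (4 * m + h)) (du w)) = 0 := by
    refine sum_eq_zero fun w hw => ?_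
    rw [mem_range] at hw
    have h0 : ¬ (w = 4 * m + h) := by omega
    simp only [du, S_cons, S_nil, lft, smul_eq_mul, h0, if_false]
    ring
  rw [h1, h2, h3, h4, h5]
  obtain ⟨d, hd⟩ := Nat.exists_eq_add_of_le hs
  have hd' : s * (8 * B + 2 * ρ) - 1 = d := by omega
  have hr : s * N * (8 * B + 2 * ρ) = N * (1 + d) := by rw [← hd]; ring
  rw [hd', hr]
  have hx : 4 * m * (s * ρ * 2) + m * (4 * s) = N := by rw [hN']; ring
  calc _ = N * d + (4 * m * (s * ρ * 2) + m * (4 * s)) := by ring
    _ = N * (1 + d) := by rw [hx]; ring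

theorem deg_all (hl : Low m cl) (hB : ∀ w < 4 * m, cnt m cl w ≤ B)
    (hs : 1 ≤ s * (8 * B + 2 * ρ)) {u : ℕ} (hu : u < 4 * m + hubs m s ρ) :
    S (lft u) (edges m s ρ B cl) = s * hubs m s ρ * (8 * B + 2 * ρ) := by
  rcases Nat.lt_or_ge u (4 * m) with h | h
  · exact deg_low hB h
  · obtain ⟨i, rfl⟩ := Nat.exists_eq_add_of_le h
    exact deg_hub hl hs (by omega)

/-- All ends are vertices. -/
theorem edges_lt (hl : Low m cl) {e : SE} (he : e ∈ edges m s ρ B cl) :
    e.1 < 4 * m + hubs m s ρ ∧ e.2.1 < 4 * m + hubs m s ρ := by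
  unfold edges at he
  simp only [List.mem_append] at he
  rcases he with he | he | he | he | he
  · simp only [e1, List.mem_flatMap, List.mem_range, List.mem_singleton] at he
    obtain ⟨i, hi, i', hi', _, _, rfl⟩ := he
    exact ⟨by simp only; omega, by simp only; omega⟩
  · simp only [e2, nu, List.mem_flatMap, List.mem_range, List.mem_cons, List.not_mem_nil,
      or_false] at he
    obtain ⟨i, hi, i', hi', _, _, he⟩ := he
    rcases he with rfl | rfl | rfl | rfl <;> exact ⟨by simp only; omega, by simp only; omega⟩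
  · simp only [e3, tg, List.mem_flatMap, List.mem_range, List.mem_cons, List.not_mem_nil,
      or_false] at he
    obtain ⟨j, hj, i', hi', _, _, he⟩ := he
    obtain ⟨g1, g2, g3⟩ := hl j hj
    rcases he with rfl | rfl | rfl | rfl | rfl | rfl | rfl | rfl <;>
      exact ⟨by simp only; omega, by simp only; omega⟩
  · simp only [e4, gad, List.mem_flatMap, List.mem_range, List.mem_cons, List.not_mem_nil,
      or_false] at he
    obtain ⟨j, hj, _, _, he⟩ := he
    obtain ⟨g1, g2, g3⟩ := hl j hj
    rcases he with rfl | rfl | rfl | rfl | rfl | rfl | rfl | rfl | rfl | rfl | rfl | rfl |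
      rfl | rfl | rfl | rfl | rfl | rfl | rfl | rfl | rfl | rfl | rfl | rfl | rfl | rfl |
      rfl | rfl <;>
      exact ⟨by simp only; omega, by simp only; omega⟩
  · simp only [e5, du, List.mem_flatMap, List.mem_range, List.mem_cons, List.not_mem_nil,
      or_false] at he
    obtain ⟨w, hw, _, _, _, _, he⟩ := he
    rcases he with rfl | rfl <;> exact ⟨by simp only; omega, by simp only; omega⟩

/-- The number of the edges. -/
theorem length_edges (hl : Low m cl) (hB : ∀ w < 4 * m, cnt m cl w ≤ B)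
    (hs : 1 ≤ s * (8 * B + 2 * ρ)) : (edges m s ρ B cl).length =
      (4 * m + hubs m s ρ) * (s * hubs m s ρ * (8 * B + 2 * ρ)) := by
  have h1 : ∀ l : List SE, (∀ e ∈ l, e.1 < 4 * m + hubs m s ρ) →
      l.length = ∑ u ∈ range (4 * m + hubs m s ρ), S (lft u) l := by
    intro l
    induction l with
    | nil => intro _; simp [S]
    | cons e l ih =>
      intro h
      simp only [S_cons, sum_add_distrib]
      rw [← ih fun e he => h e (List.mem_cons_of_mem _ he), List.length_cons]
      have : (∑ u ∈ range (4 * m + hubs m s ρ), lft u e) = 1 := by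
        unfold lft
        rw [sum_ite_eq, if_pos (mem_range.2 (h e List.mem_cons_self))]
      omega
  rw [h1 _ fun e he => (edges_lt hl he).1, sum_congr rfl fun u hu => deg_all hl hB hs
    (mem_range.1 hu), sum_const, card_range, smul_eq_mul]

end Pool.Agent.K6.H49.UGX
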