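import Pool.Agent.K6.H49.UGX.Pol

/-!
# The choice of the parameters
-/

set_option autoImplicit false

open Finset

namespace Pool.Agent.K6.H49.UGX

open Pool.Agent.NPC
open Pool.Agent.H243R3.TP (Clause occ)

/-- The real inequalities behind the choice of `ρ` and `s`. -/
theorem params {B K σ ε C : ℝ} (hB : 1 ≤ B) (hK : 1 ≤ K) (hσ : 0 < σ) (hσ1 : σ ≤ 1) (hε : 0 < ε)
    (hC : C = 1256 * K * B ^ 2) (hCε : C * ε ≤ σ ^ 2) : ∃ s ρ : ℕ, 1 ≤ s ∧ 1 ≤ ρ ∧
      18 * B ≤ σ * (8 * B + 2 * ρ) ∧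
      (ρ + 2 * B - 1) ≤ ε * ((1 + s * (2 * ρ + 1)) * (ρ + 4 * B)) ∧
      (1 + σ / C) * (ε * ((1 + s * (2 * ρ + 1)) * (ρ + 4 * B))) ≤
        (ρ + 2 * B - 1) + 1 / (2 * K) := by
  have hC0 : 0 < C := by rw [hC]; positivity
  -- the choice of ρ
  obtain ⟨ρ, hρ1, hρ2⟩ : ∃ ρ : ℕ, 9 * B / σ ≤ ρ ∧ (ρ : ℝ) ≤ 9 * B / σ + 1 := by
    refine ⟨⌈9 * B / σ⌉₊, Nat.le_ceil _, (Nat.ceil_lt_add_one (by positivity)).le⟩
  have hρσ : 9 * B ≤ ρ * σ := by rwa [div_le_iff₀ hσ] at hρ1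
  have hρσ2 : (ρ : ℝ) * σ ≤ 10 * B := by
    have : (ρ : ℝ) * σ ≤ (9 * B / σ + 1) * σ := mul_le_mul_of_nonneg_right hρ2 hσ.le
    have h2 : (9 * B / σ + 1) * σ = 9 * B + σ := by field_simp
    linarith
  have hρ9 : (9 : ℝ) ≤ ρ := by nlinarith
  -- the choice of s
  have hden : 0 < ε * (2 * ρ + 1) * (ρ + 4 * B) := by positivity
  have hnum : 0 < (ρ : ℝ) + 2 * B - 1 := by linarith
  obtain ⟨s, hs0, hs1, hs2⟩ : ∃ s : ℕ, 1 ≤ s ∧ (ρ + 2 * B - 1) ≤ s * (ε * (2 * ρ + 1) * (ρ + 4 * B)) ∧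
      s * (ε * (2 * ρ + 1) * (ρ + 4 * B)) ≤ (ρ + 2 * B - 1) + ε * (2 * ρ + 1) * (ρ + 4 * B) := by
    refine ⟨⌈(ρ + 2 * B - 1) / (ε * (2 * ρ + 1) * (ρ + 4 * B))⌉₊, ?_, ?_, ?_⟩
    · exact Nat.ceil_pos.2 (by positivity)
    · rw [← div_le_iff₀ hden]
      exact Nat.le_ceil _
    · have h := (Nat.ceil_lt_add_one
        (by positivity : 0 ≤ (ρ + 2 * B - 1) / (ε * (2 * ρ + 1) * (ρ + 4 * B)))).le
      have h2 := mul_le_mul_of_nonneg_right h hden.le
      have h3 : ((ρ + 2 * B - 1) / (ε * (2 * ρ + 1) * (ρ + 4 * B)) + 1) *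
          (ε * (2 * ρ + 1) * (ρ + 4 * B)) =
          (ρ + 2 * B - 1) + ε * (2 * ρ + 1) * (ρ + 4 * B) := by
        field_simp
      linarith
  refine ⟨s, ρ, hs0, by exact_mod_cast (by linarith : (1 : ℝ) ≤ ρ), ?_, ?_, ?_⟩
  · nlinarith
  · have : 0 ≤ ε * (ρ + 4 * B) := by positivity
    nlinarith
  · -- the error terms, multiplied by σ²
    have hε2 : 1256 * K * B ^ 2 * ε ≤ σ ^ 2 := by rw [← hC]; exact hCε
    have a1 : ((2 * ρ + 2) * σ) * ((ρ + 4 * B) * σ) ≤ (22 * B) * (14 * B) := by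
      have b1 : ((2 * ρ + 2) * σ) ≤ 22 * B := by nlinarith
      have b2 : (ρ + 4 * B) * σ ≤ 14 * B := by nlinarith
      exact mul_le_mul b1 b2 (by positivity) (by positivity)
    -- b = ε (2ρ+2)(ρ+4B) satisfies  K * b ≤ 308/1256
    have hb : K * (ε * (2 * ρ + 2) * (ρ + 4 * B)) ≤ 308 / 1256 := by
      have h1 : σ ^ 2 * (K * (ε * (2 * ρ + 2) * (ρ + 4 * B))) ≤ σ ^ 2 * (308 / 1256) := by
        have h2 : σ ^ 2 * (K * (ε * (2 * ρ + 2) * (ρ + 4 * B))) =
            (K * ε) * (((2 * ρ + 2) * σ) * ((ρ + 4 * B) * σ)) := by ring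
        rw [h2]
        calc (K * ε) * (((2 * ρ + 2) * σ) * ((ρ + 4 * B) * σ))
            ≤ (K * ε) * ((22 * B) * (14 * B)) := mul_le_mul_of_nonneg_left a1 (by positivity)
          _ = (1256 * K * B ^ 2 * ε) * (308 / 1256) := by ring
          _ ≤ σ ^ 2 * (308 / 1256) := mul_le_mul_of_nonneg_right hε2 (by norm_num)
      exact le_of_mul_le_mul_left h1 (by positivity)
    -- a σ / C ≤ 12 B / C
    have ha : K * ((ρ + 2 * B - 1) * (σ / C)) ≤ 12 / 1256 := by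
      have h1 : (ρ + 2 * B - 1) * σ ≤ 12 * B := by nlinarith
      have h2 : K * ((ρ + 2 * B - 1) * (σ / C)) = (K * ((ρ + 2 * B - 1) * σ)) / C := by ring
      rw [h2, div_le_iff₀ hC0, hC]
      have h3 : K * ((ρ + 2 * B - 1) * σ) ≤ K * (12 * B) := mul_le_mul_of_nonneg_left h1 (by positivity)
      have h4 : K * (12 * B) ≤ 12 / 1256 * (1256 * K * B ^ 2) := by
        have : K * B * 1 ≤ K * B * B := mul_le_mul_of_nonneg_left hB (by positivity)
        nlinarith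
      exact h3.trans h4
    have hσC : σ / C ≤ 1 := by
      rw [div_le_one hC0, hC]
      nlinarith [mul_nonneg (sub_nonneg.2 hK) (sub_nonneg.2 hB), mul_pos (by linarith : 0 < K) (by positivity : 0 < B ^ 2), one_le_pow₀ (n := 2) hB]
    have hσC0 : 0 ≤ σ / C := by positivity
    have hx : ε * ((1 + s * (2 * ρ + 1)) * (ρ + 4 * B)) ≤
        (ρ + 2 * B - 1) + ε * (2 * ρ + 2) * (ρ + 4 * B) := by
      have : ε * ((1 + s * (2 * ρ + 1)) * (ρ + 4 * B)) =
        s * (ε * (2 * ρ + 1) * (ρ + 4 * B)) + ε * (ρ + 4 * B) := by ring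
      rw [this]
      nlinarith
    generalize ε * ((1 + s * (2 * (ρ : ℝ) + 1)) * (ρ + 4 * B)) = X at hx ⊢
    generalize ε * (2 * (ρ : ℝ) + 2) * (ρ + 4 * B) = b at hb hx
    generalize (ρ : ℝ) + 2 * B - 1 = a at ha hx hnum ⊢
    generalize σ / C = t at *
    have hb0 : K * (b * (1 + t)) ≤ 308 / 1256 * 2 := by
      by_cases hbn : 0 ≤ b
      · have : K * (b * (1 + t)) = (K * b) * (1 + t) := by ring
        rw [this]
        exact mul_le_mul hb (by linarith) (by linarith) (by norm_num)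
      · push Not at hbn
        have : K * (b * (1 + t)) ≤ 0 := by
          have : b * (1 + t) ≤ 0 := by nlinarith
          nlinarith
        linarith [this]
    have h1 : (1 + t) * X ≤ (1 + t) * (a + b) := mul_le_mul_of_nonneg_left hx (by linarith)
    have h2 : K * ((1 + t) * (a + b)) ≤ K * (a + 1 / (2 * K)) := by
      have : K * (a + 1 / (2 * K)) = K * a + 1 / 2 := by field_simp
      rw [this]
      nlinarith
    exact h1.trans (le_of_mul_le_mul_left h2 (by linarith))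

/-- **Hardness on expanders.** -/
theorem main : ∃ C : ℝ, 0 < C ∧ ∀ σ ε : ℝ, 0 < σ → σ ≤ 1 → 0 < ε → C * ε ≤ σ ^ 2 →
    ∀ q : ℕ, 0 < q → Even q →
    ∀ L : Set (List Bool), InNP L → ∃ f : List Bool → List Bool, PolyTime f ∧
      ∀ x, ∃ (G : Game) (d : ℕ), f x = bits G ∧ IsUnique q G ∧ Regular G d ∧
        SecondLE G (σ * d) ∧ (x ∈ L → ValGE q G (1 - ε)) ∧
        (x ∉ L → ValLE q G (1 - (1 + σ / C) * ε)) := by
  set B : ℕ := H243R3.PCP.Bd + 1 with hBdef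
  set K : ℕ := DP.K0 + 1 with hKdef
  have hB1 : 1 ≤ B := by omega
  have hK1 : 1 ≤ K := by omega
  refine ⟨1256 * K * (B : ℝ) ^ 2, by positivity, ?_⟩
  intro σ ε hσ hσ1 hε hCε q hq hqe L hL
  obtain ⟨h, rfl⟩ := hqe
  have hh : 1 ≤ h := by omega
  obtain ⟨s, ρ, hs, hρ, p1, p2, p3⟩ := params (B := (B : ℝ)) (K := (K : ℝ))
    (by exact_mod_cast hB1) (by exact_mod_cast hK1) hσ hσ1 hε rfl hCε
  obtain ⟨f, hf, hfx⟩ := DP.gap3Sat hL
  have hpc : PC (fun x : List Bool => x) (bits : Game → List Bool)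
      (fun x => game h s ρ B (f x)) :=
    PC.comp (eb := (bits : Fm → List Bool)) (poly_game h s ρ B) hf
  refine ⟨fun x => bits (game h s ρ B (f x)), PC.toPolyTime hpc, fun x => ?_⟩
  obtain ⟨hne, hbd, hyes, hno⟩ := hfx x
  beta_reduce
  generalize f x = φ at hne hbd hyes hno ⊢
  have hb : ∀ v, (occ φ).count v ≤ B := fun v => (hbd v).trans (by omega)
  have hm : 0 < φ.length := List.length_pos_iff.2 hne
  have hmR : (0 : ℝ) < φ.length := by exact_mod_cast hm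
  have hlen := length_game (h := h) (s := s) (ρ := ρ) hb hB1 hs
  have hN : 0 < s * hubs φ.length s ρ := Nat.mul_pos hs (hub_pos hne hs)
  have hNR : (0 : ℝ) < ((s * hubs φ.length s ρ : ℕ) : ℝ) := by exact_mod_cast hN
  refine ⟨game h s ρ B φ, s * hubs φ.length s ρ * (8 * B + 2 * ρ), rfl,
    game_unique hne hb hB1 hs, game_regular hb hB1 hs, ?_, fun hx => ?_, fun hx => ?_⟩
  · intro g g' hg hg'
    refine (game_second hb hB1 hs hρ g g' hg hg').trans (mul_le_mul_of_nonneg_right ?_ (by positivity))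
    push_cast
    have : (0 : ℝ) ≤ s * hubs φ.length s ρ := by positivity
    calc (18 : ℝ) * B * (s * hubs φ.length s ρ) ≤ (σ * (8 * B + 2 * ρ)) * (s * hubs φ.length s ρ) :=
          mul_le_mul_of_nonneg_right p1 this
      _ = _ := by ring
  · obtain ⟨A, _, _, hA⟩ := hyes hx
    obtain ⟨g, hg⟩ := game_yes (s := s) (ρ := ρ) hh hb hB1 A hA
    refine ⟨g, g, ?_⟩
    generalize numSat (game h s ρ B φ) g g = V at hg ⊢
    generalize (game h s ρ B φ).2.length = E at hlen hg ⊢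
    generalize s * hubs φ.length s ρ = M at hlen hg hN hNR
    have hg' : (E : ℝ) + 8 * φ.length * M ≤ V + M * (φ.length * (8 * ρ + 16 * B)) := by
      exact_mod_cast hg
    have hlen' : (E : ℝ) = M * (8 * φ.length * ((1 + s * (2 * ρ + 1)) * (ρ + 4 * B))) := by
      rw [hlen]; push_cast; ring
    have h1 := mul_le_mul_of_nonneg_left p2 (by positivity : (0 : ℝ) ≤ 8 * φ.length * M)
    have h2 : ε * (E : ℝ) = 8 * φ.length * M * (ε * ((1 + s * (2 * ρ + 1)) * (ρ + 4 * B))) := by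
      rw [hlen']; ring
    have h3 : (1 - ε) * (E : ℝ) = E - ε * E := by ring
    rw [h3, h2]
    nlinarith
  · intro g g'
    obtain ⟨u, hu1, hu2⟩ : ∃ u : ℕ, φ.length ≤ K * u ∧ ∀ t : ℕ, φ.length ≤ K * t → u ≤ t := by
      refine ⟨Nat.find (p := fun u => φ.length ≤ K * u)
        ⟨φ.length, Nat.le_mul_of_pos_left _ hK1⟩, Nat.find_spec (p := fun u => φ.length ≤ K * u)
        ⟨φ.length, Nat.le_mul_of_pos_left _ hK1⟩, fun t ht => Nat.find_min' _ ht⟩
    have hg := game_no (s := s) (ρ := ρ) (K := K) (u := u) hne hb hB1 hs hρ (fun A => by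
      refine (hno hx A).trans (Nat.mul_le_mul_right _ (by omega))) hu2 g g'
    generalize numSat (game h s ρ B φ) g g' = V at hg ⊢
    generalize (game h s ρ B φ).2.length = E at hlen hg ⊢
    generalize s * hubs φ.length s ρ = M at hlen hg hN hNR
    have hg' : (V : ℝ) + M * (φ.length * (8 * ρ + 16 * B) + 4 * u) ≤ E + 8 * φ.length * M := by
      exact_mod_cast hg
    have hlen' : (E : ℝ) = M * (8 * φ.length * ((1 + s * (2 * ρ + 1)) * (ρ + 4 * B))) := by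
      rw [hlen]; push_cast; ring
    have hu' : (φ.length : ℝ) ≤ K * u := by exact_mod_cast hu1
    have hKR : (0 : ℝ) < K := by exact_mod_cast hK1
    have hu'' : (φ.length : ℝ) * (1 / (2 * K)) ≤ u / 2 := by
      rw [mul_one_div, div_le_iff₀ (by positivity)]
      nlinarith
    have h1 := mul_le_mul_of_nonneg_left p3 (by positivity : (0 : ℝ) ≤ 8 * φ.length * M)
    have h2 : (1 + σ / (1256 * K * (B : ℝ) ^ 2)) * ε * (E : ℝ) =
        8 * φ.length * M * ((1 + σ / (1256 * K * (B : ℝ) ^ 2)) *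
          (ε * ((1 + s * (2 * ρ + 1)) * (ρ + 4 * B)))) := by
      rw [hlen']; ring
    have h3 : (1 - (1 + σ / (1256 * K * (B : ℝ) ^ 2)) * ε) * (E : ℝ) =
        E - (1 + σ / (1256 * K * (B : ℝ) ^ 2)) * ε * (E : ℝ) := by ring
    rw [h3, h2]
    have h4 : 8 * (φ.length : ℝ) * M * ((ρ + 2 * B - 1) + 1 / (2 * K)) ≤
        8 * φ.length * M * (ρ + 2 * B - 1) + 8 * M * (u / 2) := by
      have := mul_le_mul_of_nonneg_left hu'' (by positivity : (0 : ℝ) ≤ 8 * M)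
      nlinarith
    nlinarith

end Pool.Agent.K6.H49.UGX
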