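import Mathlib

/-!
# The signed graph of the reduction, and sums over its edges
-/

set_option autoImplicit false

open Finset

namespace Pool.Agent.K6.H49.UGX

/-- A signed edge. -/
abbrev SE : Type := ℕ × ℕ × Bool

/-- A clause: three pairs of a vertex and a sign. -/
abbrev Cl : Type := (ℕ × Bool) × (ℕ × Bool) × (ℕ × Bool)

section Sums

variable {R : Type} [AddCommMonoid R]

/-- The sum of `F` over the list. -/
def S (F : SE → R) (l : List SE) : R := (l.map F).sum

theorem S_nil (F : SE → R) : S F [] = 0 := rfl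

theorem S_cons (F : SE → R) (e : SE) (l : List SE) : S F (e :: l) = F e + S F l := by
  simp [S]

theorem S_append (F : SE → R) (l l' : List SE) : S F (l ++ l') = S F l + S F l' := by
  simp [S]

theorem S_range (F : SE → R) (n : ℕ) (g : ℕ → List SE) :
    S F ((List.range n).flatMap g) = ∑ i ∈ range n, S F (g i) := by
  induction n with
  | zero => simp [S]
  | succ n ih =>
    rw [List.range_succ, List.flatMap_append, S_append, ih, sum_range_succ]
    simp [S]

theorem S_rep (F : SE → R) (n : ℕ) (l : List SE) :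
    S F ((List.range n).flatMap fun _ => l) = n • S F l := by
  rw [S_range]
  simp

end Sums

/-! ### The edges -/

/-- Hub-hub edges. -/
def e1 (m N r : ℕ) : List SE :=
  (List.range N).flatMap fun i => (List.range N).flatMap fun i' =>
    (List.range r).flatMap fun _ => [(4 * m + i, 4 * m + i', false)]

/-- Neutral edges between a vertex `w` and a hub `h`. -/
def nu (w h : ℕ) : List SE := [(w, h, false), (w, h, true), (h, w, false), (h, w, true)]

def e2 (m N k : ℕ) : List SE :=
  (List.range (4 * m)).flatMap fun w => (List.range N).flatMap fun i =>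
    (List.range k).flatMap fun _ => nu w (4 * m + i)

/-- The edges between the vertices of a clause and the hub `h`. -/
def tg (t : ℕ) (c : Cl) (h : ℕ) : List SE :=
  [(c.1.1, h, !c.1.2), (h, c.1.1, !c.1.2), (c.2.1.1, h, !c.2.1.2), (h, c.2.1.1, !c.2.1.2),
    (c.2.2.1, h, !c.2.2.2), (h, c.2.2.1, !c.2.2.2), (t, h, true), (h, t, true)]

def e3 (m N s : ℕ) (cl : ℕ → Cl) : List SE :=
  (List.range m).flatMap fun j => (List.range N).flatMap fun i =>
    (List.range s).flatMap fun _ => tg (3 * m + j) (cl j) (4 * m + i)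

/-- The edges of a clause. -/
def gad (t : ℕ) (c : Cl) : List SE :=
  [(c.1.1, c.2.1.1, !(c.1.2 ^^ c.2.1.2)), (c.2.1.1, c.1.1, !(c.1.2 ^^ c.2.1.2)),
    (c.2.1.1, c.2.2.1, !(c.2.1.2 ^^ c.2.2.2)), (c.2.2.1, c.2.1.1, !(c.2.1.2 ^^ c.2.2.2)),
    (c.1.1, c.2.2.1, !(c.1.2 ^^ c.2.2.2)), (c.2.2.1, c.1.1, !(c.1.2 ^^ c.2.2.2)),
    (c.1.1, t, !c.1.2), (t, c.1.1, !c.1.2),
    (c.2.1.1, t, !c.2.1.2), (t, c.2.1.1, !c.2.1.2),
    (c.2.2.1, t, !c.2.2.2), (t, c.2.2.1, !c.2.2.2),
    (c.1.1, c.1.1, false), (c.1.1, c.1.1, false), (c.1.1, c.1.1, false), (c.1.1, c.1.1, false),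
    (c.2.1.1, c.2.1.1, false), (c.2.1.1, c.2.1.1, false), (c.2.1.1, c.2.1.1, false),
    (c.2.1.1, c.2.1.1, false),
    (c.2.2.1, c.2.2.1, false), (c.2.2.1, c.2.2.1, false), (c.2.2.1, c.2.2.1, false),
    (c.2.2.1, c.2.2.1, false),
    (t, t, false), (t, t, false), (t, t, false), (t, t, false)]

def e4 (m K : ℕ) (cl : ℕ → Cl) : List SE :=
  (List.range m).flatMap fun j => (List.range K).flatMap fun _ => gad (3 * m + j) (cl j)

/-- The vertices of the clauses, with multiplicity. -/
def occs (m : ℕ) (cl : ℕ → Cl) : List ℕ :=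
  (List.range m).flatMap fun j => [(cl j).1.1, (cl j).2.1.1, (cl j).2.2.1, 3 * m + j]

/-- The number of the occurrences of `w`. -/
def cnt (m : ℕ) (cl : ℕ → Cl) (w : ℕ) : ℕ := ((occs m cl).filter fun v => decide (v = w)).length

def du (w : ℕ) : List SE := [(w, w, false), (w, w, true)]

def e5 (m B K : ℕ) (cl : ℕ → Cl) : List SE :=
  (List.range (4 * m)).flatMap fun w => (List.range (B - cnt m cl w)).flatMap fun _ =>
    (List.range K).flatMap fun _ => du w

/-- The number of the hubs. -/
def hubs (m s ρ : ℕ) : ℕ := 4 * m * s * (2 * ρ + 1)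

def edges (m s ρ B : ℕ) (cl : ℕ → Cl) : List SE :=
  e1 m (hubs m s ρ) (s * (8 * B + 2 * ρ) - 1) ++ (e2 m (hubs m s ρ) (s * ρ) ++
    (e3 m (hubs m s ρ) s cl ++ (e4 m (s * hubs m s ρ) cl ++
      e5 m B (4 * (s * hubs m s ρ)) cl)))

theorem cnt_eq (m : ℕ) (cl : ℕ → Cl) (w : ℕ) : cnt m cl w =
    ∑ j ∈ range m, ((if (cl j).1.1 = w then 1 else 0) + (if (cl j).2.1.1 = w then 1 else 0) +
      (if (cl j).2.2.1 = w then 1 else 0) + (if 3 * m + j = w then 1 else 0)) := by
  unfold cnt occs
  generalize 3 * m = M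
  induction m with
  | zero => simp
  | succ n ih =>
    rw [List.range_succ, List.flatMap_append, List.filter_append, List.length_append, ih,
      sum_range_succ]
    congr 1
    simp only [List.flatMap_cons, List.flatMap_nil, List.append_nil, List.filter_cons,
      List.filter_nil, decide_eq_true_eq]
    split_ifs <;> rfl

section Sums

variable {R : Type} [AddCommMonoid R]

theorem S_edges (F : SE → R) (m s ρ B : ℕ) (cl : ℕ → Cl) : S F (edges m s ρ B cl) =
    (∑ i ∈ range (hubs m s ρ), ∑ i' ∈ range (hubs m s ρ),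
      (s * (8 * B + 2 * ρ) - 1) • F (4 * m + i, 4 * m + i', false)) +
    ((∑ w ∈ range (4 * m), ∑ i ∈ range (hubs m s ρ), (s * ρ) • S F (nu w (4 * m + i))) +
    ((∑ j ∈ range m, ∑ i ∈ range (hubs m s ρ), s • S F (tg (3 * m + j) (cl j) (4 * m + i))) +
    ((∑ j ∈ range m, (s * hubs m s ρ) • S F (gad (3 * m + j) (cl j))) +
    (∑ w ∈ range (4 * m), (B - cnt m cl w) • (4 * (s * hubs m s ρ)) • S F (du w))))) := by
  unfold edges e1 e2 e3 e4 e5
  rw [S_append, S_append, S_append, S_append]
  simp only [S_range]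
  simp only [S_cons, S_nil, add_zero, sum_const, card_range]

/-- The sum over the edges is symmetric in the two sides. -/
theorem S_swap (F : SE → R) (m s ρ B : ℕ) (cl : ℕ → Cl) :
    S (fun e => F (e.2.1, e.1, e.2.2)) (edges m s ρ B cl) = S F (edges m s ρ B cl) := by
  rw [S_edges, S_edges]
  congr 1
  · rw [sum_comm]
  congr 1
  · refine sum_congr rfl fun w _ => sum_congr rfl fun i _ => ?_
    congr 1
    simp only [nu, S_cons, S_nil]
    abel
  congr 1
  · refine sum_congr rfl fun w _ => sum_congr rfl fun i _ => ?_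
    congr 1
    simp only [tg, S_cons, S_nil]
    abel
  congr 1
  · refine sum_congr rfl fun w _ => ?_
    congr 1
    simp only [gad, S_cons, S_nil]
    abel

end Sums

end Pool.Agent.K6.H49.UGX
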