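import Pool.Agent.K6.H49.UGX.Pow
import Pool.Agent.K6.H49.UGX.Viol

/-!
# Local optima near an optimal labeling
-/

set_option autoImplicit false

open Finset

namespace Pool.Agent.K6.H49.UGX

/-- The number of the violated edges. -/
noncomputable def V (l : List SE) (f g : ℕ → Bool) : ℝ := S (fun e => (vio f g e : ℝ)) l

/-- No change of a single label lowers the number of the violated edges. -/
def Local (n d : ℕ) (l : List SE) (f g : ℕ → Bool) : Prop :=
  (∀ u < n, 2 * S (fun e => if e.1 = u then (vio f g e : ℝ) else 0) l ≤ d) ∧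
  ∀ v < n, 2 * S (fun e => if e.2.1 = v then (vio f g e : ℝ) else 0) l ≤ d

theorem vc_le (x y z : Bool) : vc x y z ≤ 1 := by
  unfold vc
  split_ifs <;> omega

theorem vio_nonneg (f g : ℕ → Bool) (e : SE) : (0 : ℝ) ≤ vio f g e := by positivity

theorem vio_le_one (f g : ℕ → Bool) (e : SE) : (vio f g e : ℝ) ≤ 1 := by
  exact_mod_cast vc_le _ _ _

theorem V_nonneg (l : List SE) (f g : ℕ → Bool) : 0 ≤ V l f g :=
  S_nonneg fun e _ => vio_nonneg f g e

/-- The real indicator of a difference. -/
def df (f f' : ℕ → Bool) (u : ℕ) : ℝ := if f u = f' u then 0 else 1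

theorem df_cases (f f' : ℕ → Bool) (u : ℕ) : df f f' u = 0 ∨ df f f' u = 1 := by
  unfold df
  split_ifs <;> simp

theorem vio_df (f g f' g' : ℕ → Bool) (e : SE) : (vio f g e : ℝ) =
    (vio f' g' e : ℝ) + (df f f' e.1 + df g g' e.2.1 - 2 * (df f f' e.1 * df g g' e.2.1)) *
      (1 - 2 * (vio f' g' e : ℝ)) := by
  unfold vio df
  generalize f e.1 = x
  generalize g e.2.1 = y
  generalize f' e.1 = x'
  generalize g' e.2.1 = y'
  generalize e.2.2 = z
  cases x <;> cases y <;> cases x' <;> cases y' <;> cases z <;> norm_num [vc]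

theorem V_not (l : List SE) (f g : ℕ → Bool) (s : Bool) :
    V l (fun u => f u ^^ s) (fun v => g v ^^ s) = V l f g := by
  unfold V
  refine S_congr fun e _ => ?_
  unfold vio
  simp only
  generalize f e.1 = x
  generalize g e.2.1 = y
  generalize e.2.2 = z
  cases x <;> cases y <;> cases s <;> cases z <;> norm_num [vc]

section Close

variable {n d : ℕ} {σ : ℝ} {l : List SE}

theorem sum_df_le (f f' : ℕ → Bool) : ∑ u ∈ range n, df f f' u ≤ n := by
  calc _ ≤ ∑ u ∈ range n, (1 : ℝ) := sum_le_sum fun u _ => by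
        rcases df_cases f f' u with h | h <;> rw [h] <;> norm_num
    _ = n := by simp

theorem sum_df_nonneg (f f' : ℕ → Bool) : 0 ≤ ∑ u ∈ range n, df f f' u :=
  sum_nonneg fun u _ => by rcases df_cases f f' u with h | h <;> rw [h]; norm_num

theorem sum_df_sq (f f' : ℕ → Bool) : ∑ u ∈ range n, df f f' u ^ 2 = ∑ u ∈ range n, df f f' u :=
  sum_congr rfl fun u _ => by rcases df_cases f f' u with h | h <;> rw [h] <;> norm_num

/-- Two labelings with few violated edges are close to each other, or to the complements. -/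
theorem close_or (h : Xp n d σ l) (hσ : σ ≤ 1 / 2) (f g f' g' : ℕ → Bool) {t : ℝ}
    (ht : 2 * (V l f g + V l f' g') ≤ t * (d * n)) (ht4 : t < 1 / 4) :
    (∑ u ∈ range n, df f f' u ≤ t * n ∧ ∑ u ∈ range n, df g g' u ≤ t * n) ∨
    (n - ∑ u ∈ range n, df f f' u ≤ t * n ∧ n - ∑ u ∈ range n, df g g' u ≤ t * n) := by
  have hn : (0 : ℝ) < n := by exact_mod_cast h.npos
  have hd : (0 : ℝ) < d := by exact_mod_cast h.dpos
  have cut : S (fun e => df f f' e.1 + df g g' e.2.1 -
      2 * (df f f' e.1 * df g g' e.2.1)) l ≤ V l f g + V l f' g' := by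
    unfold V
    rw [← S_add]
    refine S_le fun e _ => ?_
    have h1 := vio_df f g f' g' e
    have h2 := vio_nonneg f g e
    have h3 := vio_nonneg f' g' e
    have h4 := vio_le_one f g e
    have h5 := vio_le_one f' g' e
    rcases df_cases f f' e.1 with h6 | h6 <;> rcases df_cases g g' e.2.1 with h7 | h7 <;>
      rw [h6, h7] at h1 ⊢ <;> linarith
  have e1 : S (fun e => df f f' e.1 + df g g' e.2.1 -
      2 * (df f f' e.1 * df g g' e.2.1)) l = d * (∑ u ∈ range n, df f f' u) +
        d * (∑ u ∈ range n, df g g' u) - 2 * S (fun e => df f f' e.1 * df g g' e.2.1) l := by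
    rw [← h.sum_left, ← h.sum_right, ← S_add]
    have : ∀ a b : ℝ, a - 2 * b = a + (-2) * b := fun a b => by ring
    rw [this, ← S_mul, ← S_add]
    exact S_congr fun e _ => by ring
  have mix := (abs_le.1 (h.bil_le (df f f') (df g g'))).2
  rw [sum_df_sq, sum_df_sq] at mix
  rw [e1] at cut
  have a0 := sum_df_nonneg (n := n) f f'
  have a1 := sum_df_le (n := n) f f'
  have b0 := sum_df_nonneg (n := n) g g'
  have b1 := sum_df_le (n := n) g g'
  generalize (∑ u ∈ range n, df f f' u) = A at *
  generalize (∑ u ∈ range n, df g g' u) = B at *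
  generalize S (fun e => df f f' e.1 * df g g' e.2.1) l = X at *
  generalize V l f g + V l f' g' = W at *
  -- normalization
  obtain ⟨x, hx⟩ : ∃ x, A = x * n := ⟨A / n, by field_simp⟩
  obtain ⟨y, hy⟩ : ∃ y, B = y * n := ⟨B / n, by field_simp⟩
  subst hx hy
  have x0 : 0 ≤ x := nonneg_of_mul_nonneg_left a0 hn
  have y0 : 0 ≤ y := nonneg_of_mul_nonneg_left b0 hn
  have x1 : x ≤ 1 := by
    by_contra hc; push Not at hc; nlinarith
  have y1 : y ≤ 1 := by
    by_contra hc; push Not at hc; nlinarith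
  have r1 : x * n - (x * n) ^ 2 / n = n * (x * (1 - x)) := by field_simp
  have r2 : y * n - (y * n) ^ 2 / n = n * (y * (1 - y)) := by field_simp
  rw [r1, r2] at mix
  have r3 : √(n * (x * (1 - x))) * √(n * (y * (1 - y))) ≤ n * ((x + y - 2 * (x * y)) / 2) := by
    rw [← Real.sqrt_mul (by have : 0 ≤ x * (1 - x) := mul_nonneg x0 (by linarith)
                            positivity)]
    refine Real.sqrt_le_iff.2 ⟨?_, ?_⟩
    · have : 0 ≤ x + y - 2 * (x * y) := by nlinarith
      positivity
    · have : n * (x * (1 - x)) * (n * (y * (1 - y))) = n ^ 2 * ((x * (1 - y)) * (y * (1 - x))) := by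
        ring
      rw [this, mul_pow]
      refine mul_le_mul_of_nonneg_left ?_ (by positivity)
      nlinarith [sq_nonneg (x * (1 - y) - y * (1 - x))]
  have hσ0 := h.nonneg
  have r4 : X ≤ d * n * (x * y) + σ * d * (n * ((x + y - 2 * (x * y)) / 2)) := by
    have r5 : σ * d * (√(n * (x * (1 - x))) * √(n * (y * (1 - y)))) ≤
        σ * d * (n * ((x + y - 2 * (x * y)) / 2)) :=
      mul_le_mul_of_nonneg_left r3 (by positivity)
    have r6 : d / n * (x * n * (y * n)) = d * n * (x * y) := by field_simp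
    rw [r6] at mix
    linarith
  have hq : 0 ≤ x + y - 2 * (x * y) := by nlinarith
  have r7 : x + y - 2 * (x * y) ≤ t := by
    have r8 : (d * n) * ((1 - σ) * (x + y - 2 * (x * y))) ≤ (d * n) * (t / 2) := by
      nlinarith
    have r9 : (1 - σ) * (x + y - 2 * (x * y)) ≤ t / 2 :=
      le_of_mul_le_mul_left r8 (by positivity)
    nlinarith
  rcases le_or_gt x (1 / 2) with hx2 | hx2
  · have hy2 : y ≤ 1 / 2 := by
      by_contra hc
      push Not at hc
      nlinarith
    left
    constructor
    · exact mul_le_mul_of_nonneg_right (by nlinarith) hn.le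
    · exact mul_le_mul_of_nonneg_right (by nlinarith) hn.le
  · have hy2 : 1 / 2 < y := by
      by_contra hc
      push Not at hc
      nlinarith
    right
    have g1 : 1 - x ≤ t := by nlinarith
    have g2 : 1 - y ≤ t := by nlinarith
    constructor
    · nlinarith
    · nlinarith

/-- A local optimum which is close to a labeling is almost as good. -/
theorem local_le (h : Xp n d σ l) {f g f' g' : ℕ → Bool} (hloc : Local n d l f g) {t : ℝ}
    (hf : ∑ u ∈ range n, df f f' u ≤ t * n) (hg : ∑ u ∈ range n, df g g' u ≤ t * n)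
    (ht : t + σ ≤ 1 / 4) :
    V l f g ≤ (1 + 16 * (V l f' g' / (d * n)) + 4 * σ) * V l f' g' := by
  have hn : (0 : ℝ) < n := by exact_mod_cast h.npos
  have hd : (0 : ℝ) < d := by exact_mod_cast h.dpos
  have hσ0 := h.nonneg
  set α := df f f' with hα
  set β := df g g' with hβ
  have αc : ∀ u, α u = 0 ∨ α u = 1 := df_cases f f'
  have βc : ∀ u, β u = 0 ∨ β u = 1 := df_cases g g'
  have a0 : 0 ≤ ∑ u ∈ range n, α u := sum_df_nonneg f f'
  have b0 : 0 ≤ ∑ u ∈ range n, β u := sum_df_nonneg g g'
  have mix := (abs_le.1 (h.bil_le' α β)).2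
  rw [sum_df_sq, sum_df_sq, ← hα, ← hβ, abs_of_nonneg a0, abs_of_nonneg b0] at mix
  -- the values
  set E := S (fun e => α e.1 * β e.2.1) l with hE
  set v1 := S (fun e => α e.1 * (1 - β e.2.1) * (vio f' g' e : ℝ)) l with hv1
  set v2 := S (fun e => (1 - α e.1) * β e.2.1 * (vio f' g' e : ℝ)) l with hv2
  set E1 := S (fun e => α e.1 * β e.2.1 * (vio f' g' e : ℝ)) l with hE1
  have E1n : 0 ≤ E1 := S_nonneg fun e _ => by
    have := vio_nonneg f' g' e
    rcases αc e.1 with h1 | h1 <;> rcases βc e.2.1 with h2 | h2 <;> rw [h1, h2] <;> linarith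
  have hsum : ∀ F G : SE → ℝ, S (fun e => F e - G e) l = S F l - S G l := by
    intro F G
    have : ∀ a b : ℝ, a - b = a + (-1) * b := fun a b => by ring
    rw [this, ← S_mul, ← S_add]
    exact S_congr fun e _ => by ring
  -- V in terms of V'
  have vV : V l f g = V l f' g' + (d * (∑ u ∈ range n, α u) - E - 2 * v1) +
      (d * (∑ u ∈ range n, β u) - E - 2 * v2) := by
    rw [← h.sum_left, ← h.sum_right, hE, hv1, hv2, V, V, ← S_mul, ← S_mul, ← hsum, ← hsum, ← hsum,
      ← hsum, ← S_add, ← S_add]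
    refine S_congr fun e _ => ?_
    rw [vio_df f g f' g' e]
    ring
  -- local optimality
  have left1 : 2 * S (fun e => α e.1 * (vio f g e : ℝ)) l ≤ d * ∑ u ∈ range n, α u := by
    rw [S_left (fun e he => (h.lt e he).1), mul_sum, mul_sum]
    refine sum_le_sum fun u hu => ?_
    have h1 := hloc.1 u (mem_range.1 hu)
    have h2 : S (fun e => if e.1 = u then α e.1 * (vio f g e : ℝ) else 0) l =
        α u * S (fun e => if e.1 = u then (vio f g e : ℝ) else 0) l := by
      rw [← S_mul]
      refine S_congr fun e _ => ?_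
      split_ifs with h3
      · rw [h3]
      · ring
    rw [h2]
    rcases αc u with h3 | h3 <;> rw [h3] <;> linarith
  have right1 : 2 * S (fun e => β e.2.1 * (vio f g e : ℝ)) l ≤ d * ∑ u ∈ range n, β u := by
    rw [S_right (fun e he => (h.lt e he).2), mul_sum, mul_sum]
    refine sum_le_sum fun u hu => ?_
    have h1 := hloc.2 u (mem_range.1 hu)
    have h2 : S (fun e => if e.2.1 = u then β e.2.1 * (vio f g e : ℝ) else 0) l =
        β u * S (fun e => if e.2.1 = u then (vio f g e : ℝ) else 0) l := by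
      rw [← S_mul]
      refine S_congr fun e _ => ?_
      split_ifs with h3
      · rw [h3]
      · ring
    rw [h2]
    rcases βc u with h3 | h3 <;> rw [h3] <;> linarith
  have left2 : S (fun e => α e.1 * (vio f g e : ℝ)) l =
      d * (∑ u ∈ range n, α u) - E - v1 + E1 := by
    rw [← h.sum_left, hE, hv1, hE1, ← hsum, ← hsum, ← S_add]
    refine S_congr fun e _ => ?_
    rw [vio_df f g f' g' e, ← hα, ← hβ]
    rcases αc e.1 with h1 | h1 <;> rcases βc e.2.1 with h2 | h2 <;> rw [h1, h2] <;> ring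
  have right2 : S (fun e => β e.2.1 * (vio f g e : ℝ)) l =
      d * (∑ u ∈ range n, β u) - E - v2 + E1 := by
    rw [← h.sum_right, hE, hv2, hE1, ← hsum, ← hsum, ← S_add]
    refine S_congr fun e _ => ?_
    rw [vio_df f g f' g' e, ← hα, ← hβ]
    rcases αc e.1 with h1 | h1 <;> rcases βc e.2.1 with h2 | h2 <;> rw [h1, h2] <;> ring
  have vsum : v1 + v2 ≤ V l f' g' := by
    rw [hv1, hv2, ← S_add, V]
    refine S_le fun e _ => ?_
    have := vio_nonneg f' g' e
    rcases αc e.1 with h1 | h1 <;> rcases βc e.2.1 with h2 | h2 <;> rw [h1, h2] <;> linarith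
  have hVn := V_nonneg l f' g'
  rw [left2] at left1
  rw [right2] at right1
  rw [vV]
  generalize V l f' g' = W at *
  clear_value E v1 v2 E1
  generalize (∑ u ∈ range n, α u) = A at *
  generalize (∑ u ∈ range n, β u) = B at *
  -- bound for E
  have hs : √A * √B ≤ (A + B) / 2 := by
    nlinarith [sq_nonneg (√A - √B), Real.sq_sqrt a0, Real.sq_sqrt b0]
  have hE' : ∀ τ : ℝ, A ≤ τ * n → B ≤ τ * n → E ≤ d * ((τ + σ) * ((A + B) / 2)) := by
    intro τ h1 h2
    have h3 : A * B ≤ n * (τ * ((A + B) / 2)) := by nlinarith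
    have h4 : d / n * (A * B) ≤ d * (τ * ((A + B) / 2)) := by
      calc d / n * (A * B) ≤ d / n * (n * (τ * ((A + B) / 2))) :=
            mul_le_mul_of_nonneg_left h3 (by positivity)
        _ = _ := by field_simp
    have h5 : σ * d * (√A * √B) ≤ σ * d * ((A + B) / 2) :=
      mul_le_mul_of_nonneg_left hs (by positivity)
    linarith
  have hE2 := hE' t hf hg
  have hAB : 0 ≤ A + B := by linarith
  have hE3 : E ≤ d * ((A + B) / 8) := by
    refine hE2.trans (mul_le_mul_of_nonneg_left ?_ hd.le)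
    nlinarith
  have hAB2 : d * (A + B) ≤ 4 * W := by nlinarith
  have hτ : A ≤ 4 * (W / (d * n)) * n ∧ B ≤ 4 * (W / (d * n)) * n := by
    have e2 : 4 * (W / (d * n)) * n = 4 * W / d := by field_simp
    rw [e2, le_div_iff₀ hd, le_div_iff₀ hd]
    constructor <;> nlinarith
  have hE4 := hE' _ hτ.1 hτ.2
  have hE5 : E ≤ (4 * (W / (d * n)) + σ) * (2 * W) := by
    have h1 : 0 ≤ 4 * (W / (d * n)) + σ := by positivity
    calc E ≤ d * ((4 * (W / (d * n)) + σ) * ((A + B) / 2)) := hE4
      _ = (4 * (W / (d * n)) + σ) * (d * (A + B) / 2) := by ring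
      _ ≤ (4 * (W / (d * n)) + σ) * (2 * W) := mul_le_mul_of_nonneg_left (by linarith) h1
  nlinarith

end Close

end Pool.Agent.K6.H49.UGX
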