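import Pool.Agent.K6.H49.UGX.Inst

/-!
# Regular lists of edges: mixing, and the norm of the violated part
-/

set_option autoImplicit false

open Finset

namespace Pool.Agent.K6.H49.UGX

/-- A `d`-regular list of edges on `n + n` vertices whose second singular value is at most
`σ d`. -/
structure Xp (n d : ℕ) (σ : ℝ) (l : List SE) : Prop where
  npos : 0 < n
  dpos : 0 < d
  lt : ∀ e ∈ l, e.1 < n ∧ e.2.1 < n
  left : ∀ u < n, S (fun e => if e.1 = u then (1 : ℝ) else 0) l = d
  right : ∀ v < n, S (fun e => if e.2.1 = v then (1 : ℝ) else 0) l = d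
  nonneg : 0 ≤ σ
  mix : ∀ f g : ℕ → ℝ, ∑ u ∈ range n, f u = 0 → ∑ v ∈ range n, g v = 0 →
    |S (fun e => f e.1 * g e.2.1) l| ≤
      σ * d * (√(∑ u ∈ range n, f u ^ 2) * √(∑ v ∈ range n, g v ^ 2))

section General

variable {l : List SE} {n : ℕ}

theorem S_add (F G : SE → ℝ) (l : List SE) : S (fun e => F e + G e) l = S F l + S G l := by
  induction l with
  | nil => simp [S]
  | cons e l ih => rw [S_cons, S_cons, S_cons, ih]; ring

theorem S_mul (c : ℝ) (F : SE → ℝ) (l : List SE) : S (fun e => c * F e) l = c * S F l := by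
  induction l with
  | nil => simp [S]
  | cons e l ih => rw [S_cons, S_cons, ih]; ring

theorem S_sum {ι : Type} (s : Finset ι) (F : ι → SE → ℝ) (l : List SE) :
    S (fun e => ∑ i ∈ s, F i e) l = ∑ i ∈ s, S (F i) l := by
  induction l with
  | nil => simp [S]
  | cons e l ih => simp only [S_cons, ih, sum_add_distrib]

theorem S_congr {F G : SE → ℝ} {l : List SE} (h : ∀ e ∈ l, F e = G e) : S F l = S G l := by
  unfold S
  rw [List.map_congr_left h]

theorem S_le {F G : SE → ℝ} {l : List SE} (h : ∀ e ∈ l, F e ≤ G e) : S F l ≤ S G l := by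
  unfold S
  exact List.sum_le_sum h

theorem S_nonneg {F : SE → ℝ} {l : List SE} (h : ∀ e ∈ l, 0 ≤ F e) : 0 ≤ S F l := by
  unfold S
  refine List.sum_nonneg fun x hx => ?_
  obtain ⟨e, he, rfl⟩ := List.mem_map.1 hx
  exact h e he

theorem abs_S_le (F : SE → ℝ) (l : List SE) : |S F l| ≤ S (fun e => |F e|) l := by
  induction l with
  | nil => simp [S]
  | cons e l ih =>
    rw [S_cons, S_cons]
    exact (abs_add_le _ _).trans (by linarith)

/-- Splitting a sum over the edges by the left ends. -/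
theorem S_left (hl : ∀ e ∈ l, e.1 < n) (F : SE → ℝ) :
    S F l = ∑ u ∈ range n, S (fun e => if e.1 = u then F e else 0) l := by
  rw [← S_sum]
  refine S_congr fun e he => ?_
  rw [sum_ite_eq, if_pos (mem_range.2 (hl e he))]

theorem S_right (hl : ∀ e ∈ l, e.2.1 < n) (F : SE → ℝ) :
    S F l = ∑ u ∈ range n, S (fun e => if e.2.1 = u then F e else 0) l := by
  rw [← S_sum]
  refine S_congr fun e he => ?_
  rw [sum_ite_eq, if_pos (mem_range.2 (hl e he))]

theorem sqrt_card_sum (φ : ℕ → ℝ) (n : ℕ) :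
    |∑ u ∈ range n, φ u| ≤ √n * √(∑ u ∈ range n, φ u ^ 2) := by
  rw [← Real.sqrt_mul (by positivity)]
  refine Real.abs_le_sqrt ?_
  have := sq_sum_le_card_mul_sum_sq (s := range n) (f := φ)
  rwa [card_range] at this

end General

namespace Xp

variable {n d : ℕ} {σ : ℝ} {l : List SE}

theorem sum_left (h : Xp n d σ l) (φ : ℕ → ℝ) :
    S (fun e => φ e.1) l = d * ∑ u ∈ range n, φ u := by
  rw [S_left (fun e he => (h.lt e he).1), mul_sum]
  refine sum_congr rfl fun u hu => ?_
  rw [← h.left u (mem_range.1 hu), mul_comm, ← S_mul]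
  refine S_congr fun e _ => ?_
  split_ifs with h1
  · rw [h1, mul_one]
  · rw [mul_zero]

theorem sum_right (h : Xp n d σ l) (φ : ℕ → ℝ) :
    S (fun e => φ e.2.1) l = d * ∑ u ∈ range n, φ u := by
  rw [S_right (fun e he => (h.lt e he).2), mul_sum]
  refine sum_congr rfl fun u hu => ?_
  rw [← h.right u (mem_range.1 hu), mul_comm, ← S_mul]
  refine S_congr fun e _ => ?_
  split_ifs with h1
  · rw [h1, mul_one]
  · rw [mul_zero]

theorem count (h : Xp n d σ l) : S (fun _ => (1 : ℝ)) l = d * n := by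
  have := h.sum_left fun _ => 1
  simpa using this

/-- The expander mixing lemma. -/
theorem bil_le (h : Xp n d σ l) (f g : ℕ → ℝ) :
    |S (fun e => f e.1 * g e.2.1) l - d / n * ((∑ u ∈ range n, f u) * ∑ u ∈ range n, g u)| ≤
      σ * d * (√((∑ u ∈ range n, f u ^ 2) - (∑ u ∈ range n, f u) ^ 2 / n) *
        √((∑ u ∈ range n, g u ^ 2) - (∑ u ∈ range n, g u) ^ 2 / n)) := by
  have hn : (0 : ℝ) < n := by exact_mod_cast h.npos
  have hn' : (n : ℝ) ≠ 0 := hn.ne'
  have cen : ∀ φ : ℕ → ℝ, ∑ u ∈ range n, (φ u - (∑ u ∈ range n, φ u) / n) = 0 := by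
    intro φ
    rw [sum_sub_distrib, sum_const, card_range, nsmul_eq_mul]
    field_simp
    ring
  have cen2 : ∀ φ : ℕ → ℝ, ∑ u ∈ range n, (φ u - (∑ u ∈ range n, φ u) / n) ^ 2 =
      (∑ u ∈ range n, φ u ^ 2) - (∑ u ∈ range n, φ u) ^ 2 / n := by
    intro φ
    generalize hs : (∑ u ∈ range n, φ u) = s
    have : ∀ u, (φ u - s / n) ^ 2 = φ u ^ 2 - 2 * (s / n) * φ u + (s / n) ^ 2 := fun u => by ring
    simp only [this]
    rw [sum_add_distrib, sum_sub_distrib, sum_const, card_range, nsmul_eq_mul, ← mul_sum, hs]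
    field_simp
    ring
  have key := h.mix (fun u => f u - (∑ u ∈ range n, f u) / n)
    (fun u => g u - (∑ u ∈ range n, g u) / n) (cen f) (cen g)
  rw [cen2, cen2] at key
  refine le_trans (le_of_eq ?_) key
  congr 1
  generalize hsf : (∑ u ∈ range n, f u) = sf
  generalize hsg : (∑ u ∈ range n, g u) = sg
  have e1 : S (fun e => (f e.1 - sf / n) * (g e.2.1 - sg / n)) l =
      S (fun e => f e.1 * g e.2.1) l + (-(sg / n)) * S (fun e => f e.1) l +
        (-(sf / n)) * S (fun e => g e.2.1) l + (sf / n * (sg / n)) * S (fun _ => 1) l := by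
    rw [← S_mul, ← S_mul, ← S_mul, ← S_add, ← S_add, ← S_add]
    refine S_congr fun e _ => ?_
    ring
  rw [e1, h.sum_left, h.sum_right, h.count, hsf, hsg]
  field_simp
  ring

/-- The bilinear form, with a cruder error term. -/
theorem bil_le' (h : Xp n d σ l) (f g : ℕ → ℝ) :
    |S (fun e => f e.1 * g e.2.1) l| ≤ d / n * (|∑ u ∈ range n, f u| * |∑ u ∈ range n, g u|) +
      σ * d * (√(∑ u ∈ range n, f u ^ 2) * √(∑ u ∈ range n, g u ^ 2)) := by
  have hn : (0 : ℝ) < n := by exact_mod_cast h.npos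
  have h1 := h.bil_le f g
  have h2 : √((∑ u ∈ range n, f u ^ 2) - (∑ u ∈ range n, f u) ^ 2 / n) ≤
      √(∑ u ∈ range n, f u ^ 2) := Real.sqrt_le_sqrt (by
        have : 0 ≤ (∑ u ∈ range n, f u) ^ 2 / n := by positivity
        linarith)
  have h3 : √((∑ u ∈ range n, g u ^ 2) - (∑ u ∈ range n, g u) ^ 2 / n) ≤
      √(∑ u ∈ range n, g u ^ 2) := Real.sqrt_le_sqrt (by
        have : 0 ≤ (∑ u ∈ range n, g u) ^ 2 / n := by positivity
        linarith)
  have h4 : σ * d * (√((∑ u ∈ range n, f u ^ 2) - (∑ u ∈ range n, f u) ^ 2 / n) *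
        √((∑ u ∈ range n, g u ^ 2) - (∑ u ∈ range n, g u) ^ 2 / n)) ≤
      σ * d * (√(∑ u ∈ range n, f u ^ 2) * √(∑ u ∈ range n, g u ^ 2)) := by
    have := h.nonneg
    gcongr
  have h5 : |d / n * ((∑ u ∈ range n, f u) * ∑ u ∈ range n, g u)| =
      d / n * (|∑ u ∈ range n, f u| * |∑ u ∈ range n, g u|) := by
    rw [abs_mul, abs_mul, abs_of_nonneg (by positivity : (0 : ℝ) ≤ (d : ℝ) / n)]
  have h6 := abs_sub_abs_le_abs_sub (S (fun e => f e.1 * g e.2.1) l)
    (d / n * ((∑ u ∈ range n, f u) * ∑ u ∈ range n, g u))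
  rw [h5] at h6
  linarith

/-- The norm of a sparse part of the edges. -/
theorem sparse_le (h : Xp n d σ l) {p : SE → ℝ} (hp0 : ∀ e ∈ l, 0 ≤ p e) (hp1 : ∀ e ∈ l, p e ≤ 1)
    {w η : ℝ} (hw : S p l ≤ w * (d * n)) (hη : 0 < η) (hw0 : 0 ≤ w) (x y : ℕ → ℝ)
    (hx : ∑ u ∈ range n, x u ^ 2 = 1) (hy : ∑ u ∈ range n, y u ^ 2 = 1) :
    |S (fun e => p e * (x e.1 * y e.2.1)) l| ≤ d * (η + 2 * (√(w / η) + σ)) := by
  have hn : (0 : ℝ) < n := by exact_mod_cast h.npos
  have hd : (0 : ℝ) < d := by exact_mod_cast h.dpos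
  classical
  set wl : ℕ → ℝ := fun u => S (fun e => if e.1 = u then p e else 0) l with hwl
  set wr : ℕ → ℝ := fun v => S (fun e => if e.2.1 = v then p e else 0) l with hwr
  set b1 : ℕ → ℝ := fun u => if η * d < wl u then 1 else 0 with hb1
  set b2 : ℕ → ℝ := fun v => if η * d < wr v then 1 else 0 with hb2
  have wl0 : ∀ u, 0 ≤ wl u := fun u => S_nonneg fun e he => by
    split_ifs
    · exact hp0 e he
    · exact le_rfl
  have wr0 : ∀ u, 0 ≤ wr u := fun u => S_nonneg fun e he => by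
    split_ifs
    · exact hp0 e he
    · exact le_rfl
  -- the number of heavy vertices
  have card : ∀ (ω b : ℕ → ℝ), (∀ u, 0 ≤ ω u) → (∀ u, b u = if η * d < ω u then 1 else 0) →
      ∑ u ∈ range n, ω u = S p l → ∑ u ∈ range n, b u ≤ w / η * n := by
    intro ω b h0 hb hs
    have h1 : (η * d) * ∑ u ∈ range n, b u ≤ ∑ u ∈ range n, ω u := by
      rw [mul_sum]
      refine sum_le_sum fun u _ => ?_
      rw [hb]
      split_ifs with h2
      · rw [mul_one]; exact h2.le
      · rw [mul_zero]; exact h0 u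
    rw [hs] at h1
    have h2 : (η * d) * ∑ u ∈ range n, b u ≤ (η * d) * (w / η * n) := by
      calc _ ≤ w * (d * n) := h1.trans hw
        _ = _ := by field_simp
    exact le_of_mul_le_mul_left h2 (by positivity)
  have c1 := card wl b1 wl0 (fun u => rfl) (S_left (fun e he => (h.lt e he).1) p).symm
  have c2 := card wr b2 wr0 (fun u => rfl) (S_right (fun e he => (h.lt e he).2) p).symm
  have b1c : ∀ u, b1 u = 0 ∨ b1 u = 1 := fun u => by
    simp only [hb1]; split_ifs <;> simp
  have b2c : ∀ u, b2 u = 0 ∨ b2 u = 1 := fun u => by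
    simp only [hb2]; split_ifs <;> simp
  -- sums over heavy vertices
  have hv : ∀ (b z : ℕ → ℝ), (∀ u, b u = 0 ∨ b u = 1) → ∑ u ∈ range n, b u ≤ w / η * n →
      ∑ u ∈ range n, z u ^ 2 = 1 → |(∑ u ∈ range n, b u * |z u|)| ≤ √(w / η) * √n ∧
        ∑ u ∈ range n, (b u * |z u|) ^ 2 ≤ 1 := by
    intro b z hb hc hz
    constructor
    · rw [← Real.sqrt_mul (by positivity)]
      refine Real.abs_le_sqrt ?_
      have cs := sum_mul_sq_le_sq_mul_sq (range n) b fun u => |z u|
      have e1 : ∑ u ∈ range n, b u ^ 2 = ∑ u ∈ range n, b u := sum_congr rfl fun u _ => by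
        rcases hb u with h0 | h0 <;> rw [h0] <;> norm_num
      have e2 : ∑ u ∈ range n, |z u| ^ 2 = 1 := by
        rw [← hz]
        exact sum_congr rfl fun u _ => sq_abs _
      rw [e1, e2, mul_one] at cs
      exact cs.trans hc
    · rw [← hz]
      refine sum_le_sum fun u _ => ?_
      rcases hb u with h0 | h0 <;> rw [h0] <;> simp [sq_nonneg]
  obtain ⟨v1, v1'⟩ := hv b1 x b1c c1 hx
  obtain ⟨v2, v2'⟩ := hv b2 y b2c c2 hy
  have sxy : ∀ z : ℕ → ℝ, ∑ u ∈ range n, z u ^ 2 = 1 → |(∑ u ∈ range n, |z u|)| ≤ √n ∧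
      ∑ u ∈ range n, |z u| ^ 2 = 1 := by
    intro z hz
    have e2 : ∑ u ∈ range n, |z u| ^ 2 = 1 := by
      rw [← hz]
      exact sum_congr rfl fun u _ => sq_abs _
    refine ⟨?_, e2⟩
    have := sqrt_card_sum (fun u => |z u|) n
    rwa [e2, Real.sqrt_one, mul_one] at this
  obtain ⟨sx, sx'⟩ := sxy x hx
  obtain ⟨sy, sy'⟩ := sxy y hy
  have hnn : √(n : ℝ) * √n = n := Real.mul_self_sqrt hn.le
  have hσ := h.nonneg
  -- the two heavy parts
  have p1 : S (fun e => (b1 e.1 * |x e.1|) * |y e.2.1|) l ≤ d * (√(w / η) + σ) := by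
    have := (le_abs_self _).trans (h.bil_le' (fun u => b1 u * |x u|) fun u => |y u|)
    refine this.trans ?_
    rw [sy', Real.sqrt_one, mul_one]
    have k1 : |(∑ u ∈ range n, b1 u * |x u|)| * |(∑ u ∈ range n, |y u|)| ≤ √(w / η) * n := by
      calc _ ≤ (√(w / η) * √n) * √n := mul_le_mul v1 sy (abs_nonneg _) (by positivity)
        _ = _ := by rw [mul_assoc, hnn]
    have k2 : √(∑ u ∈ range n, (b1 u * |x u|) ^ 2) ≤ 1 := by
      exact Real.sqrt_le_iff.2 ⟨by norm_num, by simpa using v1'⟩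
    calc (d : ℝ) / n * (|(∑ u ∈ range n, b1 u * |x u|)| * |(∑ u ∈ range n, |y u|)|) +
          σ * d * √(∑ u ∈ range n, (b1 u * |x u|) ^ 2)
        ≤ d / n * (√(w / η) * n) + σ * d * 1 := by gcongr
      _ = _ := by field_simp
  have p2 : S (fun e => |x e.1| * (b2 e.2.1 * |y e.2.1|)) l ≤ d * (√(w / η) + σ) := by
    have := (le_abs_self _).trans (h.bil_le' (fun u => |x u|) fun u => b2 u * |y u|)
    refine this.trans ?_
    rw [sx', Real.sqrt_one, one_mul]
    have k1 : |(∑ u ∈ range n, |x u|)| * |(∑ u ∈ range n, b2 u * |y u|)| ≤ √(w / η) * n := by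
      calc _ ≤ √n * (√(w / η) * √n) := mul_le_mul sx v2 (abs_nonneg _) (by positivity)
        _ = √(w / η) * (√n * √n) := by ring
        _ = _ := by rw [hnn]
    have k2 : √(∑ u ∈ range n, (b2 u * |y u|) ^ 2) ≤ 1 := by
      exact Real.sqrt_le_iff.2 ⟨by norm_num, by simpa using v2'⟩
    calc (d : ℝ) / n * (|(∑ u ∈ range n, |x u|)| * |(∑ u ∈ range n, b2 u * |y u|)|) +
          σ * d * √(∑ u ∈ range n, (b2 u * |y u|) ^ 2)
        ≤ d / n * (√(w / η) * n) + σ * d * 1 := by gcongr
      _ = _ := by field_simp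
  -- the light part
  have p3 : S (fun e => p e * ((1 - b1 e.1) * x e.1 ^ 2)) l ≤ η * d := by
    rw [S_left (fun e he => (h.lt e he).1)]
    calc _ = ∑ u ∈ range n, ((1 - b1 u) * x u ^ 2) * wl u := by
          refine sum_congr rfl fun u _ => ?_
          rw [hwl, ← S_mul]
          refine S_congr fun e _ => ?_
          split_ifs with h1
          · rw [h1]; ring
          · ring
      _ ≤ ∑ u ∈ range n, x u ^ 2 * (η * d) := by
          refine sum_le_sum fun u _ => ?_
          by_cases h1 : η * d < wl u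
          · have : b1 u = 1 := if_pos h1
            rw [this]
            have : 0 ≤ x u ^ 2 * (η * d) := by positivity
            simpa using this
          · have : b1 u = 0 := if_neg h1
            rw [this, sub_zero, one_mul]
            exact mul_le_mul_of_nonneg_left (not_lt.1 h1) (sq_nonneg _)
      _ = η * d := by rw [← sum_mul, hx, one_mul]
  have p4 : S (fun e => p e * ((1 - b2 e.2.1) * y e.2.1 ^ 2)) l ≤ η * d := by
    rw [S_right (fun e he => (h.lt e he).2)]
    calc _ = ∑ u ∈ range n, ((1 - b2 u) * y u ^ 2) * wr u := by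
          refine sum_congr rfl fun u _ => ?_
          rw [hwr, ← S_mul]
          refine S_congr fun e _ => ?_
          split_ifs with h1
          · rw [h1]; ring
          · ring
      _ ≤ ∑ u ∈ range n, y u ^ 2 * (η * d) := by
          refine sum_le_sum fun u _ => ?_
          by_cases h1 : η * d < wr u
          · have : b2 u = 1 := if_pos h1
            rw [this]
            have : 0 ≤ y u ^ 2 * (η * d) := by positivity
            simpa using this
          · have : b2 u = 0 := if_neg h1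
            rw [this, sub_zero, one_mul]
            exact mul_le_mul_of_nonneg_left (not_lt.1 h1) (sq_nonneg _)
      _ = η * d := by rw [← sum_mul, hy, one_mul]
  refine (abs_S_le _ _).trans ?_
  have hall : S (fun e => |p e * (x e.1 * y e.2.1)|) l ≤
      S (fun e => (1 / 2) * (p e * ((1 - b1 e.1) * x e.1 ^ 2)) +
        (1 / 2) * (p e * ((1 - b2 e.2.1) * y e.2.1 ^ 2)) +
        (b1 e.1 * |x e.1|) * |y e.2.1| + |x e.1| * (b2 e.2.1 * |y e.2.1|)) l := by
    refine S_le fun e he => ?_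
    have q0 := hp0 e he
    have q1 := hp1 e he
    rw [abs_mul, abs_mul, abs_of_nonneg q0, ← sq_abs (x e.1), ← sq_abs (y e.2.1)]
    have a0 := abs_nonneg (x e.1)
    have a1 := abs_nonneg (y e.2.1)
    generalize |x e.1| = X at a0
    generalize |y e.2.1| = Y at a1
    have hXY : 0 ≤ X * Y := mul_nonneg a0 a1
    have hpxy : p e * (X * Y) ≤ X * Y := by nlinarith
    have hpx : 0 ≤ p e * X ^ 2 := by positivity
    have hpy : 0 ≤ p e * Y ^ 2 := by positivity
    rcases b1c e.1 with h1 | h1 <;> rcases b2c e.2.1 with h2 | h2 <;> rw [h1, h2]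
    · have : p e * (X * Y) ≤ p e * ((X ^ 2 + Y ^ 2) / 2) :=
        mul_le_mul_of_nonneg_left (by nlinarith [sq_nonneg (X - Y)]) q0
      nlinarith
    · nlinarith
    · nlinarith
    · nlinarith
  refine hall.trans ?_
  rw [S_add, S_add, S_add, S_mul, S_mul]
  linarith

end Xp

end Pool.Agent.K6.H49.UGX
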