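import Pool.Agent.K6.H49.UGX.Mix

/-!
# Power iteration
-/

set_option autoImplicit false

open Finset

namespace Pool.Agent.K6.H49.UGX

/-! ### Log-convex sequences -/

theorem logc_one {m : ℕ → ℝ} (h0 : ∀ k, 0 ≤ m k) (h : ∀ k, m (k + 1) ^ 2 ≤ m k * m (k + 2))
    (k : ℕ) : m k ^ (k + 1) ≤ m 0 * m (k + 1) ^ k := by
  induction k with
  | zero => simp
  | succ k ih =>
    rcases (h0 (k + 1)).eq_or_lt with h1 | h1
    · rw [← h1, zero_pow (by omega)]
      exact mul_nonneg (h0 0) (pow_nonneg (h0 _) _)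
    · have h2 : m (k + 1) ^ (2 * (k + 1)) ≤ m 0 * m (k + 1) ^ k * m (k + 2) ^ (k + 1) := by
        calc m (k + 1) ^ (2 * (k + 1)) = (m (k + 1) ^ 2) ^ (k + 1) := by rw [pow_mul]
          _ ≤ (m k * m (k + 2)) ^ (k + 1) := pow_le_pow_left₀ (sq_nonneg _) (h k) _
          _ = m k ^ (k + 1) * m (k + 2) ^ (k + 1) := mul_pow _ _ _
          _ ≤ (m 0 * m (k + 1) ^ k) * m (k + 2) ^ (k + 1) :=
            mul_le_mul_of_nonneg_right ih (pow_nonneg (h0 _) _)
      have h3 : m (k + 1) ^ k * m (k + 1) ^ (k + 2) ≤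
          m (k + 1) ^ k * (m 0 * m (k + 2) ^ (k + 1)) := by
        calc m (k + 1) ^ k * m (k + 1) ^ (k + 2) = m (k + 1) ^ (2 * (k + 1)) := by
              rw [← pow_add]; congr 1; ring
          _ ≤ _ := h2
          _ = _ := by ring
      exact le_of_mul_le_mul_left h3 (pow_pos h1 _)

theorem logc_two {m : ℕ → ℝ} (h0 : ∀ k, 0 ≤ m k) (h : ∀ k, m (k + 1) ^ 2 ≤ m k * m (k + 2))
    (k : ℕ) : m 1 ^ (k + 1) ≤ m 0 ^ k * m (k + 1) := by
  induction k with
  | zero => simp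
  | succ k ih =>
    have h1 := logc_one h0 h (k + 1)
    have h2 : (m 1 ^ (k + 2)) ^ (k + 1) ≤ (m 0 ^ (k + 1) * m (k + 2)) ^ (k + 1) := by
      calc (m 1 ^ (k + 2)) ^ (k + 1) = (m 1 ^ (k + 1)) ^ (k + 2) := by
            rw [← pow_mul, ← pow_mul, mul_comm]
        _ ≤ (m 0 ^ k * m (k + 1)) ^ (k + 2) := pow_le_pow_left₀ (pow_nonneg (h0 _) _) ih _
        _ = m 0 ^ (k * (k + 2)) * m (k + 1) ^ (k + 2) := by rw [mul_pow, ← pow_mul]
        _ ≤ m 0 ^ (k * (k + 2)) * (m 0 * m (k + 2) ^ (k + 1)) :=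
          mul_le_mul_of_nonneg_left h1 (pow_nonneg (h0 _) _)
        _ = (m 0 ^ (k + 1) * m (k + 2)) ^ (k + 1) := by
          rw [mul_pow, ← pow_mul]
          ring
    exact le_of_pow_le_pow_left₀ (by omega) (mul_nonneg (pow_nonneg (h0 _) _) (h0 _)) h2

/-- The final ratio of a log-convex sequence which does not get too small. -/
theorem logc_ratio {m : ℕ → ℝ} (h0 : ∀ k, 0 ≤ m k) (h : ∀ k, m (k + 1) ^ 2 ≤ m k * m (k + 2))
    (hm : m 0 = 1) {N k : ℕ} {β δ : ℝ} (hδ : 0 < δ) (hN : 1 ≤ δ * N) (hn : 0 < k)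
    {n : ℕ} (hnk : n * N ≤ k) (hlow : β ^ k ≤ n * m k) :
    m k * β ≤ (1 + δ) * m (k + 1) := by
  have h1 := logc_one h0 h k
  rw [hm, one_mul] at h1
  have h2 : (n : ℝ) ≤ (1 + δ) ^ k := by
    have b := one_add_mul_le_pow (by linarith : (-2 : ℝ) ≤ δ) k
    have : (n : ℝ) * 1 ≤ n * (δ * N) := mul_le_mul_of_nonneg_left hN (by positivity)
    have h3 : (n : ℝ) * N ≤ k := by exact_mod_cast hnk
    have h4 : δ * (n * N) ≤ δ * k := mul_le_mul_of_nonneg_left h3 hδ.le
    nlinarith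
  have h3 : (m k * β) ^ k ≤ ((1 + δ) * m (k + 1)) ^ k := by
    calc (m k * β) ^ k = m k ^ k * β ^ k := mul_pow _ _ _
      _ ≤ m k ^ k * (n * m k) := mul_le_mul_of_nonneg_left hlow (pow_nonneg (h0 _) _)
      _ = n * m k ^ (k + 1) := by ring
      _ ≤ (1 + δ) ^ k * m (k + 1) ^ k :=
        mul_le_mul h2 h1 (pow_nonneg (h0 _) _) (by positivity)
      _ = _ := (mul_pow _ _ _).symm
  exact le_of_pow_le_pow_left₀ (by omega) (mul_nonneg (by linarith) (h0 _)) h3

/-! ### The signed matrix -/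

def sg (e : SE) : ℝ := if e.2.2 then -1 else 1

noncomputable def Rf (l : List SE) (y : ℕ → ℝ) (u : ℕ) : ℝ :=
  S (fun e => if e.1 = u then sg e * y e.2.1 else 0) l

noncomputable def Lf (l : List SE) (x : ℕ → ℝ) (v : ℕ) : ℝ :=
  S (fun e => if e.2.1 = v then sg e * x e.1 else 0) l

/-- The inner product of the restrictions to `0, …, n - 1`. -/
def ip (n : ℕ) (x y : ℕ → ℝ) : ℝ := ∑ u ∈ range n, x u * y u

section Power

variable {n : ℕ} {l : List SE}

theorem ip_comm (x y : ℕ → ℝ) : ip n x y = ip n y x := by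
  unfold ip
  exact sum_congr rfl fun _ _ => mul_comm _ _

theorem ip_self_nonneg (x : ℕ → ℝ) : 0 ≤ ip n x x := sum_nonneg fun _ _ => mul_self_nonneg _

theorem ip_sq_le (x y : ℕ → ℝ) : ip n x y ^ 2 ≤ ip n x x * ip n y y := by
  unfold ip
  have := sum_mul_sq_le_sq_mul_sq (range n) x y
  simpa only [sq] using this

theorem ip_Rf (hl : ∀ e ∈ l, e.1 < n) (x y : ℕ → ℝ) :
    ip n x (Rf l y) = S (fun e => sg e * (x e.1 * y e.2.1)) l := by
  rw [S_left hl]
  unfold ip Rf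
  refine sum_congr rfl fun u _ => ?_
  rw [← S_mul]
  refine S_congr fun e _ => ?_
  split_ifs with h
  · rw [h]; ring
  · ring

theorem ip_Lf (hl : ∀ e ∈ l, e.2.1 < n) (x y : ℕ → ℝ) :
    ip n (Lf l x) y = S (fun e => sg e * (x e.1 * y e.2.1)) l := by
  rw [S_right hl]
  unfold ip Lf
  refine sum_congr rfl fun u _ => ?_
  rw [mul_comm, ← S_mul]
  refine S_congr fun e _ => ?_
  split_ifs with h
  · rw [h]; ring
  · ring

/-- Alternating between the two sides. -/
noncomputable def zs (l : List SE) (y : ℕ → ℝ) : ℕ → ℕ → ℝ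
  | 0 => y
  | k + 1 => if k % 2 = 0 then Rf l (zs l y k) else Lf l (zs l y k)

noncomputable def ms (n : ℕ) (l : List SE) (y : ℕ → ℝ) (k : ℕ) : ℝ := ip n (zs l y k) (zs l y k)

theorem ms_logc (hl : ∀ e ∈ l, e.1 < n ∧ e.2.1 < n) (y : ℕ → ℝ) (k : ℕ) :
    ms n l y (k + 1) ^ 2 ≤ ms n l y k * ms n l y (k + 2) := by
  have key : ms n l y (k + 1) = ip n (zs l y k) (zs l y (k + 2)) := by
    unfold ms
    rcases Nat.mod_two_eq_zero_or_one k with hk | hk
    · have h1 : zs l y (k + 1) = Rf l (zs l y k) := by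
        rw [zs, if_pos hk]
      have h2 : zs l y (k + 2) = Lf l (zs l y (k + 1)) := by
        rw [zs, if_neg (by omega)]
      conv_lhs => rw [show ip n (zs l y (k + 1)) (zs l y (k + 1)) =
        ip n (zs l y (k + 1)) (Rf l (zs l y k)) by rw [← h1]]
      rw [ip_Rf (fun e he => (hl e he).1), h2, ip_comm, ip_Lf (fun e he => (hl e he).2)]
    · have h1 : zs l y (k + 1) = Lf l (zs l y k) := by
        rw [zs, if_neg (by omega)]
      have h2 : zs l y (k + 2) = Rf l (zs l y (k + 1)) := by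
        rw [zs, if_pos (by omega)]
      conv_lhs => rw [show ip n (zs l y (k + 1)) (zs l y (k + 1)) =
        ip n (Lf l (zs l y k)) (zs l y (k + 1)) by rw [← h1]]
      rw [ip_Lf (fun e he => (hl e he).2), h2, ip_Rf (fun e he => (hl e he).1)]
  rw [key]
  exact ip_sq_le _ _

theorem ms_nonneg (y : ℕ → ℝ) (k : ℕ) : 0 ≤ ms n l y k := ip_self_nonneg _

/-- The unit vector. -/
def ev (v : ℕ) (u : ℕ) : ℝ := if u = v then 1 else 0

theorem zs_sum (hl : ∀ e ∈ l, e.1 < n ∧ e.2.1 < n) (b : ℕ → ℝ) (k : ℕ) : ∀ u < n,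
    zs l b k u = ∑ v ∈ range n, b v * zs l (ev v) k u := by
  induction k with
  | zero =>
    intro u hu
    simp only [zs, ev, mul_ite, mul_one, mul_zero]
    rw [sum_ite_eq, if_pos (mem_range.2 hu)]
  | succ k ih =>
    intro u _
    by_cases hk : k % 2 = 0
    · simp only [zs, if_pos hk]
      unfold Rf
      simp only [← S_mul]
      rw [← S_sum]
      refine S_congr fun e he => ?_
      split_ifs with h
      · rw [ih _ (hl e he).2, mul_sum]
        exact sum_congr rfl fun v _ => by ring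
      · simp
    · simp only [zs, if_neg hk]
      unfold Lf
      simp only [← S_mul]
      rw [← S_sum]
      refine S_congr fun e he => ?_
      split_ifs with h
      · rw [ih _ (hl e he).1, mul_sum]
        exact sum_congr rfl fun v _ => by ring
      · simp

/-- Some unit vector is a good start. -/
theorem exists_start (hl : ∀ e ∈ l, e.1 < n ∧ e.2.1 < n) (hn : 0 < n) {b : ℕ → ℝ}
    (hb : ∀ v, b v ^ 2 = 1) (k : ℕ) : ∃ v < n, ms n l b k ≤ (n : ℝ) ^ 2 * ms n l (ev v) k := by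
  by_contra hc
  push Not at hc
  have h1 : ms n l b k ≤ n * ∑ v ∈ range n, ms n l (ev v) k := by
    unfold ms ip
    rw [sum_comm, mul_sum]
    refine sum_le_sum fun u hu => ?_
    rw [zs_sum hl b k u (mem_range.1 hu)]
    have cs := sum_mul_sq_le_sq_mul_sq (range n) b fun v => zs l (ev v) k u
    have h2 : ∑ v ∈ range n, b v ^ 2 = n := by
      rw [sum_congr rfl fun v _ => hb v]
      simp
    rw [h2] at cs
    calc _ = (∑ v ∈ range n, b v * zs l (ev v) k u) ^ 2 := (sq _).symm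
      _ ≤ _ := cs
      _ = _ := by simp only [sq]
  have h3 : (n : ℝ) * ∑ v ∈ range n, (n * ms n l (ev v) k) < n * ∑ v ∈ range n, (ms n l b k / n) := by
    refine mul_lt_mul_of_pos_left ?_ (by exact_mod_cast hn)
    refine sum_lt_sum_of_nonempty ⟨0, mem_range.2 hn⟩ fun v hv => ?_
    rw [lt_div_iff₀ (by exact_mod_cast hn)]
    calc (n : ℝ) * ms n l (ev v) k * n = n ^ 2 * ms n l (ev v) k := by ring
      _ < _ := hc v (mem_range.1 hv)
  have hn' : (0 : ℝ) < n := by exact_mod_cast hn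
  rw [← mul_sum, sum_const, card_range, nsmul_eq_mul] at h3
  have h4 : (n : ℝ) * (n * (ms n l b k / n)) = n * ms n l b k := by field_simp
  rw [h4] at h3
  have h5 : (n : ℝ) * ms n l b k ≤ n * (n * ∑ v ∈ range n, ms n l (ev v) k) :=
    mul_le_mul_of_nonneg_left h1 hn'.le
  linarith

/-- **Power iteration finds a vector which is almost not shortened.** -/
theorem power (hl : ∀ e ∈ l, e.1 < n ∧ e.2.1 < n) (hn : 0 < n) {a b : ℕ → ℝ}
    (ha : ∀ v, a v ^ 2 = 1) (hb : ∀ v, b v ^ 2 = 1) {γ : ℝ} (hγ : 0 < γ)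
    (hab : γ * n ≤ S (fun e => sg e * (a e.1 * b e.2.1)) l) {δ : ℝ} {N k : ℕ} (hδ : 0 < δ)
    (hN : 1 ≤ δ * N) (hk : n * N ≤ k) (hk0 : 0 < k) : ∃ v < n, 0 < ms n l (ev v) k ∧
      γ ^ 2 * ms n l (ev v) k ≤ (1 + δ) * ms n l (ev v) (k + 1) := by
  have hn' : (0 : ℝ) < n := by exact_mod_cast hn
  obtain ⟨v, hv, h1⟩ := exists_start hl hn hb k
  have b0 : ms n l b 0 = n := by
    unfold ms ip
    simp only [zs]
    rw [sum_congr rfl fun v _ => (sq (b v)).symm.trans (hb v)]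
    simp
  have a0 : ip n a a = n := by
    unfold ip
    rw [sum_congr rfl fun v _ => (sq (a v)).symm.trans (ha v)]
    simp
  have b1 : γ ^ 2 * n ≤ ms n l b 1 := by
    have e1 : ms n l b 1 = ip n (Rf l b) (Rf l b) := by
      unfold ms
      simp [zs]
    have h2 := ip_sq_le (n := n) a (Rf l b)
    rw [ip_Rf (fun e he => (hl e he).1), a0, ← e1] at h2
    have h3 : (γ * n) ^ 2 ≤ S (fun e => sg e * (a e.1 * b e.2.1)) l ^ 2 :=
      pow_le_pow_left₀ (by positivity) hab 2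
    have h4 : n * (γ ^ 2 * n) ≤ n * ms n l b 1 := by
      calc (n : ℝ) * (γ ^ 2 * n) = (γ * n) ^ 2 := by ring
        _ ≤ _ := h3.trans h2
    exact le_of_mul_le_mul_left h4 hn'
  have hk1 : k = (k - 1) + 1 := by omega
  have h5 := logc_two (ms_nonneg (n := n) (l := l) b) (ms_logc hl b) (k - 1)
  rw [← hk1, b0] at h5
  have h6 : (n : ℝ) ^ k * (γ ^ 2) ^ k ≤ n ^ (k - 1) * ms n l b k := by
    calc (n : ℝ) ^ k * (γ ^ 2) ^ k = (γ ^ 2 * n) ^ k := by rw [mul_pow, mul_comm]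
      _ ≤ ms n l b 1 ^ k := pow_le_pow_left₀ (by positivity) b1 k
      _ ≤ _ := h5
  have h7 : n * (γ ^ 2) ^ k ≤ ms n l b k := by
    have : (n : ℝ) ^ k = n ^ (k - 1) * n := by
      conv_lhs => rw [hk1, pow_succ]
    rw [this, mul_assoc] at h6
    exact le_of_mul_le_mul_left h6 (by positivity)
  have h8 : (γ ^ 2) ^ k ≤ n * ms n l (ev v) k := by
    have h9 : n * (γ ^ 2) ^ k ≤ n * (n * ms n l (ev v) k) := by
      calc n * (γ ^ 2) ^ k ≤ ms n l b k := h7
        _ ≤ _ := h1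
        _ = _ := by ring
    exact le_of_mul_le_mul_left h9 hn'
  have hpos : 0 < ms n l (ev v) k := by
    have : 0 < (n : ℝ) * ms n l (ev v) k := lt_of_lt_of_le (by positivity) h8
    exact pos_of_mul_pos_right this hn'.le |> fun h => h
  have ev0 : ms n l (ev v) 0 = 1 := by
    unfold ms ip
    simp only [zs, ev, mul_ite, mul_one, mul_zero]
    rw [sum_ite_eq' (range n) v]
    simp [hv]
  refine ⟨v, hv, hpos, ?_⟩
  have := logc_ratio (ms_nonneg (n := n) (l := l) (ev v)) (ms_logc hl (ev v)) ev0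
    (β := γ ^ 2) (N := N) (k := k) hδ hN hk0 hk h8
  linarith

end Power

end Pool.Agent.K6.H49.UGX
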