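import Pool.Agent.K6.H49.UGX.Loc

/-!
# Rounding
-/

set_option autoImplicit false

open Finset

namespace Pool.Agent.K6.H49.UGX

/-- The sign of a Boolean label. -/
def bs (x : Bool) : ℝ := if x then -1 else 1

theorem bs_sq (x : Bool) : bs x ^ 2 = 1 := by cases x <;> norm_num [bs]

theorem sg_eq (f g : ℕ → Bool) (e : SE) :
    sg e = (1 - 2 * (vio f g e : ℝ)) * (bs (f e.1) * bs (g e.2.1)) := by
  unfold sg vio bs
  generalize f e.1 = x
  generalize g e.2.1 = y
  generalize e.2.2 = z
  cases x <;> cases y <;> cases z <;> norm_num [vc]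

theorem sg_sum (n d : ℕ) {σ : ℝ} {l : List SE} (h : Xp n d σ l) (f g : ℕ → Bool) :
    S (fun e => sg e * (bs (f e.1) * bs (g e.2.1))) l = d * n - 2 * V l f g := by
  have h1 : S (fun e => sg e * (bs (f e.1) * bs (g e.2.1))) l =
      S (fun e => 1 + (-2) * (vio f g e : ℝ)) l := by
    refine S_congr fun e _ => ?_
    rw [sg_eq f g e]
    have a := bs_sq (f e.1)
    have b := bs_sq (g e.2.1)
    calc _ = (1 - 2 * (vio f g e : ℝ)) * (bs (f e.1) ^ 2 * bs (g e.2.1) ^ 2) := by ring
      _ = _ := by rw [a, b]; ring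
  rw [h1, S_add, S_mul, h.count]
  unfold V
  ring

/-- **Rounding** a vector which is almost not shortened gives the optimal labeling, or its
complement, up to few vertices. -/
theorem rounding {n d : ℕ} {σ : ℝ} {l : List SE} (h : Xp n d σ l) {f g : ℕ → Bool} {w : ℝ}
    (hw : V l f g ≤ w * (d * n)) {y : ℕ → ℝ} (hy : 0 < ip n y y) {θ₀ η θ : ℝ} (hθ₀ : 0 < θ₀)
    (hyR : (θ₀ * d) ^ 2 * ip n y y ≤ ip n (Rf l y) (Rf l y)) (hη : 0 < η)
    (hθ : θ ≤ θ₀ - (5 * σ + 2 * η + 4 * √(w / η))) (hθ0 : 0 < θ) :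
    ∃ s : Bool, ∑ v ∈ range n, df (fun v => decide (y v < 0)) (fun v => g v ^^ s) v ≤
      (1 - θ ^ 2) / θ ^ 2 * n := by
  have hn : (0 : ℝ) < n := by exact_mod_cast h.npos
  have hd : (0 : ℝ) < d := by exact_mod_cast h.dpos
  have hw0 : 0 ≤ w := by
    have h1 : 0 ≤ w * (d * n) := (V_nonneg l f g).trans hw
    exact nonneg_of_mul_nonneg_left h1 (by positivity)
  have hx : 0 < ip n (Rf l y) (Rf l y) := lt_of_lt_of_le (by positivity) hyR
  set Y := √(ip n y y) with hY
  set X := √(ip n (Rf l y) (Rf l y)) with hX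
  have hYp : 0 < Y := Real.sqrt_pos.2 hy
  have hXp : 0 < X := Real.sqrt_pos.2 hx
  have hY2 : Y ^ 2 = ip n y y := Real.sq_sqrt hy.le
  have hX2 : X ^ 2 = ip n (Rf l y) (Rf l y) := Real.sq_sqrt hx.le
  set x' : ℕ → ℝ := fun u => bs (f u) * (Rf l y u / X) with hx'
  set y' : ℕ → ℝ := fun v => bs (g v) * (y v / Y) with hy'
  have x1 : ∑ u ∈ range n, x' u ^ 2 = 1 := by
    have : ∀ u, x' u ^ 2 = (1 / X ^ 2) * (Rf l y u * Rf l y u) := fun u => by
      simp only [hx', mul_pow, bs_sq, div_pow]
      field_simp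
    simp only [this]
    rw [← mul_sum]
    change 1 / X ^ 2 * ip n (Rf l y) (Rf l y) = 1
    rw [← hX2]
    field_simp
  have y1 : ∑ u ∈ range n, y' u ^ 2 = 1 := by
    have : ∀ u, y' u ^ 2 = (1 / Y ^ 2) * (y u * y u) := fun u => by
      simp only [hy', mul_pow, bs_sq, div_pow]
      field_simp
    simp only [this]
    rw [← mul_sum]
    change 1 / Y ^ 2 * ip n y y = 1
    rw [← hY2]
    field_simp
  -- the signed form
  have hsf : S (fun e => x' e.1 * y' e.2.1) l -
      2 * S (fun e => (vio f g e : ℝ) * (x' e.1 * y' e.2.1)) l = X / Y := by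
    have e1 : S (fun e => x' e.1 * y' e.2.1) l +
        (-2) * S (fun e => (vio f g e : ℝ) * (x' e.1 * y' e.2.1)) l =
        (1 / (X * Y)) * S (fun e => sg e * (Rf l y e.1 * y e.2.1)) l := by
      rw [← S_mul, ← S_mul, ← S_add]
      refine S_congr fun e _ => ?_
      rw [sg_eq f g e]
      simp only [hx', hy']
      field_simp
      ring
    rw [← ip_Rf (fun e he => (h.lt e he).1), ← hX2] at e1
    calc _ = 1 / (X * Y) * X ^ 2 := by linarith
      _ = X / Y := by field_simp
  have hXY : θ₀ * d ≤ X / Y := by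
    rw [le_div_iff₀ hYp]
    refine le_of_sq_le_sq ?_ hXp.le |> fun h => h
    rw [mul_pow, hY2, hX2]
    exact hyR
  have k1 := (le_abs_self _).trans (h.bil_le' x' y')
  rw [x1, y1, Real.sqrt_one, mul_one, mul_one] at k1
  have k2 := (neg_abs_le _).trans' (neg_le_neg (h.sparse_le (p := fun e => (vio f g e : ℝ))
    (fun e _ => vio_nonneg f g e) (fun e _ => vio_le_one f g e) hw hη hw0 x' y' x1 y1))
  have k3 := sqrt_card_sum x' n
  rw [x1, Real.sqrt_one, mul_one] at k3
  have k3' := sqrt_card_sum y' n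
  rw [y1, Real.sqrt_one, mul_one] at k3'
  -- the sum of y'
  set M := ∑ v ∈ range n, y' v with hM
  have hsn : 0 < √(n : ℝ) := Real.sqrt_pos.2 hn
  have hnn : √(n : ℝ) * √n = n := Real.mul_self_sqrt hn.le
  have k4 : θ * √n ≤ |M| := by
    have k5 : (d : ℝ) / n * (|∑ u ∈ range n, x' u| * |M|) ≤ d / n * (√n * |M|) := by gcongr
    have k6 : d * θ ≤ d / n * (√n * |M|) := by nlinarith
    have k7 : θ * n ≤ √n * |M| := by
      have : (d : ℝ) / n * (θ * n) ≤ d / n * (√n * |M|) := by
        calc (d : ℝ) / n * (θ * n) = d * θ := by field_simp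
          _ ≤ _ := k6
      exact le_of_mul_le_mul_left this (by positivity)
    have k8 : √n * (θ * √n) ≤ √n * |M| := by
      calc √n * (θ * √n) = θ * (√n * √n) := by ring
        _ = θ * n := by rw [hnn]
        _ ≤ _ := k7
    exact le_of_mul_le_mul_left k8 hsn
  have hMpos : 0 < |M| := lt_of_lt_of_le (by positivity) k4
  have hM2 : θ ^ 2 * n ≤ M ^ 2 := by
    rw [← sq_abs M]
    calc θ ^ 2 * n = (θ * √n) ^ 2 := by rw [mul_pow, Real.sq_sqrt hn.le]
      _ ≤ _ := pow_le_pow_left₀ (by positivity) k4 2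
  refine ⟨decide (M < 0), ?_⟩
  -- the wrong vertices
  have hwr : ∀ v ∈ range n, df (fun v => decide (y v < 0)) (fun v => g v ^^ decide (M < 0)) v *
      (M / n) ^ 2 ≤ (y' v - M / n) ^ 2 := by
    intro v _
    unfold df
    split_ifs with hc
    · rw [zero_mul]; exact sq_nonneg _
    · rw [one_mul]
      have key : y' v * M ≤ 0 := by
        simp only [hy']
        have hyv : ∀ z : ℝ, z / Y * M = z * M / Y := fun z => by ring
        have goal : ∀ c : ℝ, c * y v * M ≤ 0 → c * (y v / Y) * M ≤ 0 := by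
          intro c hc
          have : c * (y v / Y) * M = (c * y v * M) / Y := by ring
          rw [this]
          exact div_nonpos_of_nonpos_of_nonneg hc hYp.le
        apply goal
        simp only at hc
        by_cases hM0 : M < 0 <;> by_cases hy0 : y v < 0
        · have hgv : g v = true := by
            cases hg : g v
            · exact absurd (by rw [hg]; simp [hM0, hy0]) hc
            · rfl
          rw [hgv]
          simp only [bs, if_true]
          nlinarith
        · have hgv : g v = false := by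
            cases hg : g v
            · rfl
            · exact absurd (by rw [hg]; simp [hM0, hy0]) hc
          rw [hgv]
          simp only [bs, Bool.false_eq_true, if_false]
          nlinarith
        · have hgv : g v = false := by
            cases hg : g v
            · rfl
            · exact absurd (by rw [hg]; simp [hM0, hy0]) hc
          rw [hgv]
          simp only [bs, Bool.false_eq_true, if_false]
          nlinarith
        · have hgv : g v = true := by
            cases hg : g v
            · exact absurd (by rw [hg]; simp [hM0, hy0]) hc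
            · rfl
          rw [hgv]
          simp only [bs, if_true]
          nlinarith
      have : 0 ≤ y' v ^ 2 - 2 * (y' v * M) / n := by
        have h2 : 2 * (y' v * M) / n ≤ 0 :=
          div_nonpos_of_nonpos_of_nonneg (by linarith) hn.le
        nlinarith [sq_nonneg (y' v)]
      have e2 : (y' v - M / n) ^ 2 = (y' v ^ 2 - 2 * (y' v * M) / n) + (M / n) ^ 2 := by
        ring
      rw [e2]
      linarith
  have hws := sum_le_sum hwr
  rw [← sum_mul] at hws
  have cen2 : ∑ u ∈ range n, (y' u - M / n) ^ 2 = 1 - M ^ 2 / n := by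
    have : ∀ u, (y' u - M / n) ^ 2 = y' u ^ 2 - 2 * (M / n) * y' u + (M / n) ^ 2 := fun u => by ring
    simp only [this]
    rw [sum_add_distrib, sum_sub_distrib, sum_const, card_range, nsmul_eq_mul, ← mul_sum, ← hM, y1]
    field_simp
    ring
  rw [cen2] at hws
  generalize (∑ v ∈ range n, df (fun v => decide (y v < 0)) (fun v => g v ^^ decide (M < 0)) v) = W
    at hws ⊢
  -- W t / n ≤ 1 - t with t = M²/n ≥ θ²
  obtain ⟨t, ht⟩ : ∃ t, M ^ 2 = t * n := ⟨M ^ 2 / n, by field_simp⟩
  have ht1 : θ ^ 2 ≤ t := by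
    rw [ht] at hM2
    exact le_of_mul_le_mul_right hM2 hn
  have hθ2 : 0 < θ ^ 2 := by positivity
  have ht0 : 0 < t := lt_of_lt_of_le hθ2 ht1
  have e3 : (M / n) ^ 2 = t / n := by rw [div_pow, ht]; field_simp
  have e4 : M ^ 2 / n = t := by rw [ht]; field_simp
  rw [e3, e4] at hws
  have h5 : W * t ≤ (1 - t) * n := by
    have : W * (t / n) * n ≤ (1 - t) * n := mul_le_mul_of_nonneg_right hws hn.le
    have e5 : W * (t / n) * n = W * t := by field_simp
    linarith
  have h6 : W ≤ (1 - t) / t * n := by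
    rw [div_mul_eq_mul_div, le_div_iff₀ ht0]
    exact h5
  refine h6.trans (mul_le_mul_of_nonneg_right ?_ hn.le)
  rw [div_le_div_iff₀ ht0 hθ2]
  nlinarith

end Pool.Agent.K6.H49.UGX
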